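import Mathlib

/-!
# CHAR57: characters modulo `5` and `7` with given values at `-1` and `2`
-/

set_option autoImplicit false

namespace Pool.Agent.H11.SC6

open Complex

theorem char_gen (n : ℕ) (g : (ZMod n)ˣ) (hg : ∀ x : (ZMod n)ˣ, x ∈ Subgroup.zpowers g)
    (m : ℕ) (hm : orderOf g = m) (z : ℂ) (hm0 : m ≠ 0) (hz : z ^ m = 1) :
    ∃ χ : DirichletCharacter ℂ n, χ (g : ZMod n) = z := by
  have hz0 : z ≠ 0 := by
    rintro rfl
    rw [zero_pow hm0] at hz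
    exact zero_ne_one hz
  have h1 : orderOf (Units.mk0 z hz0) ∣ orderOf g := by
    rw [hm]
    refine orderOf_dvd_of_pow_eq_one ?_
    ext
    push_cast
    exact hz
  refine ⟨MulChar.ofUnitHom (monoidHomOfForallMemZpowers hg h1), ?_⟩
  rw [MulChar.ofUnitHom_coe, monoidHomOfForallMemZpowers_apply_gen]
  rfl

def g5 : (ZMod 5)ˣ := ⟨2, 3, by decide, by decide⟩

def g7 : (ZMod 7)ˣ := ⟨3, 5, by decide, by decide⟩

theorem char5 (e κ : ℂ) (he : e ^ 2 = 1) (hk : κ ^ 2 = e) :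
    ∃ χ : DirichletCharacter ℂ 5, χ (-1) = e ∧ χ 2 = κ := by
  have hg1 : ∀ x : (ZMod 5)ˣ, ∃ k : Fin 4, g5 ^ (k : ℕ) = x := by decide
  have hg : ∀ x : (ZMod 5)ˣ, x ∈ Subgroup.zpowers g5 := by
    intro x
    obtain ⟨k, hk⟩ := hg1 x
    exact ⟨(k : ℕ), by simpa using hk⟩
  have ho : orderOf g5 = 4 := by
    rw [orderOf_eq_iff (by norm_num)]
    refine ⟨by decide, fun m h1 h2 => ?_⟩
    interval_cases m <;> decide
  obtain ⟨χ, hχ⟩ := char_gen 5 g5 hg 4 ho κ (by norm_num) (by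
    have : κ ^ 4 = (κ ^ 2) ^ 2 := by ring
    rw [this, hk, he])
  have h2 : χ 2 = κ := hχ
  refine ⟨χ, ?_, h2⟩
  have h3 : (-1 : ZMod 5) = 2 * 2 := by decide
  rw [h3, map_mul, h2, ← hk]
  ring

theorem char7 (e κ : ℂ) (he : e ^ 2 = 1) (hk : κ ^ 3 = 1) :
    ∃ χ : DirichletCharacter ℂ 7, χ (-1) = e ∧ χ 2 = κ := by
  have hg1 : ∀ x : (ZMod 7)ˣ, ∃ k : Fin 6, g7 ^ (k : ℕ) = x := by decide
  have hg : ∀ x : (ZMod 7)ˣ, x ∈ Subgroup.zpowers g7 := by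
    intro x
    obtain ⟨k, hk⟩ := hg1 x
    exact ⟨(k : ℕ), by simpa using hk⟩
  have ho : orderOf g7 = 6 := by
    rw [orderOf_eq_iff (by norm_num)]
    refine ⟨by decide, fun m h1 h2 => ?_⟩
    interval_cases m <;> decide
  obtain ⟨χ, hχ⟩ := char_gen 7 g7 hg 6 ho (e * κ ^ 2) (by norm_num) (by
    have : (e * κ ^ 2) ^ 6 = (e ^ 2) ^ 3 * (κ ^ 3) ^ 4 := by ring
    rw [this, hk, he]
    norm_num)
  have h3 : χ 3 = e * κ ^ 2 := hχ
  refine ⟨χ, ?_, ?_⟩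
  · have h4 : (-1 : ZMod 7) = 3 * 3 * 3 := by decide
    rw [h4, map_mul, map_mul, h3]
    calc e * κ ^ 2 * (e * κ ^ 2) * (e * κ ^ 2) = e * e ^ 2 * (κ ^ 3) ^ 2 := by ring
      _ = e := by rw [hk, he]; ring
  · have h4 : (2 : ZMod 7) = 3 * 3 := by decide
    rw [h4, map_mul, h3]
    calc e * κ ^ 2 * (e * κ ^ 2) = e ^ 2 * (κ ^ 3) * κ := by ring
      _ = κ := by rw [hk, he]; ring

end Pool.Agent.H11.SC6
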