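import Mathlib
import Pool.Agent.H11.SC5.Defs5
import Pool.Agent.H39.Pol.Inv2

/-!
# CSTEPP: the step of `H11/SC5` (`CStep`) from the inversion with a pole

`ξ = -(I z)`: `Re ξ = Im z`, `Im ξ = -Re z`, `ff b z = gs b 3 ξ`, `JJ (sq²) z = ((sq ξ)^7)⁻¹` (`√(sq²) = sq`),
`ff (cj b) (-1/(sq² z)) = gs (cj b) 3 (1/(sq² ξ))` (`z = I ξ`).  So for `Re z ≤ 0` (`Im ξ ≥ 0`) `h.up`, and for
`Re z ≥ 0` `h.lo` give the first two bounds, up to the polar term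
`P = (2πξ)^(-(4+iθ)) R(log(2πξ))`; for `cj b` use `StepR.conj` of `Inv2.lean` (with `cj b`, `-θ`; `cj_cj`) at `ξ`, from
`h.lo` at `conj ξ` if `Im ξ ≥ 0` (constant `conj ωm`, `R = Rm.map conj`) and `h.up` at `conj ξ` if `Im ξ ≤ 0`.
POLAR TERM: for `Re ξ > 0`, `‖ξ‖ ≤ 2`, `Re ξ ≤ 1`, `Re ξ ≤ 100 ‖ξ‖²`: `‖(2πξ)^(-(4+iθ))‖ ≤ e^(π|θ|) (2π‖ξ‖)^(-4)`,
`‖log(2πξ)‖ ≤ |log(2π‖ξ‖)| + π ≤ C ‖ξ‖^(-1/(2(d+1)))` for `‖ξ‖ ≤ 2` (`d = natDegree R`), so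
`‖R(log(2πξ))‖ ≤ C' ‖ξ‖^(-1/2)` (sum of coefficients; or any other way), and
`‖P‖ ≤ C'' ‖ξ‖^(-9/2) = C'' (‖ξ‖²)^(-9/4) ≤ C'' 100^(9/4) (Re ξ)^(-9/4) ≤ C''' (Re ξ)^(-13/4)`.
Prove it as a lemma `polar_bound` for an arbitrary polynomial and an arbitrary real `θ`.
-/

set_option autoImplicit false

namespace Pool.Agent.H11.SC6

open Complex Filter Topology Pool.Agent.H11.Selberg Pool.Agent.H11.SC Pool.Agent.H39.Pol

theorem cstepp_eval_bound (R : Polynomial ℂ) : ∃ C : ℝ, 0 ≤ C ∧ ∀ u : ℂ,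
    ‖R.eval u‖ ≤ C * Real.exp (‖u‖ / 2) := by
  refine ⟨∑ i ∈ Finset.range (R.natDegree + 1), ‖R.coeff i‖ * ((i.factorial : ℝ) * 2 ^ i),
    Finset.sum_nonneg fun i _ => by positivity, fun u => ?_⟩
  rw [Polynomial.eval_eq_sum_range, Finset.sum_mul]
  refine (norm_sum_le _ _).trans (Finset.sum_le_sum fun i _ => ?_)
  rw [norm_mul, norm_pow, mul_assoc]
  refine mul_le_mul_of_nonneg_left ?_ (norm_nonneg _)
  have h1 := Real.pow_div_factorial_le_exp (‖u‖ / 2) (by positivity) i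
  have h2 : (0 : ℝ) < (i.factorial : ℝ) := by exact_mod_cast i.factorial_pos
  rw [div_le_iff₀ h2, div_pow, div_le_iff₀ (by positivity)] at h1
  calc ‖u‖ ^ i ≤ Real.exp (‖u‖ / 2) * (i.factorial : ℝ) * 2 ^ i := h1
    _ = (i.factorial : ℝ) * 2 ^ i * Real.exp (‖u‖ / 2) := by ring

theorem cstepp_log_bound {w : ℂ} (hw : w ≠ 0) (hw4 : ‖w‖ ≤ 4 * Real.pi) :
    Real.exp (‖log w‖ / 2) ≤ Real.exp (Real.pi / 2) * (4 * Real.pi) * ‖w‖ ^ (-(1 / 2) : ℝ) := by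
  have hπ := Real.pi_gt_three
  have hρ : 0 < ‖w‖ := norm_pos_iff.mpr hw
  have h1 : ‖log w‖ ≤ |Real.log ‖w‖| + Real.pi := by
    refine (Complex.norm_le_abs_re_add_abs_im _).trans ?_
    rw [Complex.log_re, Complex.log_im]
    linarith [Complex.abs_arg_le_pi w]
  have h2 : |Real.log ‖w‖| ≤ Real.log ((4 * Real.pi) ^ 2 / ‖w‖) := by
    rw [abs_le']
    constructor
    · apply Real.log_le_log hρ
      rw [le_div_iff₀ hρ]
      nlinarith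
    · rw [← Real.log_inv]
      apply Real.log_le_log (inv_pos.mpr hρ)
      rw [inv_eq_one_div]
      apply div_le_div_of_nonneg_right _ hρ.le
      nlinarith
  have h3 : Real.exp (Real.log ((4 * Real.pi) ^ 2 / ‖w‖) / 2) =
      (4 * Real.pi) * ‖w‖ ^ (-(1 / 2) : ℝ) := by
    have h4 : (0 : ℝ) < (4 * Real.pi) ^ 2 / ‖w‖ := by positivity
    have h5 : Real.log ((4 * Real.pi) ^ 2 / ‖w‖) / 2 =
        Real.log ((4 * Real.pi) ^ 2 / ‖w‖) * (1 / 2) := by ring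
    rw [h5, ← Real.rpow_def_of_pos h4, Real.div_rpow (by positivity) hρ.le,
      Real.rpow_neg hρ.le, ← Real.sqrt_eq_rpow, Real.sqrt_sq (by positivity), div_eq_mul_inv]
  calc Real.exp (‖log w‖ / 2)
      ≤ Real.exp (Real.pi / 2 + Real.log ((4 * Real.pi) ^ 2 / ‖w‖) / 2) := by
        apply Real.exp_le_exp.mpr
        linarith
    _ = _ := by rw [Real.exp_add, h3]; ring

theorem polar_bound (R : Polynomial ℂ) (θ : ℝ) : ∃ C : ℝ, 0 ≤ C ∧ ∀ ξ : ℂ, 0 < ξ.re → ξ.re ≤ 1 →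
    ‖ξ‖ ≤ 2 → ξ.re ≤ 100 * ‖ξ‖ ^ 2 →
    ‖(2 * (Real.pi : ℂ) * ξ) ^ (-(4 + θ * I) : ℂ) * R.eval (log (2 * (Real.pi : ℂ) * ξ))‖ ≤
      C * ξ.re ^ (-(13 / 4) : ℝ) := by
  obtain ⟨C1, hC1, hR⟩ := cstepp_eval_bound R
  have hπ := Real.pi_gt_three
  refine ⟨Real.exp (Real.pi * |θ|) * (C1 * (Real.exp (Real.pi / 2) * (4 * Real.pi))) *
    (100 : ℝ) ^ (9 / 4 : ℝ), by positivity, ?_⟩
  intro ξ h0 h1 h2 h3
  have hξ : ξ ≠ 0 := by
    rintro rfl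
    simp at h0
  have hξn : 0 < ‖ξ‖ := norm_pos_iff.mpr hξ
  set w : ℂ := 2 * (Real.pi : ℂ) * ξ with hw
  have hwn : ‖w‖ = 2 * Real.pi * ‖ξ‖ := by
    rw [hw, norm_mul, norm_mul, Complex.norm_real, Real.norm_of_nonneg Real.pi_pos.le]
    norm_num
  have hwpos : 0 < ‖w‖ := by rw [hwn]; positivity
  have hw0 : w ≠ 0 := norm_pos_iff.mp hwpos
  have hw4 : ‖w‖ ≤ 4 * Real.pi := by
    rw [hwn]
    nlinarith
  have e1 : ‖w ^ (-(4 + θ * I) : ℂ)‖ ≤ ‖w‖ ^ (-4 : ℝ) * Real.exp (Real.pi * |θ|) := by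
    rw [Complex.norm_cpow_of_ne_zero hw0]
    have hre : (-(4 + θ * I) : ℂ).re = -4 := by simp
    have him : (-(4 + θ * I) : ℂ).im = -θ := by simp
    rw [hre, him, div_eq_mul_inv, ← Real.exp_neg]
    refine mul_le_mul_of_nonneg_left (Real.exp_le_exp.mpr ?_) (by positivity)
    have h5 : -(arg w * -θ) = arg w * θ := by ring
    rw [h5]
    calc arg w * θ ≤ |arg w * θ| := le_abs_self _
      _ = |arg w| * |θ| := abs_mul _ _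
      _ ≤ Real.pi * |θ| := mul_le_mul_of_nonneg_right (Complex.abs_arg_le_pi w) (abs_nonneg _)
  have e2 : ‖R.eval (log w)‖ ≤
      C1 * (Real.exp (Real.pi / 2) * (4 * Real.pi) * ‖w‖ ^ (-(1 / 2) : ℝ)) :=
    (hR _).trans (mul_le_mul_of_nonneg_left (cstepp_log_bound hw0 hw4) hC1)
  have e3 : ‖w‖ ^ (-4 : ℝ) * ‖w‖ ^ (-(1 / 2) : ℝ) ≤ (100 : ℝ) ^ (9 / 4 : ℝ) *
      ξ.re ^ (-(13 / 4) : ℝ) := by
    rw [← Real.rpow_add hwpos]
    have h5 : (-4 + -(1 / 2) : ℝ) = 2 * (-(9 / 4)) := by norm_num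
    rw [h5, Real.rpow_mul hwpos.le]
    have h6 : ‖w‖ ^ (2 : ℝ) = ‖w‖ ^ 2 := by
      rw [← Real.rpow_natCast]; norm_num
    rw [h6]
    have h7 : ξ.re / 100 ≤ ‖w‖ ^ 2 := by
      have h8 : ‖ξ‖ ^ 2 ≤ ‖w‖ ^ 2 := by
        rw [hwn]
        have : ‖ξ‖ ≤ 2 * Real.pi * ‖ξ‖ := by nlinarith
        gcongr
      linarith
    have h9 : (‖w‖ ^ 2) ^ (-(9 / 4) : ℝ) ≤ (ξ.re / 100) ^ (-(9 / 4) : ℝ) :=
      Real.rpow_le_rpow_of_nonpos (by positivity) h7 (by norm_num)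
    have h10 : (ξ.re / 100) ^ (-(9 / 4) : ℝ) = (100 : ℝ) ^ (9 / 4 : ℝ) *
        ξ.re ^ (-(9 / 4) : ℝ) := by
      rw [Real.div_rpow h0.le (by norm_num), Real.rpow_neg (by norm_num : (0 : ℝ) ≤ 100)]
      rw [div_inv_eq_mul, mul_comm]
    rw [h10] at h9
    refine h9.trans (mul_le_mul_of_nonneg_left ?_ (by positivity))
    exact Real.rpow_le_rpow_of_exponent_ge h0 h1 (by norm_num)
  rw [norm_mul]
  calc ‖w ^ (-(4 + θ * I) : ℂ)‖ * ‖R.eval (log w)‖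
      ≤ (‖w‖ ^ (-4 : ℝ) * Real.exp (Real.pi * |θ|)) *
        (C1 * (Real.exp (Real.pi / 2) * (4 * Real.pi) * ‖w‖ ^ (-(1 / 2) : ℝ))) :=
        mul_le_mul e1 e2 (norm_nonneg _) (by positivity)
    _ = Real.exp (Real.pi * |θ|) * (C1 * (Real.exp (Real.pi / 2) * (4 * Real.pi))) *
        (‖w‖ ^ (-4 : ℝ) * ‖w‖ ^ (-(1 / 2) : ℝ)) := by ring
    _ ≤ Real.exp (Real.pi * |θ|) * (C1 * (Real.exp (Real.pi / 2) * (4 * Real.pi))) *
        ((100 : ℝ) ^ (9 / 4 : ℝ) * ξ.re ^ (-(13 / 4) : ℝ)) :=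
        mul_le_mul_of_nonneg_left e3 (by positivity)
    _ = _ := by ring

theorem cstepp_of_stepR {b : ℕ → ℂ} {sq θ : ℝ} {ω : ℂ} {R : Polynomial ℂ} {C C1 : ℝ}
    (hsq : 0 < sq) {z : ℂ} (hs : StepR b sq θ ω R C (-(I * z)))
    (hp : ‖(2 * (Real.pi : ℂ) * (-(I * z))) ^ (-(4 + θ * I) : ℂ) *
      R.eval (log (2 * (Real.pi : ℂ) * (-(I * z))))‖ ≤ C1 * (-(I * z)).re ^ (-(13 / 4) : ℝ)) :
    ‖ff b z - ω * JJ (sq ^ 2) z * ff (cj b) (-1 / (((sq ^ 2 : ℝ) : ℂ) * z))‖ ≤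
      (C + C1) * z.im ^ (-(13 / 4) : ℝ) := by
  have hre : (-(I * z)).re = z.im := by simp
  have e1 : ff b z = gs b 3 (-(I * z)) := rfl
  have e2 : JJ (sq ^ 2) z = (((sq : ℂ) * (-(I * z))) ^ 7)⁻¹ := by
    unfold JJ
    rw [Real.sqrt_sq hsq.le]
  have e3 : ff (cj b) (-1 / (((sq ^ 2 : ℝ) : ℂ) * z)) =
      gs (cj b) 3 (1 / (((sq ^ 2 : ℝ) : ℂ) * (-(I * z)))) := by
    unfold ff
    congr 1
    by_cases hz : z = 0
    · subst hz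
      simp
    · have h4 : ((sq ^ 2 : ℝ) : ℂ) ≠ 0 := by exact_mod_cast (pow_pos hsq 2).ne'
      have hI : I * I = -1 := I_mul_I
      field_simp
      linear_combination hI
  rw [e1, e2, e3]
  unfold StepR at hs
  rw [hre] at hs hp
  set A : ℂ := gs b 3 (-(I * z))
  set B : ℂ := ω * (((sq : ℂ) * (-(I * z))) ^ 7)⁻¹ *
    gs (cj b) 3 (1 / (((sq ^ 2 : ℝ) : ℂ) * (-(I * z))))
  set P : ℂ := (2 * (Real.pi : ℂ) * (-(I * z))) ^ (-(4 + θ * I) : ℂ) *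
      R.eval (log (2 * (Real.pi : ℂ) * (-(I * z))))
  have h5 : A - B = (A - (B + P)) + P := by ring
  rw [h5, add_mul]
  exact (norm_add_le _ _).trans (add_le_add hs hp)

theorem cstep_of_inv2 {b : ℕ → ℂ} {sq : ℝ} {M : ℕ} {θ : ℝ} {ωp ωm : ℂ} {Rp Rm : Polynomial ℂ}
    {C : ℝ} (h : Inv2 b sq M θ ωp ωm Rp Rm C) : CStep (sq ^ 2) b ωp ωm := by
  refine ⟨h.hp, h.hm, ?_⟩
  obtain ⟨C1, hC1, p1⟩ := polar_bound Rp θ
  obtain ⟨C2, hC2, p2⟩ := polar_bound Rm θ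
  obtain ⟨C3, hC3, p3⟩ := polar_bound (Rm.map (starRingEnd ℂ)) (-θ)
  obtain ⟨C4, hC4, p4⟩ := polar_bound (Rp.map (starRingEnd ℂ)) (-θ)
  refine ⟨C + (C1 + C2 + C3 + C4), ?_⟩
  intro z h1 h2 h3 h4
  have hre : (-(I * z)).re = z.im := by simp
  have him : (-(I * z)).im = -z.re := by simp
  have hn : ‖-(I * z)‖ = ‖z‖ := by simp
  have g1 : 0 < (-(I * z)).re := by rw [hre]; exact h1
  have g2 : (-(I * z)).re ≤ 1 := by rw [hre]; exact h2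
  have g3 : ‖-(I * z)‖ ≤ 2 := by rw [hn]; exact h3
  have g4 : (-(I * z)).re ≤ 100 * ‖-(I * z)‖ ^ 2 := by rw [hre, hn]; exact h4
  have hpow : 0 ≤ z.im ^ (-(13 / 4) : ℝ) := Real.rpow_nonneg h1.le _
  have k1 : 0 < ((starRingEnd ℂ) (-(I * z))).re := by rw [conj_re]; exact g1
  have k2 : ((starRingEnd ℂ) (-(I * z))).re ≤ 1 := by rw [conj_re]; exact g2
  have k3 : ‖(starRingEnd ℂ) (-(I * z))‖ ≤ 2 := by rw [norm_conj]; exact g3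
  have kim : ((starRingEnd ℂ) (-(I * z))).im = z.re := by rw [conj_im, him, neg_neg]
  refine ⟨fun hz => ?_, fun hz => ?_, fun hz => ?_, fun hz => ?_⟩
  · have hs := h.up (-(I * z)) g1 g2 g3 (by rw [him]; linarith)
    refine (cstepp_of_stepR h.sq0 hs (p1 _ g1 g2 g3 g4)).trans ?_
    apply mul_le_mul_of_nonneg_right _ hpow
    linarith
  · have hs := h.lo (-(I * z)) g1 g2 g3 (by rw [him]; linarith)
    refine (cstepp_of_stepR h.sq0 hs (p2 _ g1 g2 g3 g4)).trans ?_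
    apply mul_le_mul_of_nonneg_right _ hpow
    linarith
  · have hs0 := h.lo ((starRingEnd ℂ) (-(I * z))) k1 k2 k3 (by rw [kim]; exact hz)
    have hs : StepR (cj b) sq (-θ) ((starRingEnd ℂ) ωm) (Rm.map (starRingEnd ℂ)) C (-(I * z)) := by
      apply StepR.conj g1
      rw [cj_cj, neg_neg]
      exact hs0
    have := cstepp_of_stepR h.sq0 hs (p3 _ g1 g2 g3 g4)
    rw [cj_cj] at this
    refine this.trans ?_
    apply mul_le_mul_of_nonneg_right _ hpow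
    linarith
  · have hs0 := h.up ((starRingEnd ℂ) (-(I * z))) k1 k2 k3 (by rw [kim]; exact hz)
    have hs : StepR (cj b) sq (-θ) ((starRingEnd ℂ) ωp) (Rp.map (starRingEnd ℂ)) C (-(I * z)) := by
      apply StepR.conj g1
      rw [cj_cj, neg_neg]
      exact hs0
    have := cstepp_of_stepR h.sq0 hs (p4 _ g1 g2 g3 g4)
    rw [cj_cj] at this
    refine this.trans ?_
    apply mul_le_mul_of_nonneg_right _ hpow
    linarith

end Pool.Agent.H11.SC6
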