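import Mathlib
import Pool.Agent.H11.SC5.Eul
import Pool.Agent.H11.SC4.Two
import Pool.Agent.H39.Pol.CLB

/-!
# HALFREL: the exact relation at `1/2`, in the variable `ξ = -iz`

`TwoRel b c2`: `zero`: `hl.inv2 0`, `hl.one`; `sum`: `c2 k = 0` for `k ≥ 3` (finite support); `rel`: `twoc_rel`
(Pool/Agent/H11/SC4/TwoC.lean) with `hl.inv2`, `hl.mul`.  `two_rel` at `z = I ξ` (`Im z = Re ξ > 0`):
`gs b 3 (-(I (z + 1/2))) = -gs b 3 (-(I z)) - 2 ∑' k, c2 (k+1) 8^(k+1) gs b 3 (-(I (2^(k+1) z)))`,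
`-(I z) = ξ`, `-(I (z + 1/2)) = ξ - I/2`, `-(I (2^m z)) = 2^m ξ`; the series has the terms
`8 c2 1 gs b 3 (2ξ)` and `64 c2 2 gs b 3 (4ξ)` (`tsum_eq_sum` over `range 2`).  Finally `gs b 3 (ξ - I/2) =
gs b 3 (ξ + I/2)` (`gs_per` of `H39/Pol/CLB.lean`).
-/

set_option autoImplicit false

namespace Pool.Agent.H11.SC6

open Complex Filter Topology Pool.Agent.H11.Selberg Pool.Agent.H11.SC Pool.Agent.H39.Pol

/-- the exact relation at `1/2` -/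
def HRel (b : ℕ → ℂ) (c1 c2 : ℂ) : Prop :=
  ∀ ξ : ℂ, 0 < ξ.re → gs b 3 (ξ + ((1 / 2 : ℝ) : ℂ) * I) =
    -gs b 3 ξ - 16 * c1 * gs b 3 (2 * ξ) - 128 * c2 * gs b 3 (4 * ξ)

private theorem half_rel_two (b c2 c3 : ℕ → ℂ) (hl : Loc6 b c2 c3)
    (h3 : ∀ k : ℕ, 3 ≤ k → c2 k = 0) : TwoRel b c2 := by
  refine ⟨?_, ?_, ?_⟩
  · have h := hl.inv2 0
    simpa [hl.one] using h
  · refine summable_of_ne_finset_zero (s := Finset.range 3) (fun k hk => ?_)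
    rw [Finset.mem_range, not_lt] at hk
    rw [h3 k hk, norm_zero, zero_mul]
  · exact twoc_rel b c2 hl.inv2 hl.mul

theorem half_rel (b c2 c3 : ℕ → ℂ) (hl : Loc6 b c2 c3) (h3 : ∀ k : ℕ, 3 ≤ k → c2 k = 0)
    (ha : ∃ C : ℝ, ∀ n : ℕ, 1 ≤ n → ‖b n‖ ≤ C * (n : ℝ) ^ (1 : ℝ)) :
    HRel b (c2 1) (c2 2) := by
  intro ξ hξ
  have hT := half_rel_two b c2 c3 hl h3
  have hz : 0 < (I * ξ).im := by
    simpa using hξ
  have h := two_rel b c2 hT ha (I * ξ) hz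
  have hI : I * I = -1 := Complex.I_mul_I
  have e0 : -(I * (I * ξ)) = ξ := by
    linear_combination -ξ * hI
  have e1 : -(I * (I * ξ + 1 / 2)) = ξ - I / 2 := by
    linear_combination -ξ * hI
  have e2 : ∀ k : ℕ, -(I * (2 ^ (k + 1) * (I * ξ))) = 2 ^ (k + 1) * ξ := by
    intro k
    linear_combination -(2 ^ (k + 1) * ξ) * hI
  have e3 : ξ + ((1 / 2 : ℝ) : ℂ) * I = (ξ - I / 2) + I := by
    push_cast
    ring
  have hs : ∑' k : ℕ, c2 (k + 1) * 8 ^ (k + 1) * gs b 3 (-(I * (2 ^ (k + 1) * (I * ξ)))) =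
      8 * c2 1 * gs b 3 (2 * ξ) + 64 * c2 2 * gs b 3 (4 * ξ) := by
    rw [tsum_eq_sum (s := Finset.range 2) (fun k hk => by
      rw [Finset.mem_range, not_lt] at hk
      rw [h3 (k + 1) (by omega), zero_mul, zero_mul])]
    rw [Finset.sum_range_succ, Finset.sum_range_succ, Finset.sum_range_zero, e2, e2]
    norm_num
    ring
  rw [e3, gs_per, ← e1, h, hs, e0]
  ring

end Pool.Agent.H11.SC6
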