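import Mathlib
import Pool.Agent.H11.SC6.HalfRel
import Pool.Agent.H39.Pol.Inv2

/-!
# VHALF: the approximate reflection with centre `i/2`

`q = sq²`, `ω = ωp` if `β > 0`, `ω = ωm` if `β < 0`.  Let `ξ` be close to `iβ`, `Re ξ > 0` (so that `Im ξ` has the sign of
`β`, `Re ξ ≤ 1/8`, `‖ξ‖ ≤ |β| + 1/8 ≤ 3/8`, `‖ξ‖ ≥ |β|/2`).  For `m = 1, 2, 4`: `Re (mξ) ≤ 1`, `‖mξ‖ ≤ 2`, and `h.up`
or `h.lo` at `mξ` gives (`StepR`)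
`gs b 3 (mξ) = ω m^(-7) ((sq ξ)^7)⁻¹ gs (cj b) 3 (ζ/m) + P_m + O((Re ξ)^(-13/4))`, `ζ = 1/(q ξ)`,
with `‖P_m‖` bounded (`‖mξ‖ ≥ |β|/2`, `log` bounded), hence `≤ C (Re ξ)^(-13/4)` (`Re ξ ≤ 1`).
`hrel`: `gs b 3 (ξ + i/2) = -gs b 3 ξ - 16 c1 gs b 3 (2ξ) - 128 c2 gs b 3 (4ξ)`
`= ω ((sq ξ)^7)⁻¹ (-f*(ζ) - (c1/8) f*(ζ/2) - (c2/128) f*(ζ/4)) + O((Re ξ)^(-13/4))`, `f* = gs (cj b) 3`
(`16/2^7 = 1/8`, `128/4^7 = 1/128`).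
Conjugate relation (`hrel` and `gs_conj`, `gs_per`): `f*(w + i/2) = -f*(w) - 16 conj c1 f*(2w) - 128 conj c2 f*(4w)`.
* `D = 4`: with `w = ζ/4`, times `c2/128`: `c2 conj c2 = 1`, `c2 conj c1 = c1`:
  `(c2/128) f*(ζ/4 + i/2) = -(c2/128) f*(ζ/4) - (c1/8) f*(ζ/2) - f*(ζ)`.
* `D = 2`: `c2 = 0`, `w = ζ/2`, times `c1/8`: `2 c1 conj c1 = 1`:
  `(c1/8) f*(ζ/2 + i/2) = -(c1/8) f*(ζ/2) - f*(ζ)`.
And `κ ((√(D q) ξ)^7)⁻¹ = κ (√D)^(-7) ((sq ξ)^7)⁻¹`, `κ (√4)^(-7) = c2/128`, `κ (√2)^(-7) = √2 c1/(8 √2) = c1/8`;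
`f*(ζ/D + i/2) = conj (gs b 3 (conj ζ/D - i/2)) = conj (gs b 3 (1/(D q conj ξ) + i/2))`.
-/

set_option autoImplicit false

namespace Pool.Agent.H11.SC6

open Complex Filter Topology Pool.Agent.H11.Selberg Pool.Agent.H11.SC Pool.Agent.H39.Pol

/-- the two admissible types of the Euler factor at `2`; `D` is the index of the modulus, `κ` the
constant of the inversion at `1/2` -/
def HType (D : ℕ) (c1 c2 κ : ℂ) : Prop :=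
  (D = 4 ∧ κ = c2 ∧ ‖c2‖ = 1 ∧ c1 = c2 * (starRingEnd ℂ) c1) ∨
  (D = 2 ∧ c2 = 0 ∧ κ = (Real.sqrt 2 : ℝ) * c1 ∧ ‖c1‖ ^ 2 = 1 / 2)

theorem HType.norm {D : ℕ} {c1 c2 κ : ℂ} (h : HType D c1 c2 κ) : ‖κ‖ = 1 := by
  rcases h with ⟨-, h1, h2, -⟩ | ⟨-, -, h1, h2⟩
  · rw [h1, h2]
  · have h3 : ‖κ‖ ^ 2 = 1 := by
      rw [h1, norm_mul, mul_pow, h2, Complex.norm_real, Real.norm_eq_abs, sq_abs,
        Real.sq_sqrt (by norm_num)]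
      norm_num
    have h4 : 0 ≤ ‖κ‖ := norm_nonneg _
    nlinarith

private theorem vh_conj {b : ℕ → ℂ} {c1 c2 : ℂ} (hrel : HRel b c1 c2) (ζ : ℂ) (hζ : 0 < ζ.re) :
    (starRingEnd ℂ) (gs b 3 ((starRingEnd ℂ) ζ + ((1 / 2 : ℝ) : ℂ) * I)) =
      -gs (cj b) 3 ζ - 16 * (starRingEnd ℂ) c1 * gs (cj b) 3 (2 * ζ) -
        128 * (starRingEnd ℂ) c2 * gs (cj b) 3 (4 * ζ) := by
  rw [hrel _ (by simpa using hζ)]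
  simp only [map_sub, map_neg, map_mul, gs_conj, conj_conj, Complex.conj_ofNat]

private theorem vh_re {x : ℝ} (hx : 0 < x) {ξ : ℂ} (hξ : 0 < ξ.re) : 0 < (1 / ((x : ℂ) * ξ)).re := by
  rw [one_div, Complex.inv_re, re_ofReal_mul]
  have h0 : (x : ℂ) * ξ ≠ 0 := by
    refine mul_ne_zero (by exact_mod_cast hx.ne') ?_
    rintro rfl
    simp at hξ
  exact div_pos (mul_pos hx hξ) (normSq_pos.2 h0)

private theorem vh_alg {b : ℕ → ℂ} {sq : ℝ} (hsq : 0 < sq) {D : ℕ} {c1 c2 κ : ℂ}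
    (hT : HType D c1 c2 κ) (hrel : HRel b c1 c2) (ω ξ : ℂ) (hξ : 0 < ξ.re) :
    ω * κ * ((((Real.sqrt (D * sq ^ 2) : ℝ) : ℂ) * ξ) ^ 7)⁻¹ *
        (starRingEnd ℂ) (gs b 3 (1 / (((D * sq ^ 2 : ℝ) : ℂ) * (starRingEnd ℂ) ξ) +
          ((1 / 2 : ℝ) : ℂ) * I)) =
      ω * (((sq : ℂ) * ξ) ^ 7)⁻¹ * (-gs (cj b) 3 (1 / ((sq ^ 2 : ℝ) * ξ)) -
        c1 / 8 * gs (cj b) 3 (1 / ((sq ^ 2 : ℝ) * (2 * ξ))) -
        c2 / 128 * gs (cj b) 3 (1 / ((sq ^ 2 : ℝ) * (4 * ξ)))) := by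
  have hξ0 : ξ ≠ 0 := by
    rintro rfl
    simp at hξ
  have hsqc : (sq : ℂ) ≠ 0 := by exact_mod_cast hsq.ne'
  rcases hT with ⟨hD, hκ, h1, h2⟩ | ⟨hD, hc, hκ, h1⟩
  · rw [hD, hκ]
    have e1 : 1 / ((((4 : ℕ) * sq ^ 2 : ℝ) : ℂ) * (starRingEnd ℂ) ξ) =
        (starRingEnd ℂ) (1 / ((((4 : ℕ) * sq ^ 2 : ℝ) : ℂ) * ξ)) := by
      rw [map_div₀, map_one, map_mul, conj_ofReal]
    have hre : 0 < (1 / ((((4 : ℕ) * sq ^ 2 : ℝ) : ℂ) * ξ)).re := vh_re (by positivity) hξ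
    rw [e1, vh_conj hrel _ hre]
    have e4 : (1 / ((((4 : ℕ) * sq ^ 2 : ℝ) : ℂ) * ξ)) = 1 / ((sq ^ 2 : ℝ) * (4 * ξ)) := by
      push_cast
      congr 1
      ring
    have e2 : 2 * (1 / (((sq ^ 2 : ℝ) : ℂ) * (4 * ξ))) = 1 / ((sq ^ 2 : ℝ) * (2 * ξ)) := by
      push_cast
      field_simp
      norm_num
    have e3 : 4 * (1 / (((sq ^ 2 : ℝ) : ℂ) * (4 * ξ))) = 1 / ((sq ^ 2 : ℝ) * ξ) := by
      push_cast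
      field_simp
    rw [e4, e2, e3]
    have e5 : Real.sqrt ((4 : ℕ) * sq ^ 2) = 2 * sq := by
      have : ((4 : ℕ) * sq ^ 2 : ℝ) = (2 * sq) ^ 2 := by push_cast; ring
      rw [this, Real.sqrt_sq (by positivity)]
    rw [e5]
    have e6 : ((((2 * sq : ℝ) : ℂ) * ξ) ^ 7)⁻¹ = (((sq : ℂ) * ξ) ^ 7)⁻¹ / 128 := by
      push_cast
      rw [show (2 * (sq : ℂ) * ξ) = 2 * ((sq : ℂ) * ξ) by ring, mul_pow, mul_inv]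
      norm_num
      ring
    rw [e6]
    have hcc : c2 * (starRingEnd ℂ) c2 = 1 := by
      rw [mul_conj, normSq_eq_norm_sq, h1]
      norm_num
    linear_combination (ω * (((sq : ℂ) * ξ) ^ 7)⁻¹ / 8 *
      gs (cj b) 3 (1 / ((sq ^ 2 : ℝ) * (2 * ξ)))) * h2 -
      (ω * (((sq : ℂ) * ξ) ^ 7)⁻¹ * gs (cj b) 3 (1 / ((sq ^ 2 : ℝ) * ξ))) * hcc
  · rw [hD, hκ, hc]
    have e1 : 1 / ((((2 : ℕ) * sq ^ 2 : ℝ) : ℂ) * (starRingEnd ℂ) ξ) =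
        (starRingEnd ℂ) (1 / ((((2 : ℕ) * sq ^ 2 : ℝ) : ℂ) * ξ)) := by
      rw [map_div₀, map_one, map_mul, conj_ofReal]
    have hre : 0 < (1 / ((((2 : ℕ) * sq ^ 2 : ℝ) : ℂ) * ξ)).re := vh_re (by positivity) hξ
    rw [e1, vh_conj hrel _ hre, hc]
    have e4 : (1 / ((((2 : ℕ) * sq ^ 2 : ℝ) : ℂ) * ξ)) = 1 / ((sq ^ 2 : ℝ) * (2 * ξ)) := by
      push_cast
      congr 1
      ring
    have e2 : 2 * (1 / (((sq ^ 2 : ℝ) : ℂ) * (2 * ξ))) = 1 / ((sq ^ 2 : ℝ) * ξ) := by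
      push_cast
      field_simp
    rw [e4, e2]
    have e5 : Real.sqrt ((2 : ℕ) * sq ^ 2) = Real.sqrt 2 * sq := by
      rw [Real.sqrt_mul (by norm_num), Real.sqrt_sq hsq.le]
      norm_num
    rw [e5]
    have hs2 : ((Real.sqrt 2 : ℝ) : ℂ) ^ 2 = 2 := by
      rw [← ofReal_pow, Real.sq_sqrt (by norm_num)]
      norm_num
    have hs0 : ((Real.sqrt 2 : ℝ) : ℂ) ≠ 0 := by
      intro h0
      rw [h0] at hs2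
      norm_num at hs2
    have e6 : ((Real.sqrt 2 : ℝ) : ℂ) * ((((Real.sqrt 2 * sq : ℝ) : ℂ) * ξ) ^ 7)⁻¹ =
        (((sq : ℂ) * ξ) ^ 7)⁻¹ / 8 := by
      rw [ofReal_mul, mul_assoc, mul_pow, mul_inv, ← mul_assoc]
      have e7 : ((Real.sqrt 2 : ℝ) : ℂ) * (((Real.sqrt 2 : ℝ) : ℂ) ^ 7)⁻¹ = 1 / 8 := by
        rw [show (((Real.sqrt 2 : ℝ) : ℂ) ^ 7) =
          ((Real.sqrt 2 : ℝ) : ℂ) * (((Real.sqrt 2 : ℝ) : ℂ) ^ 2) ^ 3 by ring, hs2, mul_inv,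
          ← mul_assoc, mul_inv_cancel₀ hs0]
        norm_num
      rw [e7]
      ring
    have hcc : c1 * (starRingEnd ℂ) c1 = 1 / 2 := by
      rw [mul_conj, normSq_eq_norm_sq, h1]
      norm_num
    simp only [map_zero]
    linear_combination (ω * c1 * (-gs (cj b) 3 (1 / ((sq ^ 2 : ℝ) * (2 * ξ))) -
      16 * (starRingEnd ℂ) c1 * gs (cj b) 3 (1 / ((sq ^ 2 : ℝ) * ξ)))) * e6 -
      (2 * ω * (((sq : ℂ) * ξ) ^ 7)⁻¹ * gs (cj b) 3 (1 / ((sq ^ 2 : ℝ) * ξ))) * hcc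

/-- the polar part is continuous at `ix`, `x ≠ 0` -/
private theorem vh_polar (θ : ℝ) (Rr : Polynomial ℂ) (x : ℝ) (hx : x ≠ 0) :
    ContinuousAt (fun ξ : ℂ => (2 * (Real.pi : ℂ) * ξ) ^ (-(4 + θ * I) : ℂ) *
      Rr.eval (log (2 * (Real.pi : ℂ) * ξ))) ((x : ℂ) * I) := by
  have h1 : (2 * (Real.pi : ℂ) * ((x : ℂ) * I)) ∈ slitPlane := by
    right
    have e : (2 * (Real.pi : ℂ) * ((x : ℂ) * I)) = ((2 * Real.pi * x : ℝ) : ℂ) * I := by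
      push_cast
      ring
    rw [e]
    simp [Real.pi_ne_zero, hx]
  have h2 : ContinuousAt (fun ξ : ℂ => 2 * (Real.pi : ℂ) * ξ) ((x : ℂ) * I) := by fun_prop
  refine ContinuousAt.mul ?_ ?_
  · exact h2.cpow continuousAt_const h1
  · have h3 : ContinuousAt (fun ξ : ℂ => log (2 * (Real.pi : ℂ) * ξ)) ((x : ℂ) * I) := h2.clog h1
    exact ContinuousAt.comp (g := fun z : ℂ => Rr.eval z) (Polynomial.continuous Rr).continuousAt h3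

/-- the inversion at `mξ` without polar part -/
private theorem vh_step {b : ℕ → ℂ} {sq θ : ℝ} {ω : ℂ} {Rr : Polynomial ℂ} {C : ℝ} (hC : 0 ≤ C)
    (β : ℝ) (hβ : β ≠ 0) (m : ℝ) (hm : 1 ≤ m)
    (hstep : ∀ᶠ ξ in 𝓝 ((β : ℂ) * I), 0 < ξ.re → StepR b sq θ ω Rr C ((m : ℂ) * ξ)) :
    ∃ K : ℝ, 0 ≤ K ∧ ∀ᶠ ξ in 𝓝 ((β : ℂ) * I), 0 < ξ.re →
      ‖gs b 3 ((m : ℂ) * ξ) - ω * (((sq : ℂ) * ((m : ℂ) * ξ)) ^ 7)⁻¹ *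
        gs (cj b) 3 (1 / ((sq ^ 2 : ℝ) * ((m : ℂ) * ξ)))‖ ≤ K * ξ.re ^ (-(13 / 4) : ℝ) := by
  have hm0 : (0 : ℝ) < m := by linarith
  have h1 := vh_polar θ Rr (m * β) (mul_ne_zero hm0.ne' hβ)
  set P : ℂ → ℂ := fun ξ => (2 * (Real.pi : ℂ) * ξ) ^ (-(4 + θ * I) : ℂ) *
      Rr.eval (log (2 * (Real.pi : ℂ) * ξ)) with hP
  have h2 : ContinuousAt (fun ξ : ℂ => P ((m : ℂ) * ξ)) ((β : ℂ) * I) := by
    have h3 : ContinuousAt (fun ξ : ℂ => (m : ℂ) * ξ) ((β : ℂ) * I) := by fun_prop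
    refine ContinuousAt.comp (g := P) ?_ h3
    have e : (m : ℂ) * ((β : ℂ) * I) = ((m * β : ℝ) : ℂ) * I := by push_cast; ring
    rw [e]
    exact h1
  set K0 : ℝ := ‖P ((m : ℂ) * ((β : ℂ) * I))‖ + 1 with hK0
  have h3 : ∀ᶠ ξ in 𝓝 ((β : ℂ) * I), ‖P ((m : ℂ) * ξ)‖ < K0 :=
    h2.norm.eventually (gt_mem_nhds (lt_add_one _))
  have h4 : ∀ᶠ ξ : ℂ in 𝓝 ((β : ℂ) * I), ξ.re < 1 := by
    refine (isOpen_lt Complex.continuous_re continuous_const).mem_nhds ?_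
    simp
  have hK00 : 0 ≤ K0 := by positivity
  refine ⟨K0 + C, by positivity, ?_⟩
  filter_upwards [hstep, h3, h4] with ξ h5 h6 h7 hre
  have h8 := h5 hre
  unfold StepR at h8
  set A : ℂ := gs b 3 ((m : ℂ) * ξ) - ω * (((sq : ℂ) * ((m : ℂ) * ξ)) ^ 7)⁻¹ *
        gs (cj b) 3 (1 / ((sq ^ 2 : ℝ) * ((m : ℂ) * ξ))) with hA
  have e1 : A = (gs b 3 ((m : ℂ) * ξ) - (ω * (((sq : ℂ) * ((m : ℂ) * ξ)) ^ 7)⁻¹ *
        gs (cj b) 3 (1 / ((sq ^ 2 : ℝ) * ((m : ℂ) * ξ))) + P ((m : ℂ) * ξ))) +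
          P ((m : ℂ) * ξ) := by
    rw [hA]
    ring
  have h9 : ‖A‖ ≤ C * ((m : ℂ) * ξ).re ^ (-(13 / 4) : ℝ) + K0 := by
    rw [e1]
    refine (norm_add_le _ _).trans ?_
    exact add_le_add h8 h6.le
  have h10 : ((m : ℂ) * ξ).re ^ (-(13 / 4) : ℝ) ≤ ξ.re ^ (-(13 / 4) : ℝ) := by
    rw [re_ofReal_mul]
    refine Real.rpow_le_rpow_of_nonpos hre ?_ (by norm_num)
    nlinarith
  have h11 : (1 : ℝ) ≤ ξ.re ^ (-(13 / 4) : ℝ) :=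
    Real.one_le_rpow_of_pos_of_le_one_of_nonpos hre h7.le (by norm_num)
  calc ‖A‖ ≤ C * ((m : ℂ) * ξ).re ^ (-(13 / 4) : ℝ) + K0 := h9
    _ ≤ C * ξ.re ^ (-(13 / 4) : ℝ) + K0 * ξ.re ^ (-(13 / 4) : ℝ) := by
      refine add_le_add (mul_le_mul_of_nonneg_left h10 hC) ?_
      exact le_mul_of_one_le_right hK00 h11
    _ = _ := by ring

private theorem vh_core {b : ℕ → ℂ} {sq θ : ℝ} {ω : ℂ} {Rr : Polynomial ℂ} {C : ℝ} (hC : 0 ≤ C)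
    (hsq : 0 < sq) (D : ℕ) (c1 c2 κ : ℂ) (hT : HType D c1 c2 κ)
    (hrel : HRel b c1 c2) (β : ℝ) (hβ : β ≠ 0)
    (hstep : ∀ᶠ ξ in 𝓝 ((β : ℂ) * I), ∀ m : ℝ, 1 ≤ m → m ≤ 4 → 0 < ξ.re →
      StepR b sq θ ω Rr C ((m : ℂ) * ξ)) :
    ∃ C1 : ℝ, 0 ≤ C1 ∧ ∀ᶠ ξ in 𝓝 ((β : ℂ) * I), 0 < ξ.re →
      ‖gs b 3 (ξ + ((1 / 2 : ℝ) : ℂ) * I) - ω * κ *
        ((((Real.sqrt (D * sq ^ 2) : ℝ) : ℂ) * ξ) ^ 7)⁻¹ *
        (starRingEnd ℂ) (gs b 3 (1 / (((D * sq ^ 2 : ℝ) : ℂ) * (starRingEnd ℂ) ξ) +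
          ((1 / 2 : ℝ) : ℂ) * I))‖ ≤ C1 * ξ.re ^ (-(13 / 4) : ℝ) := by
  obtain ⟨K1, hK1, h1⟩ := vh_step (b := b) (sq := sq) (θ := θ) (ω := ω) (Rr := Rr) hC β hβ 1 le_rfl
    (by filter_upwards [hstep] with ξ h h0 using h 1 le_rfl (by norm_num) h0)
  obtain ⟨K2, hK2, h2⟩ := vh_step (b := b) (sq := sq) (θ := θ) (ω := ω) (Rr := Rr) hC β hβ 2
    (by norm_num) (by filter_upwards [hstep] with ξ h h0 using h 2 (by norm_num) (by norm_num) h0)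
  obtain ⟨K4, hK4, h4⟩ := vh_step (b := b) (sq := sq) (θ := θ) (ω := ω) (Rr := Rr) hC β hβ 4
    (by norm_num) (by filter_upwards [hstep] with ξ h h0 using h 4 (by norm_num) (by norm_num) h0)
  refine ⟨K1 + 16 * ‖c1‖ * K2 + 128 * ‖c2‖ * K4, by positivity, ?_⟩
  filter_upwards [h1, h2, h4] with ξ g1 g2 g4 hre
  have hξ0 : ξ ≠ 0 := by
    rintro rfl
    simp at hre
  have hsqc : (sq : ℂ) ≠ 0 := by exact_mod_cast hsq.ne'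
  specialize g1 hre
  specialize g2 hre
  specialize g4 hre
  rw [vh_alg hsq hT hrel ω ξ hre, hrel ξ hre]
  have e1 : ((1 : ℝ) : ℂ) * ξ = ξ := by simp
  have e2 : ((2 : ℝ) : ℂ) * ξ = 2 * ξ := by norm_num
  have e3 : ((4 : ℝ) : ℂ) * ξ = 4 * ξ := by norm_num
  rw [e1] at g1
  rw [e2] at g2
  rw [e3] at g4
  have q2 : (((sq : ℂ) * (2 * ξ)) ^ 7)⁻¹ = (((sq : ℂ) * ξ) ^ 7)⁻¹ / 128 := by
    rw [show ((sq : ℂ) * (2 * ξ)) = 2 * ((sq : ℂ) * ξ) by ring, mul_pow, mul_inv]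
    norm_num
    ring
  have q4 : (((sq : ℂ) * (4 * ξ)) ^ 7)⁻¹ = (((sq : ℂ) * ξ) ^ 7)⁻¹ / 16384 := by
    rw [show ((sq : ℂ) * (4 * ξ)) = 4 * ((sq : ℂ) * ξ) by ring, mul_pow, mul_inv]
    norm_num
    ring
  rw [q2] at g2
  rw [q4] at g4
  set Y : ℂ := (((sq : ℂ) * ξ) ^ 7)⁻¹ with hY
  set A1 : ℂ := gs (cj b) 3 (1 / ((sq ^ 2 : ℝ) * ξ)) with hA1
  set A2 : ℂ := gs (cj b) 3 (1 / ((sq ^ 2 : ℝ) * (2 * ξ))) with hA2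
  set A4 : ℂ := gs (cj b) 3 (1 / ((sq ^ 2 : ℝ) * (4 * ξ))) with hA4
  have key : (-gs b 3 ξ - 16 * c1 * gs b 3 (2 * ξ) - 128 * c2 * gs b 3 (4 * ξ)) -
      ω * Y * (-A1 - c1 / 8 * A2 - c2 / 128 * A4) =
      -(gs b 3 ξ - ω * Y * A1) - 16 * c1 * (gs b 3 (2 * ξ) - ω * (Y / 128) * A2) -
        128 * c2 * (gs b 3 (4 * ξ) - ω * (Y / 16384) * A4) := by
    ring
  rw [key]
  refine (norm_sub_le _ _).trans ?_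
  refine (add_le_add_left (norm_sub_le _ _) _).trans ?_
  rw [norm_neg, norm_mul, norm_mul, norm_mul, norm_mul]
  have n16 : ‖(16 : ℂ)‖ = 16 := by norm_num
  have n128 : ‖(128 : ℂ)‖ = 128 := by norm_num
  rw [n16, n128]
  have g2' := mul_le_mul_of_nonneg_left g2 (by positivity : 0 ≤ 16 * ‖c1‖)
  have g4' := mul_le_mul_of_nonneg_left g4 (by positivity : 0 ≤ 128 * ‖c2‖)
  calc _ ≤ K1 * ξ.re ^ (-(13 / 4) : ℝ) + 16 * ‖c1‖ * (K2 * ξ.re ^ (-(13 / 4) : ℝ)) +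
        128 * ‖c2‖ * (K4 * ξ.re ^ (-(13 / 4) : ℝ)) := add_le_add (add_le_add g1 g2') g4'
    _ = _ := by ring

theorem vhalf {b : ℕ → ℂ} {sq : ℝ} {M : ℕ} {θ : ℝ} {ωp ωm : ℂ} {Rp Rm : Polynomial ℂ} {C : ℝ}
    (h : Inv2 b sq M θ ωp ωm Rp Rm C) (D : ℕ) (c1 c2 κ : ℂ) (hT : HType D c1 c2 κ)
    (hrel : HRel b c1 c2) (β : ℝ) (hβ : β ≠ 0) (hβ1 : |β| ≤ 1 / 4) :
    ∃ C1 : ℝ, 0 ≤ C1 ∧ ∀ᶠ ξ in 𝓝 ((β : ℂ) * I), 0 < ξ.re →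
      ‖gs b 3 (ξ + ((1 / 2 : ℝ) : ℂ) * I) - (if 0 < β then ωp else ωm) * κ *
        ((((Real.sqrt (D * sq ^ 2) : ℝ) : ℂ) * ξ) ^ 7)⁻¹ *
        (starRingEnd ℂ) (gs b 3 (1 / (((D * sq ^ 2 : ℝ) : ℂ) * (starRingEnd ℂ) ξ) +
          ((1 / 2 : ℝ) : ℂ) * I))‖ ≤ C1 * ξ.re ^ (-(13 / 4) : ℝ) := by
  have hn : ∀ᶠ ξ : ℂ in 𝓝 ((β : ℂ) * I), ‖ξ‖ < 1 / 2 := by
    refine (isOpen_lt continuous_norm continuous_const).mem_nhds ?_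
    show ‖(β : ℂ) * I‖ < 1 / 2
    rw [norm_mul, norm_I, mul_one, Complex.norm_real, Real.norm_eq_abs]
    linarith
  have hr : ∀ᶠ ξ : ℂ in 𝓝 ((β : ℂ) * I), ξ.re < 1 / 8 := by
    refine (isOpen_lt Complex.continuous_re continuous_const).mem_nhds ?_
    simp
  have hnm : ∀ m : ℝ, 1 ≤ m → m ≤ 4 → ∀ ξ : ℂ, ‖ξ‖ < 1 / 2 → ‖(m : ℂ) * ξ‖ ≤ 2 := by
    intro m h1 h2 ξ h3
    rw [norm_mul, Complex.norm_real, Real.norm_of_nonneg (by linarith)]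
    have := norm_nonneg ξ
    nlinarith
  by_cases hb : 0 < β
  · have hi : ∀ᶠ ξ : ℂ in 𝓝 ((β : ℂ) * I), 0 < ξ.im := by
      refine (isOpen_lt continuous_const Complex.continuous_im).mem_nhds ?_
      simpa using hb
    rw [if_pos hb]
    refine vh_core (θ := θ) (ω := ωp) (Rr := Rp) h.C0 h.sq0 D c1 c2 κ hT hrel β hβ ?_
    filter_upwards [hn, hr, hi] with ξ h1 h2 h3 m h4 h5 h6
    refine h.up _ ?_ ?_ (hnm m h4 h5 ξ h1) ?_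
    · rw [re_ofReal_mul]
      exact mul_pos (by linarith) h6
    · rw [re_ofReal_mul]
      nlinarith
    · rw [im_ofReal_mul]
      exact mul_nonneg (by linarith) h3.le
  · have hb' : β < 0 := lt_of_le_of_ne (not_lt.1 hb) hβ
    have hi : ∀ᶠ ξ : ℂ in 𝓝 ((β : ℂ) * I), ξ.im < 0 := by
      refine (isOpen_lt Complex.continuous_im continuous_const).mem_nhds ?_
      simpa using hb'
    rw [if_neg hb]
    refine vh_core (θ := θ) (ω := ωm) (Rr := Rm) h.C0 h.sq0 D c1 c2 κ hT hrel β hβ ?_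
    filter_upwards [hn, hr, hi] with ξ h1 h2 h3 m h4 h5 h6
    refine h.lo _ ?_ ?_ (hnm m h4 h5 ξ h1) ?_
    · rw [re_ofReal_mul]
      exact mul_pos (by linarith) h6
    · rw [re_ofReal_mul]
      nlinarith
    · rw [im_ofReal_mul]
      exact mul_nonpos_of_nonneg_of_nonpos (by linarith) h3.le

end Pool.Agent.H11.SC6
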