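import Mathlib
import Pool.Agent.H11.SC6.Refl
import Pool.Agent.H11.SC6.VHalf

/-!
# VCUSP: the inversion with centre `1/2` at the cusps
-/

set_option autoImplicit false

namespace Pool.Agent.H11.SC6

open Complex Filter Topology Pool.Agent.H11.Selberg Pool.Agent.H11.SC Pool.Agent.H39.Pol

/-- translation of the behaviour at a cusp -/
theorem CL.shift {f : ℂ → ℂ} {M : ℕ} {κ : ℂ} {β s : ℝ} {v : ℂ} (h : CL f M κ (s + β) v) :
    CL (fun ξ => f (ξ + (s : ℂ) * I)) M κ β v := by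
  intro R hR
  have h1 := h R hR
  have h2 : Tendsto (fun ξ : ℂ => ξ + (s : ℂ) * I) (nhdsWithin ((β : ℂ) * I) (cone R β))
      (nhdsWithin (((s + β : ℝ) : ℂ) * I) (cone R (s + β))) := by
    refine tendsto_nhdsWithin_iff.2 ⟨?_, ?_⟩
    · have h3 : Continuous (fun ξ : ℂ => ξ + (s : ℂ) * I) := by fun_prop
      have h4 := h3.tendsto ((β : ℂ) * I)
      have e : (β : ℂ) * I + (s : ℂ) * I = ((s + β : ℝ) : ℂ) * I := by push_cast; ring
      rw [e] at h4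
      exact h4.mono_left nhdsWithin_le_nhds
    · filter_upwards [self_mem_nhdsWithin] with ξ hξ
      obtain ⟨h3, h4⟩ := hξ
      refine ⟨by simpa using h3, ?_⟩
      have e : (ξ + (s : ℂ) * I).im - (s + β) = ξ.im - β := by
        simp
        ring
      have e2 : (ξ + (s : ℂ) * I).re = ξ.re := by simp
      rw [e, e2]
      exact h4
  have h3 := h1.comp h2
  refine h3.congr (fun ξ => ?_)
  have e2 : ξ + (s : ℂ) * I - ((s + β : ℝ) : ℂ) * I = ξ - (β : ℂ) * I := by push_cast; ring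
  show f (ξ + (s : ℂ) * I) * (ξ + (s : ℂ) * I - ((s + β : ℝ) : ℂ) * I) ^ κ /
    (((Real.log (1 / ‖ξ + (s : ℂ) * I - ((s + β : ℝ) : ℂ) * I‖)) ^ M : ℝ) : ℂ) = _
  rw [e2]

theorem CL.unshift {f : ℂ → ℂ} {M : ℕ} {κ : ℂ} {β s : ℝ} {v : ℂ}
    (h : CL (fun ξ => f (ξ + (s : ℂ) * I)) M κ β v) : CL f M κ (s + β) v := by
  have h1 : CL (fun ξ => f (ξ + (s : ℂ) * I)) M κ (-s + (s + β)) v := by
    have e : -s + (s + β) = β := by ring
    rw [e]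
    exact h
  have h2 := CL.shift (s := -s) h1
  have e : (fun ξ : ℂ => (fun ξ => f (ξ + (s : ℂ) * I)) (ξ + ((-s : ℝ) : ℂ) * I)) = f := by
    funext ξ
    show f (ξ + ((-s : ℝ) : ℂ) * I + (s : ℂ) * I) = f ξ
    congr 1
    push_cast
    ring
  rw [e] at h2
  exact h2

theorem v_cusp {b : ℕ → ℂ} {sq : ℝ} {M : ℕ} {θ : ℝ} {ωp ωm : ℂ} {Rp Rm : Polynomial ℂ} {C : ℝ}
    (h : Inv2 b sq M θ ωp ωm Rp Rm C) (D : ℕ) (c1 c2 κ : ℂ) (hT : HType D c1 c2 κ)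
    (hrel : HRel b c1 c2) (β τ : ℝ) (v : ℂ) (hβ : β ≠ 0) (hβ1 : |β| ≤ 1 / 4)
    (hv : CL (gs b 3) M (4 + τ * I) (1 / 2 + 1 / (D * sq ^ 2 * β)) v) :
    CL (gs b 3) M (4 - τ * I) (1 / 2 + β) ((if 0 < β then I * ωp else -(I * ωm)) * κ *
      ((Real.sqrt (D * sq ^ 2) * |β| : ℝ) : ℂ) *
      ((D * sq ^ 2 * β ^ 2 : ℝ) : ℂ) ^ (-(τ * I)) * (starRingEnd ℂ) v) := by
  have hD : 0 < (D : ℝ) := by
    rcases hT with ⟨h1, -⟩ | ⟨h1, -⟩ <;> rw [h1] <;> norm_num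
  have hk : 0 < (D : ℝ) * sq ^ 2 := mul_pos hD (pow_pos h.sq0 2)
  obtain ⟨C1, hC1, h1⟩ := vhalf h D c1 c2 κ hT hrel β hβ hβ1
  have h2 := CL.shift (s := 1 / 2) (β := 1 / (D * sq ^ 2 * β)) (by exact_mod_cast hv)
  have h3 := refl_cusp (fun ξ => gs b 3 (ξ + ((1 / 2 : ℝ) : ℂ) * I)) (D * sq ^ 2) hk M
    ((if 0 < β then ωp else ωm) * κ) β τ C1 v hC1 hβ (by
      filter_upwards [h1] with ξ hξ h0
      exact hξ h0) h2
  have h4 := CL.unshift h3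
  convert h4 using 1
  split_ifs with hb
  · rw [abs_of_pos hb]
    ring
  · rw [abs_of_nonpos (not_lt.1 hb)]
    push_cast
    ring

end Pool.Agent.H11.SC6
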