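import Mathlib
import Pool.Agent.H11.SC6.VCusp
import Pool.Agent.H39.Pol.Rules

/-!
# DATV: the data at the cusps with the inversion at `1/2`
-/

set_option autoImplicit false

namespace Pool.Agent.H11.SC6

open Complex Filter Topology Pool.Agent.H11.Selberg Pool.Agent.H11.SC Pool.Agent.H39.Pol

/-- `Dat` together with the inversion with centre `1/2` and modulus `D q` -/
structure DatV (b : ℕ → ℂ) (q M : ℕ) (θ : ℝ) (ρ ηp ηm : ℂ) (D : ℕ) (κ : ℂ) : Prop where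
  dat : Dat b q M θ ρ ηp ηm
  kn : ‖κ‖ = 1
  V : ∀ (β τ : ℝ) (v : ℂ), β ≠ 0 → |β| ≤ 1 / 4 →
    CL (gs b 3) M (4 + τ * I) (1 / 2 + 1 / (D * q * β)) v →
    CL (gs b 3) M (4 - τ * I) (1 / 2 + β) ((if 0 < β then ηp else ηm) * κ *
      ((Real.sqrt (D * q) * |β| : ℝ) : ℂ) * ((D * q * β ^ 2 : ℝ) : ℂ) ^ (-(τ * I)) *
      (starRingEnd ℂ) v)

theorem datV_of {b : ℕ → ℂ} {sq : ℝ} {M : ℕ} {θ : ℝ} {ωp ωm : ℂ} {Rp Rm : Polynomial ℂ} {C : ℝ}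
    (h : Inv2 b sq M θ ωp ωm Rp Rm C) (q : ℕ) (hq4 : q ≠ 4) (hsq : sq ^ 2 = q) (one : b 1 = 1)
    (mul : ∀ m n : ℕ, Nat.Coprime m n → b (m * n) = b m * b n)
    (loc : ∀ p : ℕ, p.Prime → ∀ X : ℂ, ‖X‖ ≤ (p : ℝ) ^ (-(1 / 2) : ℝ) →
      ∑' k : ℕ, b (p ^ k) * X ^ k ≠ 0)
    (two : ∃ c : ℕ → ℂ, TwoRel b c) (D : ℕ) (c1 c2 κ : ℂ) (hT : HType D c1 c2 κ)
    (hrel : HRel b c1 c2) : ∃ ρ : ℂ, DatV b q M θ ρ (I * ωp) (-(I * ωm)) D κ := by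
  have hs : sq = Real.sqrt q := by
    rw [← hsq, Real.sqrt_sq h.sq0.le]
  obtain ⟨ρ, hρ, hz⟩ := zero_cusp h
  refine ⟨ρ, ⟨⟨one, mul, h.ram, loc, two, hρ, ?_, ?_, hz, ?_, fun h4 => absurd h4 hq4⟩,
    hT.norm, ?_⟩⟩
  · rw [norm_mul, h.hp, norm_I, mul_one]
  · rw [norm_neg, norm_mul, h.hm, norm_I, mul_one]
  · intro β τ v hβ hβ1 hv
    rw [← hsq] at hv ⊢
    have h1 := w_cusp h β τ v hβ hβ1 hv
    rw [Real.sqrt_sq h.sq0.le]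
    exact h1
  · intro β τ v hβ hβ1 hv
    rw [← hsq] at hv ⊢
    exact v_cusp h D c1 c2 κ hT hrel β τ v hβ hβ1 hv

end Pool.Agent.H11.SC6
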