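import Mathlib
import Pool.Agent.H11.SC6.DatV

/-!
# VRULES: the inversion at `1/2` for the two types of values, `q = 2m + 1`, modulus `4q`

Adapt `rule1`, `rule2` of `Pool/Agent/H39/Pol/Rules.lean` (same computation with `4q` in place of `q`).
`vrule2`: `d = 2j - c`, `β = j/c - 1/2 = d/(2c)`, `1/2 + 1/(4qβ) = 1/2 + c/(2q d) = (q d + c)/(2 q d)
= (q j - m c)/(q d)` (`q d + c = 2 q j - (q-1) c = 2 (q j - m c)`), and `(q j - m c)/(q d) =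
(sign d (q j - m c))/(q |d|)`.  `E.V` with `τ = -θ`: the value at `j/c = 1/2 + β` is
`η κ (2√q |β|) (4qβ²)^(iθ) conj v`, `v = conj ρ x (√q/(q|d|)) ((q|d|)²/q)^(iθ)`; `2√q|β| = √q|d|/c`,
`4qβ² = q d²/c²`, so it is `η κ conj x ρ c^(-1) (c²)^(-iθ) = ρ (η κ conj x) c^(-(1+2iθ))`.
`vrule1`: `d = 2j - q c'`, `β = d/(2 q c')`, `1/2 + 1/(4qβ) = 1/2 + c'/(2d) = (j - m c')/d`
(`d + c' = 2j - (q-1)c' = 2 (j - m c')`).  `E.V` with `τ = θ`: `η κ (2√q|β|) (4qβ²)^(-iθ) conj v`,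
`v = ρ x |d|^(-(1+2iθ))`, `2√q|β| = |d|/(√q c')`, `4qβ² = d²/(q c'²)`:
`η κ conj x conj ρ (√q/(q c')) ((q c')²/q)^(iθ)`.  (`√(4q) = 2√q`.)
-/

set_option autoImplicit false

namespace Pool.Agent.H11.SC6

open Complex Filter Topology Pool.Agent.H11.Selberg Pool.Agent.H11.SC Pool.Agent.H39.Pol

variable {b : ℕ → ℂ} {q M : ℕ} {θ : ℝ} {ρ ηp ηm κ : ℂ}

private theorem vrules_comb {x : ℝ} (hx : 0 < x) (z : ℂ) :
    (x : ℂ) ^ z = cexp (Real.log x * z) := by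
  rw [cpow_def_of_ne_zero (by exact_mod_cast hx.ne'), ← ofReal_log hx.le]

private theorem vrules_sqrt4 (q : ℕ) : Real.sqrt (((4 : ℕ) : ℝ) * q) = 2 * Real.sqrt q := by
  have h4 : Real.sqrt (((4 : ℕ) : ℝ)) = 2 := by
    have : (((4 : ℕ) : ℝ)) = 2 ^ 2 := by norm_num
    rw [this, Real.sqrt_sq (by norm_num)]
  rw [Real.sqrt_mul (by positivity), h4]

private theorem vrules_sign (d : ℤ) (hd : d ≠ 0) :
    ((d.sign : ℤ) : ℝ) * (d : ℝ) = |(d : ℝ)| := by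
  rcases lt_or_gt_of_ne hd with h0 | h0
  · rw [Int.sign_eq_neg_one_of_neg h0]
    have : (d : ℝ) < 0 := by exact_mod_cast h0
    rw [abs_of_neg this]
    push_cast
    ring
  · rw [Int.sign_eq_one_of_pos h0]
    have : (0 : ℝ) < d := by exact_mod_cast h0
    rw [abs_of_pos this]
    push_cast
    ring

private theorem vrules_pos {d : ℤ} {t : ℝ} (ht : 0 < t) : (0 < (d : ℝ) / t) ↔ (0 < d) := by
  constructor
  · intro h0
    have h3 : (0 : ℝ) < d := by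
      by_contra h4
      have := div_nonpos_of_nonpos_of_nonneg (not_lt.1 h4) ht.le
      linarith
    exact_mod_cast h3
  · intro h0
    have h3 : (0 : ℝ) < d := by exact_mod_cast h0
    positivity

/-- from the type `+` to the type `-` -/
theorem vrule1 (E : DatV b q M θ ρ ηp ηm 4 κ) (m : ℕ) (hq : q = 2 * m + 1) (j : ℤ) (c' : ℕ)
    (hc : 1 ≤ c') (hd : 2 * j - q * c' ≠ 0) (hβ : 2 * (2 * j - q * c').natAbs ≤ q * c') (x : ℂ)
    (h : Plus b M θ ρ ((2 * j - q * c').sign * (j - m * c')) (2 * j - q * c').natAbs x) :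
    Minus b q M θ ρ j (q * c')
      ((if 0 < 2 * j - q * c' then ηp else ηm) * κ * (starRingEnd ℂ) x) := by
  have hq1 : 1 ≤ q := by omega
  obtain ⟨d, hdd⟩ : ∃ d : ℤ, d = 2 * j - q * c' := ⟨_, rfl⟩
  rw [← hdd] at hd hβ h ⊢
  unfold Plus at h
  unfold Minus
  have hcr : (0 : ℝ) < c' := by exact_mod_cast hc
  have hqr : (0 : ℝ) < q := by exact_mod_cast hq1
  have hdr : (d : ℝ) ≠ 0 := by exact_mod_cast hd
  have hqm : (q : ℝ) = 2 * m + 1 := by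
    rw [hq]
    push_cast
    ring
  have hdd' : (d : ℝ) = 2 * j - q * c' := by
    rw [hdd]
    push_cast
    ring
  obtain ⟨β, hβd⟩ : ∃ β : ℝ, β = (d : ℝ) / (2 * (q * c')) := ⟨_, rfl⟩
  have hqc : (0 : ℝ) < 2 * (q * c') := by positivity
  have hβ0 : β ≠ 0 := by
    rw [hβd]
    exact div_ne_zero hdr hqc.ne'
  have habs : ((d.natAbs : ℕ) : ℝ) = |(d : ℝ)| := by
    rw [Nat.cast_natAbs]
    push_cast
    rfl
  have hβ' : 2 * |(d : ℝ)| ≤ q * c' := by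
    rw [← habs]
    exact_mod_cast hβ
  have hβ1 : |β| ≤ 1 / 4 := by
    rw [hβd, abs_div, abs_of_pos hqc, div_le_div_iff₀ hqc (by norm_num)]
    linarith
  have hdabs : 0 < |(d : ℝ)| := abs_pos.2 hdr
  have hsg2 := vrules_sign d hd
  have e1 : 1 / 2 + 1 / (((4 : ℕ) : ℝ) * q * β) =
      ((d.sign * (j - m * c') : ℤ) : ℝ) / ((d.natAbs : ℕ) : ℝ) := by
    have i1 : 1 / 2 + 1 / (((4 : ℕ) : ℝ) * q * β) = (j - m * c') / d := by
      rw [hβd]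
      push_cast
      have i2 : (c' : ℝ) + d = 2 * (j - m * c') := by
        rw [hdd', hqm]
        ring
      field_simp
      linarith
    rw [i1, habs, ← hsg2]
    have hs0 : ((d.sign : ℤ) : ℝ) ≠ 0 := by
      intro h0
      rw [h0, zero_mul] at hsg2
      linarith
    push_cast
    rw [mul_div_mul_left _ _ hs0]
  have e1' : 1 / 2 + β = ((j : ℤ) : ℝ) / ((q * c' : ℕ) : ℝ) := by
    rw [hβd, hdd']
    push_cast
    field_simp
    ring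
  have h2 := E.V β θ _ hβ0 hβ1 (by rw [e1]; exact h)
  have hsign : (0 < β) ↔ (0 < d) := by
    rw [hβd]
    exact vrules_pos hqc
  have e2 : (if 0 < β then ηp else ηm) = (if 0 < d then ηp else ηm) := by
    simp only [hsign]
  rw [e2, e1'] at h2
  convert h2 using 1
  have hn0 : ((d.natAbs : ℕ) : ℂ) = ((|(d : ℝ)| : ℝ) : ℂ) := by
    rw [← habs, ofReal_natCast]
  have hconj : (starRingEnd ℂ) (((|(d : ℝ)| : ℝ) : ℂ) ^ (-(1 + 2 * θ * I) : ℂ)) =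
      ((|(d : ℝ)| : ℝ) : ℂ) ^ (-(1 - 2 * θ * I) : ℂ) := by
    rw [vrules_comb hdabs, vrules_comb hdabs, ← exp_conj]
    congr 1
    rw [map_mul, conj_ofReal]
    congr 1
    simp only [map_neg, map_add, map_one, map_mul, conj_ofReal, conj_I]
    have h4 : (starRingEnd ℂ) (2 : ℂ) = 2 := Complex.conj_ofNat 2
    rw [h4]
    ring
  rw [map_mul, map_mul, hn0, hconj]
  have hb1 : |β| = |(d : ℝ)| / (2 * (q * c')) := by
    rw [hβd, abs_div, abs_of_pos hqc]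
  have hb2 : ((4 : ℕ) : ℝ) * q * β ^ 2 = |(d : ℝ)| ^ 2 / (q * c' ^ 2) := by
    rw [hβd, sq_abs]
    push_cast
    field_simp
    ring
  have hb3 : (((q * c' : ℕ) : ℝ)) ^ 2 / q = q * c' ^ 2 := by
    push_cast
    field_simp
  rw [hb1, hb2, hb3, vrules_sqrt4]
  have hx1 : (0 : ℝ) < q * c' ^ 2 := by positivity
  have hx2 : (0 : ℝ) < |(d : ℝ)| ^ 2 / (q * c' ^ 2) := by positivity
  have e3 : (((|(d : ℝ)| ^ 2 / (q * c' ^ 2) : ℝ)) : ℂ) ^ (-(θ * I)) =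
      (((q * c' ^ 2 : ℝ)) : ℂ) ^ (θ * I) * ((|(d : ℝ)| : ℝ) : ℂ) ^ (-(2 * θ * I)) := by
    rw [vrules_comb hx2, vrules_comb hx1, vrules_comb hdabs, ← Complex.exp_add]
    congr 1
    rw [Real.log_div (by positivity) hx1.ne', Real.log_pow]
    push_cast
    ring
  have hne : ((|(d : ℝ)| : ℝ) : ℂ) ≠ 0 := by exact_mod_cast hdabs.ne'
  have e4 : ((|(d : ℝ)| : ℝ) : ℂ) ^ (-(1 - 2 * θ * I) : ℂ) =
      ((|(d : ℝ)| : ℝ) : ℂ)⁻¹ * ((|(d : ℝ)| : ℝ) : ℂ) ^ (2 * θ * I) := by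
    have : (-(1 - 2 * θ * I) : ℂ) = -1 + 2 * θ * I := by ring
    rw [this, cpow_add _ _ hne, cpow_neg_one]
  have e5 : ((|(d : ℝ)| : ℝ) : ℂ) ^ (-(2 * θ * I)) * ((|(d : ℝ)| : ℝ) : ℂ) ^ (2 * θ * I) = 1 := by
    rw [← cpow_add _ _ hne]
    simp
  rw [e3, e4]
  have hqc' : (q : ℂ) ≠ 0 := by exact_mod_cast hqr.ne'
  have hcc' : (c' : ℂ) ≠ 0 := by exact_mod_cast hcr.ne'
  generalize ((|(d : ℝ)| : ℝ) : ℂ) ^ (-(2 * θ * I)) = A at e5 ⊢
  generalize ((|(d : ℝ)| : ℝ) : ℂ) ^ (2 * θ * I) = B at e5 ⊢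
  generalize (((q * c' ^ 2 : ℝ)) : ℂ) ^ (θ * I) = P
  generalize (if 0 < d then ηp else ηm) = η
  have e6 : (((Real.sqrt q) / ((q * c' : ℕ) : ℝ) : ℝ) : ℂ) =
      ((Real.sqrt q : ℝ) : ℂ) / ((q : ℂ) * c') := by
    push_cast
    rfl
  have e7 : ((2 * Real.sqrt q * (|(d : ℝ)| / (2 * (q * c'))) : ℝ) : ℂ) =
      ((Real.sqrt q : ℝ) : ℂ) * ((|(d : ℝ)| : ℝ) : ℂ) / ((q : ℂ) * c') := by
    push_cast
    field_simp
  rw [e6, e7]
  generalize ((|(d : ℝ)| : ℝ) : ℂ) = J at hne ⊢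
  field_simp
  linear_combination (-((starRingEnd ℂ) ρ * η * κ * (starRingEnd ℂ) x *
    ((Real.sqrt q : ℝ) : ℂ) * P)) * e5

/-- from the type `-` to the type `+` -/
theorem vrule2 (E : DatV b q M θ ρ ηp ηm 4 κ) (m : ℕ) (hq : q = 2 * m + 1) (j : ℤ) (c : ℕ)
    (hc : 1 ≤ c) (hd : 2 * j - c ≠ 0) (hβ : 2 * (2 * j - c).natAbs ≤ c) (x : ℂ)
    (h : Minus b q M θ ρ ((2 * j - c).sign * (q * j - m * c)) (q * (2 * j - c).natAbs) x) :
    Plus b M θ ρ j c ((if 0 < 2 * j - c then ηp else ηm) * κ * (starRingEnd ℂ) x) := by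
  have hq1 : 1 ≤ q := by omega
  obtain ⟨d, hdd⟩ : ∃ d : ℤ, d = 2 * j - c := ⟨_, rfl⟩
  rw [← hdd] at hd hβ h ⊢
  unfold Minus at h
  unfold Plus
  have hcr : (0 : ℝ) < c := by exact_mod_cast hc
  have hqr : (0 : ℝ) < q := by exact_mod_cast hq1
  have hdr : (d : ℝ) ≠ 0 := by exact_mod_cast hd
  have hqm : (q : ℝ) = 2 * m + 1 := by
    rw [hq]
    push_cast
    ring
  have hdd' : (d : ℝ) = 2 * j - c := by
    rw [hdd]
    push_cast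
    ring
  obtain ⟨β, hβd⟩ : ∃ β : ℝ, β = (d : ℝ) / (2 * c) := ⟨_, rfl⟩
  have hqc : (0 : ℝ) < 2 * c := by positivity
  have hβ0 : β ≠ 0 := by
    rw [hβd]
    exact div_ne_zero hdr hqc.ne'
  have habs : ((d.natAbs : ℕ) : ℝ) = |(d : ℝ)| := by
    rw [Nat.cast_natAbs]
    push_cast
    rfl
  have hβ' : 2 * |(d : ℝ)| ≤ c := by
    rw [← habs]
    exact_mod_cast hβ
  have hβ1 : |β| ≤ 1 / 4 := by
    rw [hβd, abs_div, abs_of_pos hqc, div_le_div_iff₀ hqc (by norm_num)]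
    linarith
  have hdabs : 0 < |(d : ℝ)| := abs_pos.2 hdr
  have hsg2 := vrules_sign d hd
  have e1 : 1 / 2 + 1 / (((4 : ℕ) : ℝ) * q * β) =
      ((d.sign * (q * j - m * c) : ℤ) : ℝ) / ((q * d.natAbs : ℕ) : ℝ) := by
    have i1 : 1 / 2 + 1 / (((4 : ℕ) : ℝ) * q * β) = (q * j - m * c) / (q * d) := by
      rw [hβd]
      push_cast
      have i2 : (c : ℝ) + q * d = 2 * (q * j - m * c) := by
        rw [hdd', hqm]
        ring
      field_simp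
      linarith
    have hs0 : ((d.sign : ℤ) : ℝ) ≠ 0 := by
      intro h0
      rw [h0, zero_mul] at hsg2
      linarith
    have i3 : ((q * d.natAbs : ℕ) : ℝ) = ((d.sign : ℤ) : ℝ) * (q * d) := by
      rw [Nat.cast_mul, habs, ← hsg2]
      ring
    rw [i1, i3]
    push_cast
    rw [mul_div_mul_left _ _ hs0]
  have e1' : 1 / 2 + β = ((j : ℤ) : ℝ) / (c : ℝ) := by
    rw [hβd, hdd']
    field_simp
    ring
  have h2 := E.V β (-θ) (_) hβ0 hβ1 (by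
    have e2 : (4 + ((-θ : ℝ) : ℂ) * I) = 4 - θ * I := by push_cast; ring
    rw [e1, e2]
    exact h)
  have hsign : (0 < β) ↔ (0 < d) := by
    rw [hβd]
    exact vrules_pos hqc
  have e2 : (if 0 < β then ηp else ηm) = (if 0 < d then ηp else ηm) := by
    simp only [hsign]
  have e3 : (4 - ((-θ : ℝ) : ℂ) * I) = 4 + θ * I := by push_cast; ring
  rw [e2, e3, e1'] at h2
  convert h2 using 1
  have hqj2 : (((q * d.natAbs : ℕ) : ℝ)) ^ 2 / q = q * |(d : ℝ)| ^ 2 := by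
    rw [Nat.cast_mul, habs]
    field_simp
  rw [hqj2]
  have hx1 : (0 : ℝ) < q * |(d : ℝ)| ^ 2 := by positivity
  have hconj : (starRingEnd ℂ) (((q * |(d : ℝ)| ^ 2 : ℝ) : ℂ) ^ (θ * I)) =
      ((q * |(d : ℝ)| ^ 2 : ℝ) : ℂ) ^ (-(θ * I)) := by
    rw [vrules_comb hx1, vrules_comb hx1, ← exp_conj]
    congr 1
    rw [map_mul, conj_ofReal]
    congr 1
    simp only [map_mul, conj_ofReal, conj_I]
    ring
  rw [map_mul, map_mul, map_mul, conj_conj, hconj, conj_ofReal]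
  have hb1 : |β| = |(d : ℝ)| / (2 * c) := by
    rw [hβd, abs_div, abs_of_pos hqc]
  have hb2 : ((4 : ℕ) : ℝ) * q * β ^ 2 = (q * |(d : ℝ)| ^ 2) / c ^ 2 := by
    rw [hβd, sq_abs]
    push_cast
    field_simp
    ring
  rw [hb1, hb2, vrules_sqrt4]
  have hx2 : (0 : ℝ) < q * |(d : ℝ)| ^ 2 / c ^ 2 := by positivity
  have e4 : ((q * |(d : ℝ)| ^ 2 / c ^ 2 : ℝ) : ℂ) ^ (-(((-θ : ℝ) : ℂ) * I)) =
      ((q * |(d : ℝ)| ^ 2 : ℝ) : ℂ) ^ (θ * I) * ((c : ℂ) ^ (-(2 * θ * I))) := by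
    have e5 : (c : ℂ) = ((c : ℝ) : ℂ) := by push_cast; rfl
    rw [e5, vrules_comb hx2, vrules_comb hx1, vrules_comb hcr, ← Complex.exp_add]
    congr 1
    rw [Real.log_div hx1.ne' (by positivity), Real.log_pow]
    push_cast
    ring
  have hcc : (c : ℂ) ≠ 0 := by exact_mod_cast hcr.ne'
  have e6 : (c : ℂ) ^ (-(1 + 2 * θ * I) : ℂ) = (c : ℂ)⁻¹ * (c : ℂ) ^ (-(2 * θ * I)) := by
    have : (-(1 + 2 * θ * I) : ℂ) = -1 + -(2 * θ * I) := by ring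
    rw [this, cpow_add _ _ hcc, cpow_neg_one]
  have e7 : ((q * |(d : ℝ)| ^ 2 : ℝ) : ℂ) ^ (θ * I) *
      ((q * |(d : ℝ)| ^ 2 : ℝ) : ℂ) ^ (-(θ * I)) = 1 := by
    have hne : ((q * |(d : ℝ)| ^ 2 : ℝ) : ℂ) ≠ 0 := by exact_mod_cast hx1.ne'
    rw [← cpow_add _ _ hne]
    simp
  rw [e4, e6]
  generalize ((q * |(d : ℝ)| ^ 2 : ℝ) : ℂ) ^ (θ * I) = A at e7 ⊢
  generalize ((q * |(d : ℝ)| ^ 2 : ℝ) : ℂ) ^ (-(θ * I)) = B at e7 ⊢
  generalize (c : ℂ) ^ (-(2 * θ * I)) = P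
  generalize (if 0 < d then ηp else ηm) = η
  have hqc' : (q : ℂ) ≠ 0 := by exact_mod_cast hqr.ne'
  have hne : ((|(d : ℝ)| : ℝ) : ℂ) ≠ 0 := by exact_mod_cast hdabs.ne'
  have hsq : ((Real.sqrt q : ℝ) : ℂ) * ((Real.sqrt q : ℝ) : ℂ) = q := by
    rw [← ofReal_mul, Real.mul_self_sqrt hqr.le, ofReal_natCast]
  have e8 : (((Real.sqrt q) / ((q * d.natAbs : ℕ) : ℝ) : ℝ) : ℂ) =
      ((Real.sqrt q : ℝ) : ℂ) / ((q : ℂ) * ((|(d : ℝ)| : ℝ) : ℂ)) := by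
    rw [Nat.cast_mul, habs, ofReal_div, ofReal_mul, ofReal_natCast]
  have e9 : ((2 * Real.sqrt q * (|(d : ℝ)| / (2 * c)) : ℝ) : ℂ) =
      ((Real.sqrt q : ℝ) : ℂ) * ((|(d : ℝ)| : ℝ) : ℂ) / (c : ℂ) := by
    push_cast
    field_simp
  rw [e8, e9]
  generalize ((|(d : ℝ)| : ℝ) : ℂ) = J at hne ⊢
  generalize ((Real.sqrt q : ℝ) : ℂ) = S at hsq ⊢
  field_simp
  linear_combination (-(ρ * η * κ * (starRingEnd ℂ) x * P * (q : ℂ))) * e7 -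
    (ρ * η * κ * (starRingEnd ℂ) x * P * A * B) * hsq

end Pool.Agent.H11.SC6
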