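import Mathlib
import Pool.Agent.H11.SC6.VRules

/-!
# CON5: the constants for `q = 5`
-/

set_option autoImplicit false

namespace Pool.Agent.H11.SC6

open Complex Filter Topology Pool.Agent.H11.Selberg Pool.Agent.H11.SC Pool.Agent.H39.Pol

variable {b : ℕ → ℂ} {q M : ℕ} {θ : ℝ} {ρ ηp ηm κ : ℂ}

theorem unit_conj {z : ℂ} (h : ‖z‖ = 1) : z * (starRingEnd ℂ) z = 1 := by
  rw [Complex.mul_conj, Complex.normSq_eq_norm_sq, h]
  norm_num

theorem p_int (D : Dat b q M θ ρ ηp ηm) (n : ℤ) : Plus b M θ ρ n 1 1 := by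
  have h := plus_per 0 1 le_rfl 1 n (plus_zero D)
  simpa using h

/-- the value at `1/q` -/
theorem m_one (D : Dat b q M θ ρ ηp ηm) (hq : 1 ≤ q) : Minus b q M θ ρ 1 q ηp := by
  have h := rule1 D hq 1 1 one_ne_zero le_rfl (by simpa using hq) 1 (by
    simpa using p_int D 1)
  simpa using h

/-- the value at `m/q`, `q = 2m + 1` -/
theorem m_mid (E : DatV b q M θ ρ ηp ηm 4 κ) (m : ℕ) (hq : q = 2 * m + 1) (hm : 1 ≤ m) :
    Minus b q M θ ρ m q (ηm * κ) := by
  have e : (2 * (m : ℤ) - q * ((1 : ℕ) : ℤ)) = -1 := by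
    rw [hq]
    push_cast
    ring
  have h := vrule1 E m hq m 1 le_rfl (by rw [e]; norm_num) (by rw [e, hq]; simp; omega) 1 (by
    rw [e]
    have e2 : ((-1 : ℤ).sign * ((m : ℤ) - m * ((1 : ℕ) : ℤ))) = 0 := by push_cast; ring
    rw [e2]
    exact plus_zero E.dat)
  rw [e] at h
  simpa using h

/-- the value at `-m/q` -/
theorem m_mid' (E : DatV b q M θ ρ ηp ηm 4 κ) (m : ℕ) (hq : q = 2 * m + 1) (hm : 1 ≤ m) :
    Minus b q M θ ρ (-(m : ℤ)) q (ηp * κ) := by
  have e : (2 * ((m : ℤ) + 1) - q * ((1 : ℕ) : ℤ)) = 1 := by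
    rw [hq]
    push_cast
    ring
  have h := vrule1 E m hq ((m : ℤ) + 1) 1 le_rfl (by rw [e]; norm_num)
    (by rw [e, hq]; simp; omega) 1 (by
    rw [e]
    have e2 : ((1 : ℤ).sign * ((m : ℤ) + 1 - m * ((1 : ℕ) : ℤ))) = 1 := by
      rw [Int.sign_one]
      push_cast
      ring
    rw [e2]
    exact p_int E.dat 1)
  rw [e] at h
  have h2 := minus_per (b := b) (q := q) (M := M) (θ := θ) (ρ := ρ) ((m : ℤ) + 1) (q * 1)
    (by omega) _ (-1) h
  have e3 : (m : ℤ) + 1 + -1 * ((q * 1 : ℕ) : ℤ) = -(m : ℤ) := by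
    rw [hq]
    push_cast
    ring
  rw [e3] at h2
  simpa using h2

theorem con5 (E : DatV b 5 M θ ρ ηp ηm 4 κ) :
    (ηm * (starRingEnd ℂ) ηp) ^ 2 = 1 ∧ κ ^ 2 = ηm * (starRingEnd ℂ) ηp := by
  have hp := unit_conj E.dat.hp
  have hm := unit_conj E.dat.hm
  have hk := unit_conj E.kn
  have h5 : (5 : ℕ) = 2 * 2 + 1 := by norm_num
  have M2 := m_mid E 2 h5 (by norm_num)
  have Mm2 := m_mid' E 2 h5 (by norm_num)
  have M1 := m_one E.dat (by norm_num : 1 ≤ 5)
  -- the cusp 1/2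
  have P12 := rule2 E.dat (by norm_num) 1 2 one_ne_zero (by norm_num) (by norm_num) (ηm * κ) (by
    simpa using M2)
  have P12' := rule2 E.dat (by norm_num) (-1) 2 (by norm_num) (by norm_num) (by norm_num)
    (ηp * κ) (by simpa using Mm2)
  have P12'' := plus_per (b := b) (M := M) (θ := θ) (ρ := ρ) (-1) 2 (by norm_num) _ 1 P12'
  have u1 := plus_unique E.dat 1 2 (by norm_num) _ _ P12 (by simpa using P12'')
  -- the cusp 1/3
  have M3 : Minus b 5 M θ ρ 3 5 (ηp * κ) := by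
    have := minus_per (b := b) (q := 5) (M := M) (θ := θ) (ρ := ρ) _ 5 (by norm_num) _ 1 Mm2
    simpa using this
  have P13 := rule2 E.dat (by norm_num) 1 3 one_ne_zero (by norm_num) (by norm_num) (ηp * κ) (by
    simpa using M3)
  have P13' := vrule2 E 2 h5 1 3 (by norm_num) (by norm_num) (by norm_num) ηp (by
    simpa using M1)
  have u2 := plus_unique E.dat 1 3 (by norm_num) _ _ P13 (by simpa using P13')
  simp only [map_mul] at u1 u2
  norm_num at u1 u2
  set kc := (starRingEnd ℂ) κ with hkc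
  set pc := (starRingEnd ℂ) ηp with hpc
  set mc := (starRingEnd ℂ) ηm with hmc
  -- u1 : ηp * (mc * kc) = ηm * (pc * kc);  u2 : ηp * (pc * kc) = ηm * κ * pc
  have e1 : (ηm * pc) ^ 2 = 1 := by
    have h1 : ηp * mc = ηm * pc := by
      have : ηp * mc * (kc * κ) = ηm * pc * (kc * κ) := by linear_combination κ * u1
      have h2 : kc * κ = 1 := by linear_combination hk
      rwa [h2, mul_one, mul_one] at this
    calc (ηm * pc) ^ 2 = (ηm * pc) * (ηp * mc) := by rw [h1]; ring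
      _ = (ηm * mc) * (ηp * pc) := by ring
      _ = 1 := by rw [hm, hp, one_mul]
  refine ⟨e1, ?_⟩
  have h3 : kc = ηm * pc * κ := by
    calc kc = (ηp * pc) * kc := by rw [hp, one_mul]
      _ = ηp * (pc * kc) := by ring
      _ = ηm * κ * pc := u2
      _ = ηm * pc * κ := by ring
  have h4 : (ηm * pc) * κ ^ 2 = 1 := by
    calc (ηm * pc) * κ ^ 2 = κ * (ηm * pc * κ) := by ring
      _ = κ * kc := by rw [← h3]
      _ = 1 := hk
  calc κ ^ 2 = (ηm * pc) ^ 2 * κ ^ 2 := by rw [e1, one_mul]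
    _ = (ηm * pc) * ((ηm * pc) * κ ^ 2) := by ring
    _ = ηm * pc := by rw [h4, mul_one]

end Pool.Agent.H11.SC6
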