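import Mathlib
import Pool.Agent.H11.SC6.Con5

/-!
# CON7: the constants for `q = 7`
-/

set_option autoImplicit false

namespace Pool.Agent.H11.SC6

open Complex Filter Topology Pool.Agent.H11.Selberg Pool.Agent.H11.SC Pool.Agent.H39.Pol

variable {b : ℕ → ℂ} {q M : ℕ} {θ : ℝ} {ρ ηp ηm κ : ℂ}

theorem con7_half (E : DatV b 7 M θ ρ ηp ηm 4 κ) :
    Plus b M θ ρ 1 2 (ηp * (starRingEnd ℂ) (ηm * κ * ((starRingEnd ℂ) ηp * (ηm * κ)))) := by
  have h7 : (7 : ℕ) = 2 * 3 + 1 := by norm_num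
  have M3 := m_mid E 3 h7 (by norm_num)
  have P13 := rule2 E.dat (by norm_num) 1 3 one_ne_zero (by norm_num) (by norm_num) (ηm * κ) (by
    simpa using M3)
  rw [if_pos (by norm_num)] at P13
  have M27 := vrule1 E 3 h7 2 1 le_rfl (by norm_num) (by norm_num) _ (by
    norm_num
    exact P13)
  rw [if_neg (by norm_num)] at M27
  have P12 := rule2 E.dat (by norm_num) 1 2 one_ne_zero (by norm_num) (by norm_num) _ (by
    norm_num at M27 ⊢
    exact M27)
  rw [if_pos (by norm_num)] at P12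
  exact P12

theorem con7 (E : DatV b 7 M θ ρ ηp ηm 4 κ) :
    (ηm * (starRingEnd ℂ) ηp) ^ 4 = 1 ∧ κ ^ 3 = (ηm * (starRingEnd ℂ) ηp) ^ 2 := by
  have hp := unit_conj E.dat.hp
  have hm := unit_conj E.dat.hm
  have hk := unit_conj E.kn
  have h7 : (7 : ℕ) = 2 * 3 + 1 := by norm_num
  have Mm3 := m_mid' E 3 h7 (by norm_num)
  have M1 := m_one E.dat (by norm_num : 1 ≤ 7)
  -- the cusp 1/2, first way
  have P12 := con7_half E
  -- the cusp 1/2, second way
  have P13' := rule2 E.dat (by norm_num) (-1) 3 (by norm_num) (by norm_num) (by norm_num)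
    (ηp * κ) (by simpa using Mm3)
  rw [if_neg (by norm_num)] at P13'
  have P23 := plus_per (b := b) (M := M) (θ := θ) (ρ := ρ) (-1) 3 (by norm_num) _ 1 P13'
  have M57 := vrule1 E 3 h7 5 1 le_rfl (by norm_num) (by norm_num) _ (by
    norm_num at P23 ⊢
    exact P23)
  rw [if_pos (by norm_num)] at M57
  have Mm2 := minus_per (b := b) (q := 7) (M := M) (θ := θ) (ρ := ρ) _ _ (by norm_num) _ (-1) M57
  have P12' := rule2 E.dat (by norm_num) (-1) 2 (by norm_num) (by norm_num) (by norm_num) _ (by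
    norm_num at Mm2 ⊢
    exact Mm2)
  rw [if_neg (by norm_num)] at P12'
  have P12'' := plus_per (b := b) (M := M) (θ := θ) (ρ := ρ) (-1) 2 (by norm_num) _ 1 P12'
  have u1 := plus_unique E.dat 1 2 (by norm_num) _ _ P12 (by norm_num at P12'' ⊢; exact P12'')
  -- the cusp 1/4, first way
  have M4 := minus_per (b := b) (q := 7) (M := M) (θ := θ) (ρ := ρ) _ 7 (by norm_num) _ 1 Mm3
  have P14 := rule2 E.dat (by norm_num) 1 4 one_ne_zero (by norm_num) (by norm_num) (ηp * κ) (by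
    norm_num at M4 ⊢
    exact M4)
  rw [if_pos (by norm_num)] at P14
  -- the cusp 1/4, second way
  have P25 := vrule2 E 3 h7 2 5 (by norm_num) (by norm_num) (by norm_num) ηp (by
    norm_num
    exact M1)
  rw [if_neg (by norm_num)] at P25
  have M514 := rule1 E.dat (by norm_num) 5 2 (by norm_num) (by norm_num) (by norm_num) _ (by
    norm_num at P25 ⊢
    exact P25)
  rw [if_pos (by norm_num)] at M514
  have P14' := vrule2 E 3 h7 1 4 (by norm_num) (by norm_num) (by norm_num) _ (by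
    norm_num at M514 ⊢
    exact M514)
  rw [if_neg (by norm_num)] at P14'
  have u2 := plus_unique E.dat 1 4 (by norm_num) _ _ P14 P14'
  simp only [map_mul, conj_conj] at u1 u2
  set kc := (starRingEnd ℂ) κ with hkc
  set pc := (starRingEnd ℂ) ηp with hpc
  set mc := (starRingEnd ℂ) ηm with hmc
  have hee : (ηm * pc) * (ηp * mc) = 1 := by
    calc (ηm * pc) * (ηp * mc) = (ηm * mc) * (ηp * pc) := by ring
      _ = 1 := by rw [hm, hp, one_mul]
  -- u1 : ηp (mc kc (ηp (mc kc))) = ηm (pc kc (ηm (pc kc)))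
  have e1 : (ηp * mc) ^ 2 = (ηm * pc) ^ 2 := by
    linear_combination (κ ^ 2) * u1 - ((ηp * mc) ^ 2 - (ηm * pc) ^ 2) * (κ * kc + 1) * hk
  have e4 : (ηm * pc) ^ 4 = 1 := by
    calc (ηm * pc) ^ 4 = (ηm * pc) ^ 2 * (ηm * pc) ^ 2 := by ring
      _ = (ηm * pc) ^ 2 * (ηp * mc) ^ 2 := by rw [e1]
      _ = ((ηm * pc) * (ηp * mc)) ^ 2 := by ring
      _ = 1 := by rw [hee, one_pow]
  refine ⟨e4, ?_⟩
  have h3 : kc = (ηm * pc) ^ 2 * κ ^ 2 := by
    calc kc = (ηp * pc) * kc := by rw [hp, one_mul]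
      _ = ηp * (pc * kc) := by ring
      _ = _ := u2
      _ = (ηm * pc) ^ 2 * κ ^ 2 := by ring
  have h4 : (ηm * pc) ^ 2 * κ ^ 3 = 1 := by
    calc (ηm * pc) ^ 2 * κ ^ 3 = κ * ((ηm * pc) ^ 2 * κ ^ 2) := by ring
      _ = κ * kc := by rw [← h3]
      _ = 1 := hk
  calc κ ^ 3 = (ηm * pc) ^ 4 * κ ^ 3 := by rw [e4, one_mul]
    _ = (ηm * pc) ^ 2 * ((ηm * pc) ^ 2 * κ ^ 3) := by ring
    _ = (ηm * pc) ^ 2 := by rw [h4, mul_one]

end Pool.Agent.H11.SC6
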