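import Mathlib
import Pool.Agent.H11.SC6.Con7
import Pool.Agent.H39.Pol.CalcM

/-!
# CALC57: the values at all cusps of the two types, `q = 5, 7`
-/

set_option autoImplicit false

namespace Pool.Agent.H11.SC6

open Complex Filter Topology Pool.Agent.H11.Selberg Pool.Agent.H11.SC Pool.Agent.H39.Pol

variable {b : ℕ → ℂ} {q M : ℕ} {θ : ℝ} {ρ ηp ηm κ : ℂ}

theorem abs_cop {j : ℤ} {c : ℤ} (h : IsCoprime c j) : IsCoprime c ((j.natAbs : ℕ) : ℤ) := by
  rw [Int.natCast_natAbs]
  rcases abs_choice j with h1 | h1 <;> rw [h1]
  · exact h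
  · exact (IsCoprime.neg_right_iff _ _).2 h

theorem sign_cop {d x c : ℤ} (hd : d ≠ 0) (h : IsCoprime x c) : IsCoprime (d.sign * x) c := by
  rcases lt_or_gt_of_ne hd with h0 | h0
  · rw [Int.sign_eq_neg_one_of_neg h0, neg_one_mul]
    exact (IsCoprime.neg_left_iff _ _).2 h
  · rw [Int.sign_eq_one_of_pos h0, one_mul]
    exact h

/-- the values -/
structure Vals (q : ℕ) (ηp ηm κ : ℂ) (χ : DirichletCharacter ℂ q) : Prop where
  np : ηp * (starRingEnd ℂ) ηp = 1
  neg : ηm = χ (-1) * ηp
  two : χ 2 = κ
  nk : κ * (starRingEnd ℂ) κ = 1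

theorem Vals.ee {χ : DirichletCharacter ℂ q} (_h : Vals q ηp ηm κ χ) : χ (-1) * χ (-1) = 1 := by
  rw [← map_mul]
  simp

theorem Vals.ec {χ : DirichletCharacter ℂ q} (h : Vals q ηp ηm κ χ) :
    (starRingEnd ℂ) (χ (-1)) = χ (-1) := by
  rcases mul_self_eq_one_iff.1 h.ee with h | h <;> rw [h] <;> simp

theorem Vals.neg' {χ : DirichletCharacter ℂ q} (_h : Vals q ηp ηm κ χ) (x : ZMod q) :
    χ (-x) = χ (-1) * χ x := by
  rw [← map_mul, neg_one_mul]

theorem calc57_aux (E : DatV b q M θ ρ ηp ηm 4 κ) (m : ℕ) (hqm : q = 2 * m + 1)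
    (hq5 : 5 ≤ q) (hq7 : q ≤ 7) (χ : DirichletCharacter ℂ q) (V : Vals q ηp ηm κ χ)
    (hhalf : Plus b M θ ρ 1 2 κ) (n : ℕ) :
    (∀ (c : ℕ) (j : ℤ), 1 ≤ c → Nat.Coprime c q → IsCoprime j c → c ^ 2 ≤ n →
      Plus b M θ ρ j c (χ (c : ZMod q))) ∧
    (∀ (c : ℕ) (j : ℤ), 1 ≤ c → IsCoprime j ((q * c : ℕ) : ℤ) → q * c ^ 2 ≤ n →
      Minus b q M θ ρ j (q * c) (ηp * (starRingEnd ℂ) (χ (j : ZMod q)))) := by
  have hq : 1 ≤ q := by omega
  have np := V.np
  have nk := V.nk
  have ee := V.ee
  have ec := V.ec
  have neg := V.neg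
  induction n with
  | zero =>
    refine ⟨fun c j hc _ _ h => ?_, fun c j hc _ h => ?_⟩
    · have : 1 ≤ c ^ 2 := Nat.one_le_pow _ _ hc
      omega
    · have h1 : 1 ≤ c ^ 2 := Nat.one_le_pow _ _ hc
      have : 1 ≤ q * c ^ 2 := Nat.one_le_iff_ne_zero.2 (by positivity)
      omega
  | succ n ih =>
    obtain ⟨ihP, ihM⟩ := ih
    refine ⟨fun c j hc hcq hjc hn => ?_, fun c j hc hjc hn => ?_⟩
    · obtain ⟨j0, mm, hj, hj0⟩ := small_rep j c hc
      rw [hj]
      refine plus_per j0 c hc _ mm ?_
      have hcop : IsCoprime j0 (c : ℤ) := by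
        have e1 : j0 = j + (-mm) * c := by rw [hj]; ring
        rw [e1]
        exact (IsCoprime.add_mul_right_left_iff).2 hjc
      rcases Nat.eq_or_lt_of_le hc with h1 | h1
      · rw [← h1] at hj0 ⊢
        have h2 : j0 = 0 := by omega
        rw [h2]
        have e1 : χ (((1 : ℕ) : ZMod q)) = 1 := by simp
        rw [e1]
        exact plus_zero E.dat
      · have hj00 : j0 ≠ 0 := by
          rintro rfl
          have h2 := isCoprime_zero_left.1 hcop
          rw [Int.isUnit_iff] at h2
          omega
        have hna : 1 ≤ j0.natAbs := Int.natAbs_pos.2 hj00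
        have hcq' : IsCoprime ((c : ℕ) : ℤ) ((q : ℕ) : ℤ) := Nat.isCoprime_iff_coprime.2 hcq
        rcases Nat.eq_or_lt_of_le hj0 with h2 | h2
        · -- `c = 2`
          have hu : IsCoprime ((j0.natAbs : ℕ) : ℤ) (c : ℤ) := (abs_cop hcop.symm).symm
          have hd : ((j0.natAbs : ℕ) : ℤ) ∣ (c : ℤ) := ⟨2, by rw [← h2]; push_cast; ring⟩
          have h3 := hu.isUnit_of_dvd' (dvd_refl _) hd
          rw [Int.isUnit_iff] at h3
          have h4 : j0.natAbs = 1 := by omega
          have hc2 : c = 2 := by omega
          subst hc2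
          have e1 : χ (((2 : ℕ) : ZMod q)) = κ := by
            rw [Nat.cast_ofNat, V.two]
          rw [e1]
          have h5 : j0 = 1 ∨ j0 = -1 := by omega
          rcases h5 with rfl | rfl
          · exact hhalf
          · have h6 := plus_per (b := b) (M := M) (θ := θ) (ρ := ρ) 1 2 (by norm_num) _ (-1) hhalf
            norm_num at h6 ⊢
            exact h6
        · by_cases hW : q * j0.natAbs ^ 2 < c ^ 2
          · have hlt : q * j0.natAbs ^ 2 ≤ n := by omega
            have hsc : IsCoprime (j0.sign * (c : ℤ)) ((q * j0.natAbs : ℕ) : ℤ) := by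
              refine sign_cop hj00 ?_
              have a2 := abs_cop hcop.symm
              push_cast at a2 ⊢
              exact IsCoprime.mul_right hcq' a2
            have h5 := ihM j0.natAbs (j0.sign * c) hna hsc hlt
            have h6 := rule2 E.dat hq j0 c hj00 hc (by omega) _ h5
            convert h6 using 1
            rw [map_mul, conj_conj]
            rcases lt_or_gt_of_ne hj00 with h0 | h0
            · rw [Int.sign_eq_neg_one_of_neg h0, if_neg (not_lt.2 h0.le)]
              have e1 : (((-1 * (c : ℤ) : ℤ)) : ZMod q) = -((c : ℕ) : ZMod q) := by push_cast; ring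
              rw [e1, V.neg', neg]
              linear_combination (-χ (c : ZMod q) * χ (-1) * χ (-1)) * np - χ (c : ZMod q) * ee
            · rw [Int.sign_eq_one_of_pos h0, one_mul, if_pos h0, Int.cast_natCast]
              linear_combination (-χ (c : ZMod q)) * np
          · -- the inversion at `1/2`
            obtain ⟨j1, t, hj1, hd1, hd2⟩ : ∃ j1 t : ℤ, j0 = j1 + t * c ∧
                (2 * j1 - c).natAbs = c - 2 * j0.natAbs ∧ 2 * j1 - c ≠ 0 := by
              rcases lt_or_gt_of_ne hj00 with h0 | h0
              · exact ⟨j0 + c, -1, by ring, by omega, by omega⟩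
              · exact ⟨j0, 0, by ring, by omega, by omega⟩
            have hcop1 : IsCoprime j1 (c : ℤ) := by
              have e1 : j1 = j0 + (-t) * c := by rw [hj1]; ring
              rw [e1]
              exact (IsCoprime.add_mul_right_left_iff).2 hcop
            rw [hj1]
            refine plus_per j1 c hc _ t ?_
            have hd3 : q * (2 * j1 - c).natAbs ^ 2 < c ^ 2 := by
              rw [hd1]
              by_contra hcon
              push Not at hW hcon
              have h7 : c ^ 2 ≤ 7 * j0.natAbs ^ 2 :=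
                hW.trans (Nat.mul_le_mul_right _ hq7)
              have h8 : c ^ 2 ≤ 7 * (c - 2 * j0.natAbs) ^ 2 :=
                hcon.trans (Nat.mul_le_mul_right _ hq7)
              have h9 : 3 * c < 8 * j0.natAbs := by
                by_contra h10
                push Not at h10
                nlinarith
              have h10 : 4 * (c - 2 * j0.natAbs) < c := by omega
              nlinarith
            have hd4 : 2 * (2 * j1 - c).natAbs ≤ c := by
              by_contra h10
              push Not at h10
              nlinarith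
            set d : ℤ := 2 * j1 - c with hdd
            have hd5 : 1 ≤ d.natAbs := Int.natAbs_pos.2 hd2
            have hx : IsCoprime (q * j1 - m * c) d := by
              obtain ⟨u, v, huv⟩ := hcop1
              refine ⟨u + 2 * v, -(u * m + v * q), ?_⟩
              have hqz : (q : ℤ) = 2 * m + 1 := by exact_mod_cast hqm
              rw [hdd, hqz]
              linear_combination huv
            have hxq : IsCoprime (q * j1 - m * c) (q : ℤ) := by
              have hmq : IsCoprime (m : ℤ) (q : ℤ) := ⟨-2, 1, by rw [hqm]; push_cast; ring⟩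
              have h11 : IsCoprime (-((m : ℤ) * c)) (q : ℤ) :=
                (IsCoprime.neg_left_iff _ _).2 (hmq.mul_left hcq')
              have e1 : (q * j1 - m * c : ℤ) = -((m : ℤ) * c) + q * j1 := by ring
              rw [e1]
              exact (IsCoprime.add_mul_left_left_iff).2 h11
            have hsc : IsCoprime (d.sign * (q * j1 - m * c)) ((q * d.natAbs : ℕ) : ℤ) := by
              refine sign_cop hd2 ?_
              have a2 := abs_cop hx
              push_cast at a2 ⊢
              exact IsCoprime.mul_right hxq a2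
            have h5 := ihM d.natAbs (d.sign * (q * j1 - m * c)) hd5 hsc (by omega)
            have h6 := vrule2 E m hqm j1 c hc hd2 hd4 _ h5
            convert h6 using 1
            have e2 : κ * χ (((q * j1 - m * c : ℤ)) : ZMod q) = χ (c : ZMod q) := by
              rw [← V.two, ← map_mul]
              congr 1
              have h12 : (2 * (q * j1 - m * c) : ℤ) = (q : ℤ) * d + c := by
                have hqz : (q : ℤ) = 2 * m + 1 := by exact_mod_cast hqm
                rw [hdd, hqz]
                ring
              have h13 := congrArg (fun z : ℤ => (z : ZMod q)) h12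
              simpa using h13
            rw [map_mul, conj_conj]
            rw [← hdd]
            rcases lt_or_gt_of_ne hd2 with h0 | h0
            · rw [Int.sign_eq_neg_one_of_neg h0, if_neg (not_lt.2 h0.le)]
              have e1 : (((-1 * (q * j1 - m * c) : ℤ)) : ZMod q) =
                  -(((q * j1 - m * c : ℤ)) : ZMod q) := by push_cast; ring
              rw [e1, V.neg', neg, ← e2]
              linear_combination (-κ * χ (((q * j1 - m * c : ℤ)) : ZMod q) * χ (-1) * χ (-1)) * np -
                κ * χ (((q * j1 - m * c : ℤ)) : ZMod q) * ee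
            · rw [Int.sign_eq_one_of_pos h0, one_mul, if_pos h0, ← e2]
              linear_combination (-κ * χ (((q * j1 - m * c : ℤ)) : ZMod q)) * np
    · have hqc : 1 ≤ q * c := Nat.mul_pos hq hc
      have hqc5 : 5 ≤ q * c := by nlinarith
      obtain ⟨j0, mm, hj, hj0⟩ := small_rep j (q * c) hqc
      have hcop : IsCoprime j0 ((q * c : ℕ) : ℤ) := by
        have e1 : j0 = j + (-mm) * ((q * c : ℕ) : ℤ) := by rw [hj]; ring
        rw [e1]
        exact (IsCoprime.add_mul_right_left_iff).2 hjc
      have echi : (j : ZMod q) = (j0 : ZMod q) := by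
        rw [hj]
        push_cast
        simp
      rw [echi, hj]
      refine minus_per j0 (q * c) hqc _ mm ?_
      have hj00 : j0 ≠ 0 := by
        rintro rfl
        have h2 := isCoprime_zero_left.1 hcop
        rw [Int.isUnit_iff] at h2
        omega
      have hna : 1 ≤ j0.natAbs := Int.natAbs_pos.2 hj00
      have hcop' : IsCoprime j0 ((q : ℤ) * c) := by
        have : ((q * c : ℕ) : ℤ) = q * c := by push_cast; ring
        rwa [this] at hcop
      have hcq1 : IsCoprime j0 (q : ℤ) := hcop'.of_mul_right_left
      have hcc1 : IsCoprime j0 (c : ℤ) := hcop'.of_mul_right_right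
      have h2 : 2 * j0.natAbs ≠ q * c := by
        intro h2
        have hu : IsCoprime ((j0.natAbs : ℕ) : ℤ) ((q * c : ℕ) : ℤ) := (abs_cop hcop.symm).symm
        have hd : ((j0.natAbs : ℕ) : ℤ) ∣ ((q * c : ℕ) : ℤ) := ⟨2, by rw [← h2]; push_cast; ring⟩
        have h3 := hu.isUnit_of_dvd' (dvd_refl _) hd
        rw [Int.isUnit_iff] at h3
        omega
      by_cases hW : j0.natAbs ^ 2 < q * c ^ 2
      · have hlt : j0.natAbs ^ 2 ≤ n := by omega
        have hcn : Nat.Coprime j0.natAbs q := by
          have := Int.isCoprime_iff_gcd_eq_one.1 hcq1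
          simpa [Int.gcd, Nat.Coprime] using this
        have hsc : IsCoprime (j0.sign * (c : ℤ)) ((j0.natAbs : ℕ) : ℤ) :=
          sign_cop hj00 (abs_cop hcc1.symm)
        have h5 := ihP j0.natAbs (j0.sign * c) hna hcn hsc hlt
        have h6 := rule1 E.dat hq j0 c hj00 hc (by omega) _ h5
        convert h6 using 1
        rcases lt_or_gt_of_ne hj00 with h0 | h0
        · rw [if_neg (not_lt.2 h0.le), neg]
          have e1 : ((j0.natAbs : ℕ) : ZMod q) = -((j0 : ℤ) : ZMod q) := by
            have h7 : ((j0.natAbs : ℕ) : ℤ) = -j0 := by omega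
            have h8 := congrArg (fun z : ℤ => (z : ZMod q)) h7
            simpa using h8
          rw [e1, V.neg' ((j0 : ℤ) : ZMod q), map_mul, ec]
          linear_combination (-(ηp * (starRingEnd ℂ) (χ (j0 : ZMod q)))) * ee
        · rw [if_pos h0]
          have e1 : ((j0.natAbs : ℕ) : ZMod q) = ((j0 : ℤ) : ZMod q) := by
            have h7 : ((j0.natAbs : ℕ) : ℤ) = j0 := by omega
            have h8 := congrArg (fun z : ℤ => (z : ZMod q)) h7
            simpa using h8
          rw [e1]
      · -- the inversion at `1/2`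
        obtain ⟨j1, t, hj1, hd1, hd2⟩ : ∃ j1 t : ℤ, j0 = j1 + t * ((q * c : ℕ) : ℤ) ∧
            (2 * j1 - q * c).natAbs = q * c - 2 * j0.natAbs ∧ 2 * j1 - q * c ≠ 0 := by
          have e1 : (((q * c : ℕ)) : ℤ) = q * c := by push_cast; ring
          rcases lt_or_gt_of_ne hj00 with h0 | h0
          · exact ⟨j0 + q * c, -1, by push_cast; ring, by omega, by omega⟩
          · exact ⟨j0, 0, by ring, by omega, by omega⟩
        have hcop1 : IsCoprime j1 ((q : ℤ) * c) := by
          have e1 : j1 = j0 + (-t) * ((q : ℤ) * c) := by rw [hj1]; push_cast; ring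
          rw [e1]
          exact (IsCoprime.add_mul_right_left_iff).2 hcop'
        have echi1 : (j0 : ZMod q) = (j1 : ZMod q) := by
          rw [hj1]
          push_cast
          simp
        rw [echi1, hj1]
        refine minus_per j1 (q * c) hqc _ t ?_
        have hd3 : (2 * j1 - q * c).natAbs ^ 2 < q * c ^ 2 := by
          rw [hd1]
          by_contra hcon
          push Not at hW hcon
          have h57 : q = 5 ∨ q = 6 ∨ q = 7 := by omega
          rcases h57 with h57 | h57 | h57
          · subst h57
            have h9 : 11 * c < 5 * j0.natAbs := by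
              by_contra h10
              push Not at h10
              nlinarith
            have h10 : 5 * (5 * c - 2 * j0.natAbs) < 3 * c := by omega
            nlinarith
          · omega
          · subst h57
            have h9 : 13 * c < 5 * j0.natAbs := by
              by_contra h10
              push Not at h10
              nlinarith
            have h10 : 5 * (7 * c - 2 * j0.natAbs) < 9 * c := by omega
            nlinarith
        have hd4 : 2 * (2 * j1 - q * c).natAbs ≤ q * c := by
          by_contra h10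
          push Not at h10
          have h11 : q * (q * c ^ 2) < 4 * (q * c ^ 2) := by nlinarith
          have h12 : 4 * (q * c ^ 2) ≤ q * (q * c ^ 2) := Nat.mul_le_mul_right _ (by omega)
          omega
        set d : ℤ := 2 * j1 - q * c with hdd
        have hd5 : 1 ≤ d.natAbs := Int.natAbs_pos.2 hd2
        have hx : IsCoprime (j1 - m * c) d := by
          obtain ⟨u, v, huv⟩ := hcop1.of_mul_right_right
          refine ⟨u * q + 2 * v, -(u * m + v), ?_⟩
          have hqz : (q : ℤ) = 2 * m + 1 := by exact_mod_cast hqm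
          rw [hdd, hqz]
          linear_combination huv
        have hdq : IsCoprime d (q : ℤ) := by
          have h2q : IsCoprime (2 : ℤ) (q : ℤ) := ⟨-m, 1, by rw [hqm]; push_cast; ring⟩
          have h11 : IsCoprime (2 * j1) (q : ℤ) := h2q.mul_left hcop1.of_mul_right_left
          have e1 : d = 2 * j1 + q * (-c) := by rw [hdd]; ring
          rw [e1]
          exact (IsCoprime.add_mul_left_left_iff).2 h11
        have hdn : Nat.Coprime d.natAbs q := by
          have := Int.isCoprime_iff_gcd_eq_one.1 hdq
          simpa [Int.gcd, Nat.Coprime] using this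
        have hsc : IsCoprime (d.sign * (j1 - m * c)) ((d.natAbs : ℕ) : ℤ) :=
          sign_cop hd2 (abs_cop hx)
        have h5 := ihP d.natAbs (d.sign * (j1 - m * c)) hd5 hdn hsc (by omega)
        have h6 := vrule1 E m hqm j1 c hc hd2 hd4 _ h5
        convert h6 using 1
        rw [← hdd]
        have e2 : χ ((d : ℤ) : ZMod q) = κ * χ ((j1 : ℤ) : ZMod q) := by
          rw [← V.two, ← map_mul]
          congr 1
          have h13 := congrArg (fun z : ℤ => (z : ZMod q)) hdd
          simpa using h13
        rcases lt_or_gt_of_ne hd2 with h0 | h0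
        · rw [if_neg (not_lt.2 h0.le), neg]
          have e1 : ((d.natAbs : ℕ) : ZMod q) = -((d : ℤ) : ZMod q) := by
            have h7 : ((d.natAbs : ℕ) : ℤ) = -d := by omega
            have h8 := congrArg (fun z : ℤ => (z : ZMod q)) h7
            simpa using h8
          rw [e1, V.neg' ((d : ℤ) : ZMod q), e2, map_mul, map_mul, ec]
          linear_combination (-(ηp * (starRingEnd ℂ) (χ (j1 : ZMod q)))) * ee -
            (χ (-1) * χ (-1) * ηp * (starRingEnd ℂ) (χ (j1 : ZMod q))) * nk
        · rw [if_pos h0]
          have e1 : ((d.natAbs : ℕ) : ZMod q) = ((d : ℤ) : ZMod q) := by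
            have h7 : ((d.natAbs : ℕ) : ℤ) = d := by omega
            have h8 := congrArg (fun z : ℤ => (z : ZMod q)) h7
            simpa using h8
          rw [e1, e2, map_mul]
          linear_combination (-(ηp * (starRingEnd ℂ) (χ (j1 : ZMod q)))) * nk

/-- the values at all cusps -/
theorem calc57 (E : DatV b q M θ ρ ηp ηm 4 κ) (m : ℕ) (hqm : q = 2 * m + 1)
    (hq5 : 5 ≤ q) (hq7 : q ≤ 7) (χ : DirichletCharacter ℂ q) (V : Vals q ηp ηm κ χ)
    (hhalf : Plus b M θ ρ 1 2 κ) :
    (∀ (c : ℕ) (j : ℤ), 1 ≤ c → Nat.Coprime c q → IsCoprime j c →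
      Plus b M θ ρ j c (χ (c : ZMod q))) ∧
    (∀ (c : ℕ) (j : ℤ), 1 ≤ c → IsCoprime j ((q * c : ℕ) : ℤ) →
      Minus b q M θ ρ j (q * c) (ηp * (starRingEnd ℂ) (χ (j : ZMod q)))) :=
  ⟨fun c j h1 h2 h3 => (calc57_aux E m hqm hq5 hq7 χ V hhalf (c ^ 2)).1 c j h1 h2 h3 le_rfl,
    fun c j h1 h2 => (calc57_aux E m hqm hq5 hq7 χ V hhalf (q * c ^ 2)).2 c j h1 h2 le_rfl⟩

end Pool.Agent.H11.SC6
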