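import Mathlib
import Pool.Agent.H11.SC6.Calc57
import Pool.Agent.H11.SC6.Char57
import Pool.Agent.H39.Pol.EvG

/-!
# CONCL57: the coefficients, `q = 5, 7`
-/

set_option autoImplicit false

namespace Pool.Agent.H11.SC6

open Complex Filter Topology Pool.Agent.H11.Selberg Pool.Agent.H11.SC Pool.Agent.H39.Pol

variable {b : ℕ → ℂ} {q M : ℕ} {θ : ℝ} {ρ ηp ηm κ : ℂ}

theorem sum_blocks (q : ℕ) (f : ZMod q → ℂ) (N : ℕ) :
    ∑ j ∈ Finset.range (q * N), f (j : ZMod q) = N * ∑ j ∈ Finset.range q, f (j : ZMod q) := by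
  induction N with
  | zero => simp
  | succ N ih =>
    rw [Nat.mul_succ, Finset.sum_range_add, ih, Nat.cast_succ, add_mul, one_mul]
    congr 1
    refine Finset.sum_congr rfl (fun j _ => ?_)
    congr 1
    simp

theorem sum_zmod (q : ℕ) [NeZero q] (f : ZMod q → ℂ) :
    ∑ j ∈ Finset.range q, f (j : ZMod q) = ∑ x : ZMod q, f x := by
  refine Finset.sum_nbij' (fun j => (j : ZMod q)) (fun x => x.val) ?_ ?_ ?_ ?_ ?_
  · intro j _
    exact Finset.mem_univ _
  · intro x _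
    exact Finset.mem_range.2 (ZMod.val_lt x)
  · intro j hj
    exact ZMod.val_cast_of_lt (Finset.mem_range.1 hj)
  · intro x _
    exact ZMod.natCast_zmod_val x
  · intro j _
    rfl

theorem sy_zero (q : ℕ) (hq : q.Prime) (χ : DirichletCharacter ℂ q) (hχ : χ ≠ 1) (k : ℕ) :
    Sy q (fun j => (starRingEnd ℂ) (χ (j : ZMod q))) k = 0 := by
  have : NeZero q := ⟨hq.ne_zero⟩
  have : Fact q.Prime := ⟨hq⟩
  unfold Sy
  have h1 : ∑ j ∈ (Finset.range (q ^ (k + 1))).filter (fun j => ¬ q ∣ j),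
      (starRingEnd ℂ) (χ (((j : ℕ) : ℤ) : ZMod q)) =
      ∑ j ∈ Finset.range (q ^ (k + 1)), (starRingEnd ℂ) (χ ((j : ℕ) : ZMod q)) := by
    rw [Finset.sum_filter]
    refine Finset.sum_congr rfl (fun j _ => ?_)
    rw [Int.cast_natCast]
    split_ifs with h
    swap
    · rfl
    · have h2 : ((j : ℕ) : ZMod q) = 0 := (ZMod.natCast_eq_zero_iff j q).2 h
      rw [h2]
      have h3 : χ 0 = 0 := χ.map_nonunit (by simp)
      rw [h3, map_zero]
  rw [h1, pow_succ, mul_comm (q ^ k) q, sum_blocks q (fun x => (starRingEnd ℂ) (χ x)),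
    sum_zmod q (fun x => (starRingEnd ℂ) (χ x)), ← map_sum, MulChar.sum_eq_zero_of_ne_one hχ,
    map_zero, mul_zero]

theorem concl57 (E : DatV b q M θ ρ ηp ηm 4 κ) (hq : q = 5 ∨ q = 7)
    (he : (ηm * (starRingEnd ℂ) ηp) ^ 2 = 1) :
    ∃ χ : DirichletCharacter ℂ q, χ ≠ 1 ∧ ∀ p : ℕ, p.Prime → ∀ k : ℕ,
      b (p ^ k) * (tp p θ) ^ k =
        ∑ i ∈ Finset.range (k + 1), (χ (p : ZMod q) * (tp p θ) ^ 2) ^ i := by
  have hp := unit_conj E.dat.hp
  have hm := unit_conj E.dat.hm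
  have hk := unit_conj E.kn
  have hqp : q.Prime := by rcases hq with rfl | rfl <;> norm_num
  -- the character and the value at `1/2`
  obtain ⟨χ, hχ1, hχ2, hhalf⟩ : ∃ χ : DirichletCharacter ℂ q,
      χ (-1) = ηm * (starRingEnd ℂ) ηp ∧ χ 2 = κ ∧ Plus b M θ ρ 1 2 κ := by
    rcases hq with rfl | rfl
    · obtain ⟨-, h2⟩ := con5 E
      obtain ⟨χ, h3, h4⟩ := char5 _ κ he h2
      refine ⟨χ, h3, h4, ?_⟩
      have M2 := m_mid E 2 (by norm_num) (by norm_num)
      have P12 := rule2 E.dat (by norm_num) 1 2 one_ne_zero (by norm_num) (by norm_num) (ηm * κ)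
        (by simpa using M2)
      rw [if_pos (by norm_num)] at P12
      convert P12 using 1
      rw [map_mul]
      -- `κ = ηp * (conj ηm * conj κ)`, from `κ² = e`, `e² = 1`
      have h5 : ηp * (starRingEnd ℂ) ηm = ηm * (starRingEnd ℂ) ηp := by
        calc ηp * (starRingEnd ℂ) ηm = (ηm * (starRingEnd ℂ) ηp) ^ 2 * (ηp * (starRingEnd ℂ) ηm) := by
              rw [he, one_mul]
          _ = (ηm * (starRingEnd ℂ) ηp) * ((ηm * (starRingEnd ℂ) ηm) * (ηp * (starRingEnd ℂ) ηp)) := by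
              ring
          _ = _ := by rw [hm, hp, one_mul, mul_one]
      calc κ = κ * (κ * (starRingEnd ℂ) κ) := by rw [hk, mul_one]
        _ = κ ^ 2 * (starRingEnd ℂ) κ := by ring
        _ = (ηp * (starRingEnd ℂ) ηm) * (starRingEnd ℂ) κ := by rw [h2, h5]
        _ = _ := by ring
    · obtain ⟨-, h2⟩ := con7 E
      rw [he] at h2
      obtain ⟨χ, h3, h4⟩ := char7 _ κ he h2
      refine ⟨χ, h3, h4, ?_⟩
      have P12 := con7_half E
      convert P12 using 1
      simp only [map_mul, conj_conj]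
      have h5 : ηp * (starRingEnd ℂ) ηm = ηm * (starRingEnd ℂ) ηp := by
        calc ηp * (starRingEnd ℂ) ηm = (ηm * (starRingEnd ℂ) ηp) ^ 2 * (ηp * (starRingEnd ℂ) ηm) := by
              rw [he, one_mul]
          _ = (ηm * (starRingEnd ℂ) ηp) * ((ηm * (starRingEnd ℂ) ηm) * (ηp * (starRingEnd ℂ) ηp)) := by
              ring
          _ = _ := by rw [hm, hp, one_mul, mul_one]
      calc κ = κ * (κ * (starRingEnd ℂ) κ) ^ 2 := by rw [hk]; ring
        _ = κ ^ 3 * (starRingEnd ℂ) κ ^ 2 := by ring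
        _ = (ηm * (starRingEnd ℂ) ηp) ^ 2 * (starRingEnd ℂ) κ ^ 2 := by rw [h2, he]
        _ = (ηp * (starRingEnd ℂ) ηm) ^ 2 * (starRingEnd ℂ) κ ^ 2 := by rw [h5]
        _ = _ := by ring
  have V : Vals q ηp ηm κ χ := by
    refine ⟨hp, ?_, hχ2, hk⟩
    rw [hχ1]
    linear_combination (-ηm) * hp
  obtain ⟨hP, hM⟩ := calc57 E (if q = 5 then 2 else 3)
    (by rcases hq with rfl | rfl <;> simp) (by omega) (by omega) χ V hhalf
  have hcast : ∀ m : ℕ, Nat.Coprime m q → ‖χ ((m : ℕ) : ZMod q)‖ = 1 := by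
    intro m hm
    have h1 := DirichletCharacter.unit_norm_eq_one χ (ZMod.unitOfCoprime m hm)
    simpa using h1
  have hne1 : χ ≠ 1 := by
    rintro rfl
    refine no_q_gen E.dat hqp ηp E.dat.hp (fun c j hc hj => ?_)
    have h1 := hM c j hc hj
    have h2 : (1 : DirichletCharacter ℂ q) (j : ZMod q) = 1 := by
      refine MulChar.one_apply ?_
      obtain ⟨u, v, huv⟩ := hj
      have h3 := congrArg (fun z : ℤ => (z : ZMod q)) huv
      push_cast at h3
      rw [ZMod.natCast_self, zero_mul, mul_zero, add_zero] at h3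
      exact IsUnit.of_mul_eq_one _ (by rw [mul_comm]; exact h3)
    rw [h2, map_one, mul_one] at h1
    exact h1
  refine ⟨χ, hne1, ?_⟩
  · intro p hpp k
    by_cases hpq : Nat.Coprime p q
    · exact ev_p_gen E.dat (fun c => χ (c : ZMod q)) (by simp)
        (fun m n _ _ => by rw [Nat.cast_mul, map_mul]) hcast hP p hpp hpq k
    · have hp3 : p = q := by
        by_contra hne
        exact hpq ((Nat.coprime_primes hpp hqp).2 hne)
      subst hp3
      have hχ1' : χ ≠ 1 := hne1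
      have h1 := ev_q_gen E.dat hpp ηp _ hM (fun k => sy_zero p hpp χ hχ1' k) k
      have h2 : χ ((p : ℕ) : ZMod p) = 0 := by
        have : Fact p.Prime := ⟨hpp⟩
        rw [ZMod.natCast_self]
        exact χ.map_nonunit (by simp)
      rw [h1, h2, Finset.sum_range_succ']
      simp

end Pool.Agent.H11.SC6
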