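import Mathlib
import Pool.Agent.H11.SC6.Con5
import Pool.Agent.H39.Pol.RRL

/-!
# HALF6: no pole for `q = 6`
-/

set_option autoImplicit false

namespace Pool.Agent.H11.SC6

open Complex Filter Topology Pool.Agent.H11.Selberg Pool.Agent.H11.SC Pool.Agent.H39.Pol

variable {b : ℕ → ℂ} {q M : ℕ} {θ : ℝ} {ρ ηp ηm κ : ℂ}

theorem cpow_pos_mul {x y : ℝ} (hx : 0 < x) (hy : 0 < y) (z : ℂ) :
    (x : ℂ) ^ z * (y : ℂ) ^ z = ((x * y : ℝ) : ℂ) ^ z := by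
  rw [ofReal_mul, mul_cpow_ofReal_nonneg hx.le hy.le]

theorem conj_cpow_I {x : ℝ} (hx : 0 < x) (θ : ℝ) :
    (starRingEnd ℂ) ((x : ℂ) ^ (-((θ : ℂ) * I))) = (x : ℂ) ^ ((θ : ℂ) * I) := by
  have hx0 : (x : ℂ) ≠ 0 := by exact_mod_cast hx.ne'
  rw [cpow_def_of_ne_zero hx0, cpow_def_of_ne_zero hx0, ← exp_conj, ← ofReal_log hx.le]
  congr 1
  rw [map_mul, map_neg, map_mul, conj_ofReal, conj_ofReal, conj_I]
  ring

theorem half6_val (E : DatV b 6 M θ ρ ηp ηm 2 κ) :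
    ηp * (starRingEnd ℂ) ηm = ηm * (starRingEnd ℂ) ηp ∧
    CL (gs b 3) M (4 + θ * I) (1 / 2) (ηp * (starRingEnd ℂ) ηm * (starRingEnd ℂ) κ *
      ((Real.sqrt 2 / 2 : ℝ) : ℂ) * ((1 / 2 : ℝ) : ℂ) ^ ((θ : ℂ) * I) * ρ) := by
  have h0 := E.dat.zero
  have h1 := h0.per (gs_per b 3) 1
  have V1 := E.V (1 / 6) θ ρ (by norm_num) (by norm_num [abs_of_pos]) (by
    convert h1 using 1
    push_cast
    norm_num)
  have V2 := E.V (-1 / 6) θ ρ (by norm_num) (by rw [abs_le]; constructor <;> norm_num) (by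
    convert h0 using 1
    push_cast
    norm_num)
  rw [if_pos (by norm_num)] at V1
  rw [if_neg (by norm_num)] at V2
  have a1 : |(1 / 6 : ℝ)| = 1 / 6 := abs_of_pos (by norm_num)
  have a2 : |(-1 / 6 : ℝ)| = 1 / 6 := by
    rw [abs_of_neg (by norm_num)]
    norm_num
  have e12 : ((2 : ℕ) : ℝ) * ((6 : ℕ) : ℝ) = 12 := by norm_num
  rw [a1, e12] at V1
  rw [a2, e12] at V2
  have e1 : (12 : ℝ) * (1 / 6) ^ 2 = 1 / 3 := by norm_num
  have e2 : (12 : ℝ) * (-1 / 6) ^ 2 = 1 / 3 := by norm_num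
  rw [e1] at V1
  rw [e2] at V2
  set Y : ℂ := ((1 / 3 : ℝ) : ℂ) ^ (-((θ : ℂ) * I)) with hY
  set S12 : ℂ := ((Real.sqrt 12 * (1 / 6) : ℝ) : ℂ) with hS12
  have W1 := E.dat.W (1 / 2) (-θ) _ (by norm_num) (by norm_num [abs_of_pos]) (by
    have e3 : (1 : ℝ) / (((6 : ℕ) : ℝ) * (1 / 2)) = 1 / 2 + -1 / 6 := by norm_num
    have e4 : (4 + ((-θ : ℝ) : ℂ) * I) = 4 - θ * I := by push_cast; ring
    rw [e3, e4]
    exact V2)
  have V1' := V1.per (gs_per b 3) (-1)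
  have W2 := E.dat.W (-1 / 2) (-θ) _ (by norm_num) (by rw [abs_le]; constructor <;> norm_num) (by
    have e3 : (1 : ℝ) / (((6 : ℕ) : ℝ) * (-1 / 2)) = 1 / 2 + 1 / 6 + ((-1 : ℤ) : ℝ) := by
      push_cast
      norm_num
    have e4 : (4 + ((-θ : ℝ) : ℂ) * I) = 4 - θ * I := by push_cast; ring
    rw [e3, e4]
    exact V1')
  have W2' := W2.per (gs_per b 3) 1
  rw [if_pos (by norm_num)] at W1
  rw [if_neg (by norm_num)] at W2'
  have e5 : (-1 / 2 : ℝ) + ((1 : ℤ) : ℝ) = 1 / 2 := by push_cast; norm_num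
  have a3 : |(1 / 2 : ℝ)| = 1 / 2 := abs_of_pos (by norm_num)
  have a4 : |(-1 / 2 : ℝ)| = 1 / 2 := by
    rw [abs_of_neg (by norm_num)]
    norm_num
  have e6 : ((6 : ℕ) : ℝ) * (1 / 2) ^ 2 = 3 / 2 := by norm_num
  have e7 : ((6 : ℕ) : ℝ) * (-1 / 2) ^ 2 = 3 / 2 := by norm_num
  have e8 : (4 - ((-θ : ℝ) : ℂ) * I) = 4 + θ * I := by push_cast; ring
  have e9 : -(((-θ : ℝ) : ℂ) * I) = (θ : ℂ) * I := by push_cast; ring
  rw [a3, e6, e8, e9] at W1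
  rw [e5, a4, e7, e8, e9] at W2'
  set X : ℂ := ((3 / 2 : ℝ) : ℂ) ^ ((θ : ℂ) * I) with hX
  set S6 : ℂ := ((Real.sqrt ((6 : ℕ) : ℝ) * (1 / 2) : ℝ) : ℂ) with hS6
  have hYc : (starRingEnd ℂ) Y = ((1 / 3 : ℝ) : ℂ) ^ ((θ : ℂ) * I) :=
    conj_cpow_I (by norm_num) θ
  have hS12c : (starRingEnd ℂ) S12 = S12 := conj_ofReal _
  have hXY : X * (starRingEnd ℂ) Y = ((1 / 2 : ℝ) : ℂ) ^ ((θ : ℂ) * I) := by
    rw [hYc, hX, cpow_pos_mul (by norm_num) (by norm_num)]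
    norm_num
  have hSS : S6 * S12 = ((Real.sqrt 2 / 2 : ℝ) : ℂ) := by
    rw [hS6, hS12, ← ofReal_mul]
    congr 1
    have h6 : Real.sqrt ((6 : ℕ) : ℝ) = Real.sqrt 2 * Real.sqrt 3 := by
      rw [← Real.sqrt_mul (by norm_num)]
      norm_num
    have h12 : Real.sqrt 12 = 2 * Real.sqrt 3 := by
      have : (12 : ℝ) = 2 ^ 2 * 3 := by norm_num
      rw [this, Real.sqrt_mul (by norm_num), Real.sqrt_sq (by norm_num)]
    have h3 : Real.sqrt 3 * Real.sqrt 3 = 3 := Real.mul_self_sqrt (by norm_num)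
    rw [h6, h12]
    linear_combination (Real.sqrt 2 / 6) * h3
  have hT0 : ((1 / 2 : ℝ) : ℂ) ^ ((θ : ℂ) * I) ≠ 0 := by
    rw [Ne, cpow_eq_zero_iff]
    push Not
    intro h
    norm_num at h
  have hs2 : ((Real.sqrt 2 / 2 : ℝ) : ℂ) ≠ 0 := by
    have : (0 : ℝ) < Real.sqrt 2 / 2 := by positivity
    exact_mod_cast this.ne'
  have hkc : (starRingEnd ℂ) κ ≠ 0 := by
    intro h
    have := unit_conj E.kn
    rw [h, mul_zero] at this
    exact zero_ne_one this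
  refine ⟨?_, ?_⟩
  · have hu := W1.unique W2'
    simp only [map_mul, conj_conj, hS12c] at hu
    have h3 : (ηp * (starRingEnd ℂ) ηm - ηm * (starRingEnd ℂ) ηp) *
        ((starRingEnd ℂ) κ * (S6 * S12) * (X * (starRingEnd ℂ) Y) * ρ) = 0 := by
      linear_combination hu
    have h4 : (starRingEnd ℂ) κ * (S6 * S12) * (X * (starRingEnd ℂ) Y) * ρ ≠ 0 := by
      rw [hSS, hXY]
      exact mul_ne_zero (mul_ne_zero (mul_ne_zero hkc hs2) hT0) E.dat.rho0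
    exact sub_eq_zero.1 ((mul_eq_zero.1 h3).resolve_right h4)
  · convert W1 using 1
    simp only [map_mul, conj_conj, hS12c]
    rw [← hXY, ← hSS]
    ring

theorem half6 (E : DatV b 6 M θ ρ ηp ηm 2 κ) (c1 : ℂ) (hrel : HRel b c1 0)
    (hκ : κ = ((Real.sqrt 2 : ℝ) : ℂ) * c1) (hk2 : κ ^ 2 = 1 ∨ κ ^ 2 = -1) : False := by
  obtain ⟨he, hv⟩ := half6_val E
  have hk := unit_conj E.kn
  have hp := unit_conj E.dat.hp
  have hm := unit_conj E.dat.hm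
  set T : ℂ := ((1 / 2 : ℝ) : ℂ) ^ ((θ : ℂ) * I) with hT
  have h1 := RR.of_plus hv
  have h2 := RR.of_plus E.dat.zero
  have h3 := h2.scale 2 (by norm_num)
  have h4 := ((h2.smul (-1)).sub (h3.smul (16 * c1))).congr
    (ψ := fun y : ℝ => gs b 3 (y + ((1 / 2 : ℝ) : ℂ) * I)) (fun y hy => by
      have h5 := hrel (y : ℂ) (by simpa using hy)
      rw [h5]
      push_cast
      simp)
  have h6 := h1.unique_sum h4
  have hT2 : ((2 : ℝ) : ℂ) ^ (-(4 + (θ : ℂ) * I)) = 1 / 16 * T := by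
    have h20 : ((2 : ℝ) : ℂ) ≠ 0 := by norm_num
    have e1 : (-(4 + (θ : ℂ) * I)) = ((-4 : ℤ) : ℂ) + (-((θ : ℂ) * I)) := by push_cast; ring
    have e2 : ((2 : ℝ) : ℂ) ^ (-((θ : ℂ) * I)) = T := by
      have h8 : T * ((2 : ℝ) : ℂ) ^ ((θ : ℂ) * I) = 1 := by
        rw [hT, cpow_pos_mul (by norm_num) (by norm_num)]
        norm_num
      rw [cpow_neg]
      exact (eq_inv_of_mul_eq_one_left h8).symm
    rw [e1, cpow_add _ _ h20, cpow_intCast, e2]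
    norm_num
  rw [hT2] at h6
  have hs2 : ((Real.sqrt 2 : ℝ) : ℂ) * ((Real.sqrt 2 : ℝ) : ℂ) = 2 := by
    rw [← ofReal_mul, Real.mul_self_sqrt (by norm_num)]
    norm_num
  have h7 : (T * (ηp * (starRingEnd ℂ) ηm * (starRingEnd ℂ) κ + κ) + ((Real.sqrt 2 : ℝ) : ℂ)) *
      ρ = 0 := by
    have e3 : ((Real.sqrt 2 / 2 : ℝ) : ℂ) = ((Real.sqrt 2 : ℝ) : ℂ) / 2 := by push_cast; rfl
    rw [e3] at h6
    linear_combination ((Real.sqrt 2 : ℝ) : ℂ) * h6 -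
      (T * ηp * (starRingEnd ℂ) ηm * (starRingEnd ℂ) κ * ρ / 2) * hs2 + T * ρ * hκ
  have h8 := (mul_eq_zero.1 h7).resolve_right E.dat.rho0
  have hs0 : ((Real.sqrt 2 : ℝ) : ℂ) ≠ 0 := by
    intro h
    rw [h, mul_zero] at hs2
    norm_num at hs2
  have hE : (ηp * (starRingEnd ℂ) ηm) * (ηp * (starRingEnd ℂ) ηm) = 1 := by
    calc (ηp * (starRingEnd ℂ) ηm) * (ηp * (starRingEnd ℂ) ηm) =
        (ηm * (starRingEnd ℂ) ηp) * (ηp * (starRingEnd ℂ) ηm) := by rw [he]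
      _ = (ηm * (starRingEnd ℂ) ηm) * (ηp * (starRingEnd ℂ) ηp) := by ring
      _ = 1 := by rw [hm, hp, one_mul]
  have hκ0 : κ ≠ 0 := by
    rintro h
    rw [h, zero_mul] at hk
    exact zero_ne_one hk
  have hkc : (starRingEnd ℂ) κ = κ ∨ (starRingEnd ℂ) κ = -κ := by
    rcases hk2 with h | h
    · left
      exact mul_left_cancel₀ hκ0 (by rw [hk, ← sq, h])
    · right
      exact mul_left_cancel₀ hκ0 (by rw [hk]; linear_combination h)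
  have hTn : ‖T‖ = 1 := norm_cpow_I _ (by norm_num) θ
  have h9 : ηp * (starRingEnd ℂ) ηm * (starRingEnd ℂ) κ + κ = 0 ∨
      ηp * (starRingEnd ℂ) ηm * (starRingEnd ℂ) κ + κ = 2 * κ := by
    rcases mul_self_eq_one_iff.1 hE with h | h <;> rcases hkc with h' | h' <;> rw [h, h']
    · right; ring
    · left; ring
    · left; ring
    · right; ring
  rcases h9 with h9 | h9
  · rw [h9, mul_zero, zero_add] at h8
    exact hs0 h8
  · rw [h9] at h8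
    have h10 : ‖T * (2 * κ)‖ = ‖((Real.sqrt 2 : ℝ) : ℂ)‖ := by
      have : T * (2 * κ) = -((Real.sqrt 2 : ℝ) : ℂ) := by linear_combination h8
      rw [this, norm_neg]
    rw [norm_mul, norm_mul, hTn, E.kn, Complex.norm_real, Real.norm_of_nonneg (Real.sqrt_nonneg _)] at h10
    norm_num at h10
    have h11 : Real.sqrt 2 * Real.sqrt 2 = 2 := Real.mul_self_sqrt (by norm_num)
    rw [← h10] at h11
    norm_num at h11

end Pool.Agent.H11.SC6
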