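import Mathlib
import Pool.Agent.H11.SC5.Hid

/-!
# LOCP: two consequences of the identities, used for functions with a pole
-/

set_option autoImplicit false

namespace Pool.Agent.H11.SC6

open Complex Pool.Agent.H11.Selberg Pool.Agent.H11.SC

theorem c_zero {p : ℕ} {a c : ℕ → ℂ} (h1 : a 1 = 1)
    (hinv : ∀ k : ℕ, ∑ j ∈ Finset.range (k + 1), c j * a (p ^ (k - j)) = if k = 0 then 1 else 0) :
    c 0 = 1 := by
  have := hinv 0
  simpa [h1] using this

theorem rec_geo {p : ℕ} {a c : ℕ → ℂ} (h1 : a 1 = 1)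
    (hinv : ∀ k : ℕ, ∑ j ∈ Finset.range (k + 1), c j * a (p ^ (k - j)) = if k = 0 then 1 else 0)
    (h2 : ∀ k : ℕ, 2 ≤ k → c k = 0) (k : ℕ) : a (p ^ k) = (-c 1) ^ k := by
  have h0 := c_zero h1 hinv
  induction k with
  | zero => simpa using h1
  | succ k ih =>
    have h := hinv (k + 1)
    have e : ∑ j ∈ Finset.range (k + 1 + 1), c j * a (p ^ (k + 1 - j)) =
        ∑ j ∈ Finset.range 2, c j * a (p ^ (k + 1 - j)) := by
      symm
      apply Finset.sum_subset (Finset.range_subset_range.2 (by omega))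
      intro j _ hj
      rw [Finset.mem_range, not_lt] at hj
      rw [h2 j hj, zero_mul]
    rw [e, Finset.sum_range_succ, Finset.sum_range_one, h0, Nat.sub_zero, Nat.add_sub_cancel,
      if_neg (by omega), ih] at h
    rw [pow_succ (-c 1)]
    linear_combination h

theorem XX_three (l A : ℕ → ℂ) (p i r : ℕ) (h : ∀ k, 3 ≤ k → l k = 0) :
    XX l A p i r = ∑ k ∈ Finset.range 3,
      if r ≤ i + k then l k * (starRingEnd ℂ) (A (i + k - r)) * ((p : ℂ) ^ k)⁻¹ else 0 := by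
  unfold XX
  refine tsum_eq_sum fun k hk => ?_
  rw [Finset.mem_range, not_lt] at hk
  rw [h k hk]
  simp

theorem XX_two (l A : ℕ → ℂ) (p i r : ℕ) (h : ∀ k, 2 ≤ k → l k = 0) :
    XX l A p i r = ∑ k ∈ Finset.range 2,
      if r ≤ i + k then l k * (starRingEnd ℂ) (A (i + k - r)) * ((p : ℂ) ^ k)⁻¹ else 0 := by
  unfold XX
  refine tsum_eq_sum fun k hk => ?_
  rw [Finset.mem_range, not_lt] at hk
  rw [h k hk]
  simp

/-- `q = 5, 7`: the phase is bounded by one -/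
theorem loc57mm {a c2 c3 : ℕ → ℂ} (hl : Loc6 a c2 c3)
    (ham : ∀ ε : ℝ, 0 < ε → ∃ C : ℝ, ∀ n : ℕ, 1 ≤ n → ‖a n‖ ≤ C * (n : ℝ) ^ ε)
    (τ : ℂ)
    (hid : ∀ i j r s : ℕ,
      XX (l2 c2) (fun k => a (2 ^ k)) 2 i r * XX (l3 c3) (fun k => a (3 ^ k)) 3 j s =
        if r ≤ i + 2 ∧ s ≤ j + 2 then
          1 / 6 * cj a (2 ^ (i + 2 - r) * 3 ^ (j + 2 - s)) * mm τ (i + 2 - r) (j + 2 - s)
        else 0) :
    ‖mm τ 0 0‖ ≤ 1 := by
  have hc2 : ∀ k : ℕ, 3 ≤ k → c2 k = 0 := by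
    refine locA2 hl ham 3 (by norm_num) fun r s hr => ?_
    rw [hid, if_neg]
    omega
  have hc3 : ∀ k : ℕ, 3 ≤ k → c3 k = 0 := by
    refine locA3 hl ham 3 (by norm_num) fun r s hr => ?_
    rw [hid, if_neg]
    omega
  have hl2 : ∀ k, 3 ≤ k → l2 c2 k = 0 := fun k hk => by
    unfold l2; rw [hc2 k hk, if_neg (by omega)]; ring
  have hl3 : ∀ k, 3 ≤ k → l3 c3 k = 0 := fun k hk => by
    unfold l3; rw [hc3 k hk, if_neg (by omega)]; ring
  have l22 : l2 c2 2 = -2 * c2 2 := by unfold l2; rw [if_neg (by norm_num)]; ring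
  have l32 : l3 c3 2 = -3 * c3 2 := by unfold l3; rw [if_neg (by norm_num)]; ring
  have a1 : a (2 ^ 0) = 1 := by simpa using hl.one
  have b1 : a (3 ^ 0) = 1 := by simpa using hl.one
  have e1 : XX (l2 c2) (fun k => a (2 ^ k)) 2 0 2 = -c2 2 / 2 := by
    simp only [XX_three _ _ _ _ _ hl2, Finset.sum_range_succ, Finset.sum_range_zero, l22]
    rw [if_neg (by norm_num), if_neg (by norm_num), if_pos (by norm_num)]
    rw [show 0 + 2 - 2 = 0 from rfl, a1]
    simp only [map_one]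
    norm_num
    ring
  have e2 : XX (l3 c3) (fun k => a (3 ^ k)) 3 0 2 = -c3 2 / 3 := by
    simp only [XX_three _ _ _ _ _ hl3, Finset.sum_range_succ, Finset.sum_range_zero, l32]
    rw [if_neg (by norm_num), if_neg (by norm_num), if_pos (by norm_num)]
    rw [show 0 + 2 - 2 = 0 from rfl, b1]
    simp only [map_one]
    norm_num
    ring
  have h0 := hid 0 0 2 2
  rw [e1, e2, if_pos ⟨by omega, by omega⟩] at h0
  have hcj : cj a (2 ^ (0 + 2 - 2) * 3 ^ (0 + 2 - 2)) = 1 := by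
    unfold cj
    simp [hl.one]
  rw [hcj] at h0
  have h1 : mm τ 0 0 = c2 2 * c3 2 := by
    have h2 : mm τ (0 + 2 - 2) (0 + 2 - 2) = mm τ 0 0 := rfl
    rw [h2] at h0
    linear_combination (-6 : ℂ) * h0
  rw [h1, norm_mul]
  exact mul_le_one₀ (char_le_one 2 le_rfl a c2 hl.one ham hl.inv2 hc2) (norm_nonneg _)
    (char_le_one 3 (by norm_num) a c3 hl.one ham hl.inv3 hc3)

theorem ee_val (_n : ℕ) : ee (1 / 6) = 1 / 2 + ((Real.sqrt 3 / 2 : ℝ) : ℂ) * I := by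
  unfold ee
  have h : 2 * (Real.pi : ℂ) * I * (1 / 6) = ((Real.pi / 3 : ℝ) : ℂ) * I := by
    push_cast
    ring
  rw [h, Complex.exp_mul_I, ← Complex.ofReal_cos, ← Complex.ofReal_sin, Real.cos_pi_div_three,
    Real.sin_pi_div_three]
  push_cast
  ring

theorem ee_val' : ee (-(1 / 6)) = 1 / 2 - ((Real.sqrt 3 / 2 : ℝ) : ℂ) * I := by
  unfold ee
  have h : 2 * (Real.pi : ℂ) * I * (-(1 / 6)) = ((-(Real.pi / 3) : ℝ) : ℂ) * I := by
    push_cast
    ring
  rw [h, Complex.exp_mul_I, ← Complex.ofReal_cos, ← Complex.ofReal_sin, Real.cos_neg, Real.sin_neg,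
    Real.cos_pi_div_three, Real.sin_pi_div_three]
  push_cast
  ring

theorem ee_sq : ee (1 / 6) ^ 2 = ee (1 / 6) - 1 := by
  rw [ee_val 0]
  have h3 : ((Real.sqrt 3 : ℝ) : ℂ) ^ 2 = 3 := by
    rw [← Complex.ofReal_pow, Real.sq_sqrt (by norm_num)]
    norm_num
  push_cast
  linear_combination (1 / 4 : ℂ) * ((Real.sqrt 3 : ℝ) : ℂ) ^ 2 * Complex.I_sq - (1 / 4 : ℂ) * h3

theorem ee_conj : ee (-(1 / 6)) = 1 - ee (1 / 6) := by
  rw [ee_val 0, ee_val']
  ring

theorem ee_pow (n : ℕ) : ee ((n : ℂ) / 6) = ee (1 / 6) ^ n := by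
  unfold ee
  rw [← Complex.exp_nat_mul]
  congr 1
  ring

theorem ee_pow' (n : ℕ) : ee (-((n : ℂ) / 6)) = ee (-(1 / 6)) ^ n := by
  unfold ee
  rw [← Complex.exp_nat_mul]
  congr 1
  ring

/-- `e⁴ = 1` and the bound of the phase exclude `e = ± i` -/
theorem phase_sq (e : ℂ) (h4 : e ^ 4 = 1) (hb : ‖mm e 0 0‖ ≤ 1) : e ^ 2 = 1 := by
  have h1 : (e ^ 2 - 1) * (e ^ 2 + 1) = 0 := by linear_combination h4
  rcases mul_eq_zero.1 h1 with h2 | h2
  · linear_combination h2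
  · exfalso
    have h3 : e = I ∨ e = -I := by
      have h5 : (e - I) * (e + I) = 0 := by
        linear_combination h2 - I_sq
      rcases mul_eq_zero.1 h5 with h6 | h6
      · left; linear_combination h6
      · right; linear_combination h6
    have hs : Real.sqrt 3 * Real.sqrt 3 = 3 := Real.mul_self_sqrt (by norm_num)
    have hs1 : (1 : ℝ) < Real.sqrt 3 := by
      rw [Real.lt_sqrt (by norm_num)]
      norm_num
    have hm : ∀ τ : ℂ, mm τ 0 0 = τ * (1 / 2 - ((Real.sqrt 3 / 2 : ℝ) : ℂ) * I) +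
        (starRingEnd ℂ) τ * (1 / 2 + ((Real.sqrt 3 / 2 : ℝ) : ℂ) * I) := by
      intro τ
      unfold mm
      rw [ee_pow', ee_pow, ee_val 0, ee_val']
      norm_num
    have hn : ‖mm e 0 0‖ = Real.sqrt 3 := by
      rcases h3 with h3 | h3 <;> rw [hm, h3]
      · have : I * (1 / 2 - ((Real.sqrt 3 / 2 : ℝ) : ℂ) * I) +
          (starRingEnd ℂ) I * (1 / 2 + ((Real.sqrt 3 / 2 : ℝ) : ℂ) * I) =
            ((Real.sqrt 3 : ℝ) : ℂ) := by
          rw [conj_I]
          push_cast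
          linear_combination (-(Real.sqrt 3 : ℂ)) * I_sq
        rw [this, Complex.norm_real, Real.norm_of_nonneg (Real.sqrt_nonneg _)]
      · have : -I * (1 / 2 - ((Real.sqrt 3 / 2 : ℝ) : ℂ) * I) +
          (starRingEnd ℂ) (-I) * (1 / 2 + ((Real.sqrt 3 / 2 : ℝ) : ℂ) * I) =
            -((Real.sqrt 3 : ℝ) : ℂ) := by
          rw [map_neg, conj_I]
          push_cast
          linear_combination (Real.sqrt 3 : ℂ) * I_sq
        rw [this, norm_neg, Complex.norm_real, Real.norm_of_nonneg (Real.sqrt_nonneg _)]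
    rw [hn] at hb
    linarith

theorem euler7P {a c2 c3 : ℕ → ℂ} {ωm ωp : ℂ}
    (hl : Loc6 a c2 c3) (h : CStep 7 a ωm ωp)
    (ham : ∀ ε : ℝ, 0 < ε → ∃ C : ℝ, ∀ n : ℕ, 1 ≤ n → ‖a n‖ ≤ C * (n : ℝ) ^ ε) :
    ‖mm (-ωp * (starRingEnd ℂ) ωm) 0 0‖ ≤ 1 := by
  have h36 : (2 ^ 2 * 3 ^ 2 : ℕ) = 36 := by norm_num
  have hA : Asym 7 a (cj a) ωm (2 ^ 2 * 3 ^ 2) (((6 : ℂ) ^ 7)⁻¹ * (-ωp * (starRingEnd ℂ) ωm))
        (((6 : ℂ) ^ 7)⁻¹ * (starRingEnd ℂ) (-ωp * (starRingEnd ℂ) ωm)) := by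
    rw [h36]
    have := asym7 h
    simpa using this
  refine loc57mm hl ham _ (fun i j r s => ?_)
  rw [hid_gen (c := 2) (by norm_num) hl h ham (fun ε hε => cj_ram a ε (ham ε hε)) hA i j r s]
  by_cases hd : r ≤ i + 2 ∧ s ≤ j + 2
  · rw [if_pos hd, if_pos hd]
    unfold mm
    push_cast
    ring
  · rw [if_neg hd, if_neg hd]

theorem alg6b (α β ωm ωp κ : ℂ) (hωm : ‖ωm‖ = 1) (hκ : κ ≠ 0)
    (hα2 : ‖α‖ ^ 2 = 1 / 2)
    (Λ Θ : ℕ → ℂ) (hΛ0 : Λ 0 = α)
    (hΛ : ∀ k, Λ (k + 1) = ((starRingEnd ℂ) α) ^ k * (α * (starRingEnd ℂ) α - 1))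
    (hΘ0 : Θ 0 = β)
    (hΘ : ∀ k, Θ (k + 1) = ((starRingEnd ℂ) β) ^ k * (β * (starRingEnd ℂ) β - 1))
    (hid : ∀ i j : ℕ, Λ i * Θ j = κ * (α ^ i * β ^ j) * nn ωm ωp i j) :
    α ^ 2 = 1 / 2 ∨ α ^ 2 = -1 / 2 := by
  obtain ⟨w, hw⟩ : ∃ w, w = ee (1 / 6) := ⟨_, rfl⟩
  have hw2 : w ^ 2 = w - 1 := by rw [hw]; exact ee_sq
  have hw3 : w ^ 3 = -1 := by linear_combination (w + 1) * hw2
  have hv3 : (1 - w) ^ 3 = -1 := by linear_combination (-w + 2) * hw2
  obtain ⟨a, ha⟩ : ∃ a, a = (starRingEnd ℂ) ωm := ⟨_, rfl⟩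
  obtain ⟨b, hb⟩ : ∃ b, b = (starRingEnd ℂ) ωp := ⟨_, rfl⟩
  have ha0 : a ≠ 0 := by
    intro h
    have h1 : ‖a‖ = 1 := by rw [ha, RCLike.norm_conj, hωm]
    rw [h, norm_zero] at h1
    exact zero_ne_one h1
  have hnn : ∀ i j, nn ωm ωp i j = a * (1 - w) ^ (2 ^ i * 3 ^ j) - b * w ^ (2 ^ i * 3 ^ j) := by
    intro i j
    unfold nn
    rw [ee_pow, ee_pow', ee_conj, ← hw, ← ha, ← hb]
  obtain ⟨n0, hn0⟩ : ∃ n0, n0 = a * (1 - w) - b * w := ⟨_, rfl⟩
  obtain ⟨n1, hn1⟩ : ∃ n1, n1 = a * (1 - w) ^ 2 - b * w ^ 2 := ⟨_, rfl⟩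
  have e00 : nn ωm ωp 0 0 = n0 := by
    rw [hnn, hn0]
    norm_num
  have e10 : nn ωm ωp 1 0 = n1 := by
    rw [hnn, hn1]
    norm_num
  have e01 : nn ωm ωp 0 1 = n1 - n0 := by
    rw [hnn, hn1, hn0]
    norm_num
    rw [hw3, hv3]
    linear_combination (b - a) * hw2
  have e02 : nn ωm ωp 0 2 = n1 - n0 := by
    rw [hnn, hn1, hn0]
    norm_num
    have h9 : w ^ 9 = -1 := by
      calc w ^ 9 = (w ^ 3) ^ 3 := by ring
        _ = -1 := by rw [hw3]; norm_num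
    have h9' : (1 - w) ^ 9 = -1 := by
      calc (1 - w) ^ 9 = ((1 - w) ^ 3) ^ 3 := by ring
        _ = -1 := by rw [hv3]; norm_num
    rw [h9, h9']
    linear_combination (b - a) * hw2
  have h00 := hid 0 0
  rw [hΛ0, hΘ0, e00, pow_zero, pow_zero] at h00
  have h10 := hid 1 0
  rw [hΛ 0, hΘ0, e10, pow_zero, pow_zero, pow_one] at h10
  have h01 := hid 0 1
  rw [hΛ0, hΘ 0, e01, pow_zero, pow_zero, pow_one] at h01
  have h02 := hid 0 2
  rw [hΛ0, hΘ 1, e02, pow_one, pow_zero] at h02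
  have haa : α * (starRingEnd ℂ) α = 1 / 2 := by
    rw [Complex.mul_conj']
    have : ((‖α‖ ^ 2 : ℝ) : ℂ) = ((1 / 2 : ℝ) : ℂ) := by rw [hα2]
    push_cast at this
    exact this
  have hα0 : α ≠ 0 := by
    rintro rfl
    rw [zero_mul] at haa
    norm_num at haa
  rw [haa] at h10
  by_cases hβ : β = 0
  · exfalso
    rw [hβ] at h00 h10
    have h1 : n0 = 0 := by
      have h2 : κ * n0 = 0 := by linear_combination -h00
      exact (mul_eq_zero.1 h2).resolve_left hκ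
    have h2 : n1 = 0 := by
      have h3 : κ * α * n1 = 0 := by linear_combination -h10
      exact (mul_eq_zero.1 h3).resolve_left (mul_ne_zero hκ hα0)
    rw [hn0] at h1
    rw [hn1] at h2
    have h3 : a * (w + 1) = 0 := by linear_combination w * h1 - h2 + 2 * a * hw2
    rcases mul_eq_zero.1 h3 with h4 | h4
    · exact ha0 h4
    · have h5 : (3 : ℂ) = 0 := by linear_combination hw2 - (w - 2) * h4
      norm_num at h5
  set βc := (starRingEnd ℂ) β with hβc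
  have k1 : κ * n0 = α * β := by linear_combination -h00
  have k2 : 2 * κ * α * n1 = -β := by linear_combination (-2 : ℂ) * h10
  -- `κ β (n1 - n0) (βc - β) = 0`
  have k3 : (κ * β * (n1 - n0)) * (βc - β) = 0 := by
    linear_combination βc * (-1 : ℂ) * h01 + h02
  rcases mul_eq_zero.1 k3 with k4 | k4
  · right
    have k5 : n1 - n0 = 0 := (mul_eq_zero.1 k4).resolve_left (mul_ne_zero hκ hβ)
    have k6 : β * (2 * α ^ 2 + 1) = 0 := by
      linear_combination (-2 * α) * k1 + k2 * (1 : ℂ) - 2 * κ * α * k5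
    have k7 := (mul_eq_zero.1 k6).resolve_left hβ
    linear_combination (1 / 2 : ℂ) * k7
  · have k5 : βc = β := by linear_combination k4
    rw [k5] at h01
    obtain ⟨x, hx⟩ : ∃ x, x = 2 * α ^ 2 := ⟨_, rfl⟩
    have k6 : x = β ^ 2 * (1 + 2 * x) := by
      rw [hx]
      linear_combination (-2 * α) * h01 + 2 * α * β * k1 - β * k2
    have hxx : x * (starRingEnd ℂ) x = 1 := by
      have e1 : (starRingEnd ℂ) x = 2 * (starRingEnd ℂ) α ^ 2 := by
        rw [hx, map_mul, map_pow]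
        congr 1
        exact Complex.conj_ofNat 2
      rw [e1, hx]
      linear_combination (4 * (α * (starRingEnd ℂ) α + 1 / 2)) * haa
    have k7 : (starRingEnd ℂ) x = β ^ 2 * (1 + 2 * (starRingEnd ℂ) x) := by
      have h5 := congrArg (starRingEnd ℂ) k6
      rw [map_mul, map_pow, map_add, map_mul, map_one, ← hβc, k5] at h5
      have h6 : (starRingEnd ℂ) (2 : ℂ) = 2 := Complex.conj_ofNat 2
      rw [h6] at h5
      exact h5
    have k8 : β ^ 2 * ((starRingEnd ℂ) x - x) = 0 := by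
      linear_combination x * k7 - (starRingEnd ℂ) x * k6
    have k9 := (mul_eq_zero.1 k8).resolve_left (pow_ne_zero 2 hβ)
    have k10 : x * x = 1 := by linear_combination hxx - x * k9
    rcases mul_self_eq_one_iff.1 k10 with h | h
    · left
      linear_combination (1 / 2 : ℂ) * h - (1 / 2 : ℂ) * hx
    · right
      linear_combination (1 / 2 : ℂ) * h - (1 / 2 : ℂ) * hx

theorem euler6P {a c2 c3 : ℕ → ℂ} {ωm ωp : ℂ}
    (hl : Loc6 a c2 c3) (h : CStep 6 a ωm ωp)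
    (ham : ∀ ε : ℝ, 0 < ε → ∃ C : ℝ, ∀ n : ℕ, 1 ≤ n → ‖a n‖ ≤ C * (n : ℝ) ^ ε) :
    c2 1 ^ 2 = 1 / 2 ∨ c2 1 ^ 2 = -1 / 2 := by
  have h6 : (2 ^ 1 * 3 ^ 1 : ℕ) = 6 := by norm_num
  have hs : ((Real.sqrt 6 : ℝ) : ℂ) ≠ 0 := by
    have : (0 : ℝ) < Real.sqrt 6 := Real.sqrt_pos.2 (by norm_num)
    exact_mod_cast this.ne'
  have hκ : (-I / (Real.sqrt 6 : ℝ) : ℂ) ≠ 0 := div_ne_zero (neg_ne_zero.2 I_ne_zero) hs
  have hnorm := (euler6 hl h ham).2
  have hid : ∀ i j r s : ℕ,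
      XX (l2 c2) (fun k => a (2 ^ k)) 2 i r * XX (l3 c3) (fun k => a (3 ^ k)) 3 j s =
        if r ≤ i + 1 ∧ s ≤ j + 1 then
          (-I / (Real.sqrt 6 : ℝ)) * a (2 ^ (i + 1 - r) * 3 ^ (j + 1 - s)) *
            nn ωm ωp (i + 1 - r) (j + 1 - s)
        else 0 := by
    intro i j r s
    have hA := asym6 h
    rw [← h6] at hA
    rw [hid_gen (c := 1) (by norm_num) hl h ham ham hA i j r s]
    by_cases hd : r ≤ i + 1 ∧ s ≤ j + 1
    · rw [if_pos hd, if_pos hd]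
      unfold nn
      push_cast
      field_simp
      ring
    · rw [if_neg hd, if_neg hd]
  have hc2 : ∀ k : ℕ, 2 ≤ k → c2 k = 0 := by
    refine locA2 hl ham 2 (by norm_num) fun r s hr => ?_
    rw [hid, if_neg]
    omega
  have hc3 : ∀ k : ℕ, 2 ≤ k → c3 k = 0 := by
    refine locA3 hl ham 2 (by norm_num) fun r s hr => ?_
    rw [hid, if_neg]
    omega
  have z2 := c_zero hl.one hl.inv2
  have z3 := c_zero hl.one hl.inv3
  have hl2 : ∀ k, 2 ≤ k → l2 c2 k = 0 := fun k hk => by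
    unfold l2; rw [hc2 k hk, if_neg (by omega)]; ring
  have hl3 : ∀ k, 2 ≤ k → l3 c3 k = 0 := fun k hk => by
    unfold l3; rw [hc3 k hk, if_neg (by omega)]; ring
  have l20 : l2 c2 0 = -1 := by unfold l2; rw [z2, if_pos rfl]; ring
  have l21 : l2 c2 1 = -2 * c2 1 := by unfold l2; rw [if_neg (by norm_num)]; ring
  have l30 : l3 c3 0 = -1 := by unfold l3; rw [z3, if_pos rfl]; ring
  have l31 : l3 c3 1 = -3 * c3 1 := by unfold l3; rw [if_neg (by norm_num)]; ring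
  have hA := rec_geo hl.one hl.inv2 hc2
  have hB := rec_geo hl.one hl.inv3 hc3
  have hmain := alg6b (-c2 1) (-c3 1) ωm ωp (-I / (Real.sqrt 6 : ℝ)) h.hm hκ
    (by rw [norm_neg]; exact hnorm)
    (fun i => XX (l2 c2) (fun k => a (2 ^ k)) 2 i 1)
    (fun j => XX (l3 c3) (fun k => a (3 ^ k)) 3 j 1)
    (by
      simp only [XX_two _ _ _ _ _ hl2, Finset.sum_range_succ, Finset.sum_range_zero, l21, hA]
      rw [if_neg (by norm_num), if_pos (by norm_num)]
      rw [show 0 + 1 - 1 = 0 from rfl]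
      simp only [pow_zero, map_one]
      norm_num
      ring)
    (fun k => by
      simp only [XX_two _ _ _ _ _ hl2, Finset.sum_range_succ, Finset.sum_range_zero, l20, l21, hA]
      rw [if_pos (by omega), if_pos (by omega)]
      rw [show k + 1 + 0 - 1 = k from by omega, show k + 1 + 1 - 1 = k + 1 from by omega]
      simp only [map_pow, map_neg]
      norm_num
      ring)
    (by
      simp only [XX_two _ _ _ _ _ hl3, Finset.sum_range_succ, Finset.sum_range_zero, l31, hB]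
      rw [if_neg (by norm_num), if_pos (by norm_num)]
      rw [show 0 + 1 - 1 = 0 from rfl]
      simp only [pow_zero, map_one]
      norm_num
      ring)
    (fun k => by
      simp only [XX_two _ _ _ _ _ hl3, Finset.sum_range_succ, Finset.sum_range_zero, l30, l31, hB]
      rw [if_pos (by omega), if_pos (by omega)]
      rw [show k + 1 + 0 - 1 = k from by omega, show k + 1 + 1 - 1 = k + 1 from by omega]
      simp only [map_pow, map_neg]
      norm_num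
      ring)
    (fun i j => by
      rw [hid, if_pos ⟨by omega, by omega⟩, Nat.add_sub_cancel, Nat.add_sub_cancel,
        hl.mul _ _ (by positivity) (Nat.Coprime.pow _ _ (by norm_num)), hA, hB])
  simpa using hmain

end Pool.Agent.H11.SC6
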