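import Mathlib
import Pool.Agent.H11.SC6.Concl57
import Pool.Agent.H11.SC6.Half6
import Pool.Agent.H11.SC6.LocP
import Pool.Agent.H11.SC6.CStepP
import Pool.Agent.H11.SC5.Final5
import Pool.Agent.H39.Pol.MainP

/-!
# POLE567: the coefficients of an element with a pole, conductors `5`, `6`, `7` (assembly)
-/

set_option autoImplicit false

namespace Pool.Agent.H11.SC6

open Complex Filter Topology Pool.Agent.H11.Selberg Pool.Agent.H11.SC Pool.Agent.H39.Pol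

/-- **The coefficients.**  `F` of degree `2`, conductor `5`, `6` or `7`, with a pole. -/
theorem pole_coeff567 (a : ℕ → ℂ) (F : ℂ → ℂ) (hS : IsSelberg a F)
    (hpole : ¬ ∃ G : ℂ → ℂ, Differentiable ℂ G ∧ ∀ s, s ≠ 1 → G s = F s)
    (Q : ℝ) (r : ℕ) (lam : Fin r → ℝ) (mu : Fin r → ℂ) (ε : ℂ)
    (hQ : 0 < Q) (hlam : ∀ j, 0 < lam j) (hmu : ∀ j, 0 ≤ (mu j).re) (hε : ‖ε‖ = 1)
    (hfe : ∀ s : ℂ, 0 < s.re → s.re < 1 →
      completed Q lam mu F s =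
        ε * (starRingEnd ℂ) (completed Q lam mu F (1 - (starRingEnd ℂ) s)))
    (hdeg : 2 * ∑ j, lam j = 2) (q : ℕ) (hq : q = 5 ∨ q = 6 ∨ q = 7)
    (hcond : (2 * Real.pi) ^ 2 * Q ^ 2 * ∏ j, (lam j) ^ (2 * lam j) = q) :
    ∃ (τ : ℝ) (χ : DirichletCharacter ℂ q), q ≠ 6 ∧ χ ≠ 1 ∧ ∀ p : ℕ, p.Prime → ∀ k : ℕ,
      a (p ^ k) = ∑ i ∈ Finset.range (k + 1),
        (χ (p : ZMod q) * (p : ℂ) ^ (-((τ : ℝ) * I) : ℂ)) ^ i := by
  obtain ⟨δ, M, ωp, ωm, Rp, Rm, C, h, one, mul, loc, two⟩ :=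
    inv_data a F hS hpole Q r lam mu ε hQ hlam hmu hε hfe hdeg q hcond
  set b : ℕ → ℂ := fun n => a n * (n : ℂ) ^ (-(δ * I) : ℂ) with hb
  obtain ⟨c2, c3, hl⟩ := loc6_exists a F hS
  obtain ⟨c2', c3', hl'⟩ := hl.twist δ
  have hst := cstep_of_inv2 h
  have hsq : Real.sqrt (q : ℝ) ^ 2 = q := Real.sq_sqrt (Nat.cast_nonneg q)
  rw [hsq] at hst
  have hram := h.ram
  have hram1 : ∃ C : ℝ, ∀ n : ℕ, 1 ≤ n → ‖b n‖ ≤ C * (n : ℝ) ^ (1 : ℝ) := hram 1 one_pos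
  have q4 : q ≠ 4 := by omega
  have e57 : (q = 5 ∨ q = 7) → ∃ (ρ κ : ℂ),
      DatV b q M (-δ) ρ (I * ωp) (-(I * ωm)) 4 κ := by
    intro h57
    obtain ⟨h3, hn, hc⟩ := euler57 (q := (q : ℝ))
      (by rcases h57 with rfl | rfl <;> norm_num) hl' hst hram
    have hrel := half_rel b c2' c3' hl' h3 hram1
    obtain ⟨ρ, hD⟩ := datV_of h q q4 hsq one mul loc two 4 (c2' 1) (c2' 2) (c2' 2)
      (Or.inl ⟨rfl, rfl, hn, hc⟩) hrel
    exact ⟨ρ, _, hD⟩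
  have main : (q = 5 ∨ q = 7) → ∃ χ : DirichletCharacter ℂ q, χ ≠ 1 ∧
      ∀ p : ℕ, p.Prime → ∀ k : ℕ, b (p ^ k) * (tp p (-δ)) ^ k =
        ∑ i ∈ Finset.range (k + 1), (χ (p : ZMod q) * (tp p (-δ)) ^ 2) ^ i := by
    intro h57
    obtain ⟨ρ, κ, E⟩ := e57 h57
    refine concl57 E h57 ?_
    rcases h57 with rfl | rfl
    · exact (con5 E).1
    · refine phase_sq _ (con7 E).1 ?_
      have h8 := euler7P hl' (by exact_mod_cast hst) hram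
      have e1 : -(I * ωm) * (starRingEnd ℂ) (I * ωp) = -ωm * (starRingEnd ℂ) ωp := by
        rw [map_mul, conj_I]
        linear_combination (ωm * (starRingEnd ℂ) ωp) * I_sq
      rw [e1]
      exact h8
  have fin : (q = 5 ∨ q = 7) → ∃ (τ : ℝ) (χ : DirichletCharacter ℂ q), q ≠ 6 ∧ χ ≠ 1 ∧
      ∀ p : ℕ, p.Prime → ∀ k : ℕ, a (p ^ k) = ∑ i ∈ Finset.range (k + 1),
        (χ (p : ZMod q) * (p : ℂ) ^ (-((τ : ℝ) * I) : ℂ)) ^ i := by
    intro h57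
    obtain ⟨χ, hχ, hc⟩ := main h57
    refine ⟨2 * (-δ), χ, by omega, hχ, ?_⟩
    intro p hp k
    rw [← tp_sq p hp (-δ), ← untwist a δ p hp k]
    exact hc p hp k
  rcases hq with rfl | rfl | rfl
  · exact fin (Or.inl rfl)
  · exfalso
    have hst6 : CStep 6 b ωp ωm := by exact_mod_cast hst
    obtain ⟨h2, hn⟩ := euler6 hl' hst6 hram
    have hrel := half_rel b c2' c3' hl' (fun k hk => h2 k (by omega)) hram1
    rw [h2 2 le_rfl] at hrel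
    obtain ⟨ρ, E⟩ := datV_of h 6 q4 hsq one mul loc two 2 (c2' 1) 0
      (((Real.sqrt 2 : ℝ) : ℂ) * c2' 1) (Or.inr ⟨rfl, rfl, rfl, hn⟩) hrel
    refine half6 E (c2' 1) hrel rfl ?_
    have hs2 : ((Real.sqrt 2 : ℝ) : ℂ) * ((Real.sqrt 2 : ℝ) : ℂ) = 2 := by
      rw [← ofReal_mul, Real.mul_self_sqrt (by norm_num)]
      norm_num
    rcases euler6P hl' hst6 hram with h5 | h5
    · left
      linear_combination (c2' 1 ^ 2) * hs2 + 2 * h5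
    · right
      linear_combination (c2' 1 ^ 2) * hs2 + 2 * h5
  · exact fin (Or.inr rfl)

end Pool.Agent.H11.SC6
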