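import Mathlib
import Pool.Agent.H11.Selberg.Defs

/-!
# PRIMDEF: primitive elements of the Selberg class
-/

set_option autoImplicit false

namespace Pool.Agent.H11.Selberg

/-- `(a, F)` is a primitive element of the Selberg class: `F` is not the constant `1`, and in every
factorisation `F = F1 F2` with `F1`, `F2` in the Selberg class one of the factors is the constant
`1` (equalities in the half plane of absolute convergence `Re s > 1`). -/
def IsPrimitive (a : ℕ → ℂ) (F : ℂ → ℂ) : Prop :=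
  IsSelberg a F ∧ (∃ s : ℂ, 1 < s.re ∧ F s ≠ 1) ∧
  ∀ (a1 a2 : ℕ → ℂ) (F1 F2 : ℂ → ℂ), IsSelberg a1 F1 → IsSelberg a2 F2 →
    (∀ s : ℂ, 1 < s.re → F s = F1 s * F2 s) →
    (∀ s : ℂ, 1 < s.re → F1 s = 1) ∨ (∀ s : ℂ, 1 < s.re → F2 s = 1)

end Pool.Agent.H11.Selberg
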