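import Mathlib
import Pool.Agent.H11.SC6.PrimDef
import Pool.Agent.H11.SC7.Asm
import Pool.Agent.H11.SC6.Pole567
import Pool.Agent.H11.SC6.Char57

/-!
# PRIM7: an element of degree `2`, conductor at most `7`, with a pole is not primitive
-/

set_option autoImplicit false

namespace Pool.Agent.H11.SC6

open Complex Pool.Agent.H11.Selberg Pool.Agent.H39.Pol Pool.Agent.H11.SC7

theorem lseries_ne_one (f : ℕ → ℂ) (n : ℕ) (hn : 2 ≤ n) (hf : f n ≠ 0) (F : ℂ → ℂ)
    (hS : IsSelberg f F) : ¬ ∀ s : ℂ, 1 < s.re → F s = 1 := by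
  intro h
  have hf1 : LSeries.abscissaOfAbsConv f < ⊤ := by
    have h1 := (hS.summable 2 (by norm_num)).abscissaOfAbsConv_le
    exact lt_of_le_of_lt h1 (by exact_mod_cast EReal.coe_lt_top _)
  have hd1 : LSeries.abscissaOfAbsConv LSeries.delta < ⊤ := by
    have h1 : LSeriesSummable LSeries.delta 2 := by
      unfold LSeriesSummable
      refine summable_of_ne_finset_zero (s := {1}) (fun b hb => ?_)
      rw [LSeries.term_delta, if_neg (by simpa using hb)]
    exact lt_of_le_of_lt h1.abscissaOfAbsConv_le (by exact_mod_cast EReal.coe_lt_top _)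
  have h2 := LSeries.eq_of_LSeries_eventually_eq hf1 hd1 (by
    filter_upwards [Filter.eventually_gt_atTop (1 : ℝ)] with x hx
    rw [← hS.eq_LSeries x (by simpa using hx), h x (by simpa using hx), LSeries_delta]
    rfl) (n := n) (by omega)
  rw [h2] at hf
  apply hf
  unfold LSeries.delta
  rw [if_neg (by omega)]

theorem chi3_exists : ∃ χ : DirichletCharacter ℂ 3, χ ≠ 1 ∧
    ∀ p : ℕ, p.Prime → χ (p : ZMod 3) = chq 3 p := by
  have hg1 : ∀ x : (ZMod 3)ˣ, ∃ k : Fin 2, (-1 : (ZMod 3)ˣ) ^ (k : ℕ) = x := by decide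
  obtain ⟨χ, hχ⟩ := char_gen 3 (-1) (fun x => by
    obtain ⟨k, hk⟩ := hg1 x
    exact ⟨(k : ℕ), by simpa using hk⟩) 2 (by
    rw [orderOf_eq_iff (by norm_num)]
    refine ⟨by decide, fun m h1 h2 => ?_⟩
    interval_cases m
    decide) (-1) (by norm_num) (by norm_num)
  have hm : χ (-1) = -1 := by simpa using hχ
  refine ⟨χ, ?_, ?_⟩
  · rintro rfl
    rw [MulChar.one_apply (by decide)] at hm
    norm_num at hm
  · intro p hp
    unfold chq
    rw [if_neg (by norm_num)]
    have h3 : p % 3 = 0 ∨ p % 3 = 1 ∨ p % 3 = 2 := by omega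
    have e : (p : ZMod 3) = ((p % 3 : ℕ) : ZMod 3) := by simp
    rcases h3 with h3 | h3 | h3
    · rw [if_neg (by
        intro hc
        have := Nat.Coprime.eq_one_of_dvd hc.symm (Nat.dvd_of_mod_eq_zero h3)
        norm_num at this), e, h3, Nat.cast_zero]
      exact χ.map_nonunit (by decide)
    · rw [if_pos (by rw [Nat.coprime_comm, Nat.prime_three.coprime_iff_not_dvd]; omega), e, h3]
      unfold chi
      rw [if_pos (by omega)]
      simp
    · rw [if_pos (by rw [Nat.coprime_comm, Nat.prime_three.coprime_iff_not_dvd]; omega), e, h3]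
      unfold chi
      rw [if_neg (by omega), ← hm]
      congr 1

theorem chi4_exists : ∃ χ : DirichletCharacter ℂ 4, χ ≠ 1 ∧ χ.IsPrimitive ∧
    ∀ p : ℕ, p.Prime → χ (p : ZMod 4) = chq 4 p := by
  have hg1 : ∀ x : (ZMod 4)ˣ, ∃ k : Fin 2, (-1 : (ZMod 4)ˣ) ^ (k : ℕ) = x := by decide
  obtain ⟨χ, hχ⟩ := char_gen 4 (-1) (fun x => by
    obtain ⟨k, hk⟩ := hg1 x
    exact ⟨(k : ℕ), by simpa using hk⟩) 2 (by
    rw [orderOf_eq_iff (by norm_num)]
    refine ⟨by decide, fun m h1 h2 => ?_⟩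
    interval_cases m
    decide) (-1) (by norm_num) (by norm_num)
  have hm : χ (-1) = -1 := by simpa using hχ
  refine ⟨χ, ?_, ?_, ?_⟩
  · rintro rfl
    rw [MulChar.one_apply (by decide)] at hm
    norm_num at hm
  · have h1 : χ ≠ 1 := by
      rintro rfl
      rw [MulChar.one_apply (by decide)] at hm
      norm_num at hm
    have h2 := χ.conductor_dvd_level
    have h3 : χ.conductor = 1 ∨ χ.conductor = 2 ∨ χ.conductor = 4 := by
      have h4 := Nat.le_of_dvd (by norm_num) h2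
      interval_cases h5 : χ.conductor <;> simp_all
    rcases h3 with h3 | h3 | h3
    · exact absurd (DirichletCharacter.eq_one_iff_conductor_eq_one.2 h3) h1
    · exfalso
      have h4 := χ.factorsThrough_conductor
      rw [h3] at h4
      have h5 := h4.eq_changeLevel
      have h6 := DirichletCharacter.changeLevel_eq_cast_of_dvd h4.χ₀ h4.dvd (-1 : (ZMod 4)ˣ)
      rw [← h5] at h6
      have h7 : χ (((-1 : (ZMod 4)ˣ) : ZMod 4)) = -1 := hχ
      rw [h7] at h6
      have h8 : (ZMod.cast (((-1 : (ZMod 4)ˣ) : ZMod 4)) : ZMod 2) = 1 := by decide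
      rw [h8, map_one] at h6
      norm_num at h6
    · exact h3
  · intro p hp
    unfold chq
    rw [if_neg (by norm_num)]
    have h3 : p % 4 = 0 ∨ p % 4 = 1 ∨ p % 4 = 2 ∨ p % 4 = 3 := by omega
    have e : (p : ZMod 4) = ((p % 4 : ℕ) : ZMod 4) := by simp
    have hodd : p % 2 = 1 → Nat.Coprime p 4 := by
      intro h
      have h4 : Nat.Coprime p 2 := by
        rw [Nat.coprime_comm, Nat.prime_two.coprime_iff_not_dvd]
        omega
      exact Nat.Coprime.pow_right 2 h4
    have heven : p % 2 = 0 → ¬ Nat.Coprime p 4 := by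
      intro h hc
      have h4 := Nat.Coprime.eq_one_of_dvd (Nat.Coprime.coprime_dvd_right
        (by norm_num : 2 ∣ 4) hc).symm (Nat.dvd_of_mod_eq_zero h)
      norm_num at h4
    rcases h3 with h3 | h3 | h3 | h3
    · rw [if_neg (heven (by omega)), e, h3, Nat.cast_zero]
      exact χ.map_nonunit (by decide)
    · rw [if_pos (hodd (by omega)), e, h3]
      unfold chi
      rw [if_pos (by omega)]
      simp
    · rw [if_neg (heven (by omega)), e, h3]
      exact χ.map_nonunit (by decide)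
    · rw [if_pos (hodd (by omega)), e, h3]
      unfold chi
      rw [if_neg (by omega), ← hm]
      congr 1

theorem prime_primitive {q : ℕ} (hq : q.Prime) (χ : DirichletCharacter ℂ q) (hχ : χ ≠ 1) :
    χ.IsPrimitive := by
  have : NeZero q := ⟨hq.ne_zero⟩
  rcases (Nat.dvd_prime hq).1 χ.conductor_dvd_level with h | h
  · exact absurd (DirichletCharacter.eq_one_iff_conductor_eq_one.2 h) hχ
  · exact h

/-- an element with the coefficients of `ζ(s) L(s + iτ, χ)` is not primitive -/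
theorem not_primitive_L (a : ℕ → ℂ) (F : ℂ → ℂ) (hS : IsSelberg a F) {N : ℕ} [NeZero N]
    (χ : DirichletCharacter ℂ N) (hχ : χ.IsPrimitive) (h1 : χ ≠ 1) (τ : ℝ)
    (hc : ∀ p : ℕ, p.Prime → ∀ k : ℕ, a (p ^ k) = ∑ i ∈ Finset.range (k + 1),
      (χ (p : ZMod N) * (p : ℂ) ^ (-((τ : ℂ) * I))) ^ i) : ¬ IsPrimitive a F := by
  rintro ⟨-, -, h⟩
  have hL := isSelberg_L χ hχ h1 τ
  have hp : ∃ p : ℕ, p.Prime ∧ Nat.Coprime p N := by
    obtain ⟨p, hp1, hp2⟩ := Nat.exists_infinite_primes (N + 1)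
    refine ⟨p, hp2, ?_⟩
    rw [Nat.Prime.coprime_iff_not_dvd hp2]
    intro h3
    have := Nat.le_of_dvd (Nat.pos_of_ne_zero (NeZero.ne N)) h3
    omega
  rcases h _ _ _ _ isSelberg_zeta hL (factor_zeta_L a F hS χ τ hc) with h2 | h2
  · exact lseries_ne_one _ 2 le_rfl one_ne_zero _ isSelberg_zeta h2
  · obtain ⟨p, hp1, hp2⟩ := hp
    refine lseries_ne_one _ p hp1.two_le ?_ _ hL h2
    have hpc : (p : ℂ) ≠ 0 := by exact_mod_cast hp1.ne_zero
    refine mul_ne_zero ?_ (by rw [Ne, cpow_eq_zero_iff]; tauto)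
    have h3 := DirichletCharacter.unit_norm_eq_one χ (ZMod.unitOfCoprime p hp2)
    intro h4
    rw [ZMod.coe_unitOfCoprime, h4, norm_zero] at h3
    exact zero_ne_one h3

/-- with a pole and conductor at most `7`: not primitive -/
theorem pole_not_primitive (a : ℕ → ℂ) (F : ℂ → ℂ) (hS : IsSelberg a F)
    (hpole : ¬ ∃ G : ℂ → ℂ, Differentiable ℂ G ∧ ∀ s, s ≠ 1 → G s = F s)
    (Q : ℝ) (r : ℕ) (lam : Fin r → ℝ) (mu : Fin r → ℂ) (ε : ℂ)
    (hQ : 0 < Q) (hlam : ∀ j, 0 < lam j) (hmu : ∀ j, 0 ≤ (mu j).re) (hε : ‖ε‖ = 1)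
    (hfe : ∀ s : ℂ, 0 < s.re → s.re < 1 →
      completed Q lam mu F s =
        ε * (starRingEnd ℂ) (completed Q lam mu F (1 - (starRingEnd ℂ) s)))
    (hdeg : 2 * ∑ j, lam j = 2) (N : ℕ) (hN : N ≤ 7)
    (hcond : (2 * Real.pi) ^ 2 * Q ^ 2 * ∏ j, (lam j) ^ (2 * lam j) = N) :
    ¬ IsPrimitive a F := by
  have hN0 : N ≠ 0 := by
    rintro rfl
    have h1 : 0 < (2 * Real.pi) ^ 2 * Q ^ 2 * ∏ j, (lam j) ^ (2 * lam j) := by
      have h2 : 0 < ∏ j, (lam j) ^ (2 * lam j) :=
        Finset.prod_pos (fun j _ => Real.rpow_pos_of_pos (hlam j) _)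
      have := Real.pi_pos
      positivity
    rw [hcond] at h1
    norm_num at h1
  have hcases : (N = 1 ∨ N = 2 ∨ N = 3 ∨ N = 4) ∨ (N = 5 ∨ N = 6 ∨ N = 7) := by omega
  rcases hcases with h | h
  · obtain ⟨τ, h2, h1, hc⟩ := pole_coeff a F hS hpole Q r lam mu ε hQ hlam hmu hε hfe hdeg N h hcond
    rcases h with rfl | rfl | rfl | rfl
    · -- `F = ζ²`
      rintro ⟨-, -, h⟩
      have hτ := h1 rfl
      subst hτ
      have hf := factor_zeta_L a F hS (1 : DirichletCharacter ℂ 1) 0 (fun p hp k => by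
        rw [hc p hp k]
        refine Finset.sum_congr rfl (fun i _ => ?_)
        congr 2
        unfold chq
        rw [if_pos rfl]
        have h1 : ((p : ℕ) : ZMod 1) = 1 := Subsingleton.elim _ _
        rw [h1, map_one])
      rcases h _ _ _ _ isSelberg_zeta isSelberg_zeta (fun s hs => by
        rw [hf s hs]
        congr 1
        simp [DirichletCharacter.LFunction_modOne_eq]) with h3 | h3 <;>
      exact lseries_ne_one _ 2 le_rfl one_ne_zero _ isSelberg_zeta h3
    · exact absurd rfl h2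
    · obtain ⟨χ, hχ, hχc⟩ := chi3_exists
      exact not_primitive_L a F hS χ (prime_primitive Nat.prime_three χ hχ) hχ τ (fun p hp k => by
        rw [hc p hp k, hχc p hp])
    · obtain ⟨χ, hχ, hχp, hχc⟩ := chi4_exists
      exact not_primitive_L a F hS χ hχp hχ τ (fun p hp k => by
        rw [hc p hp k, hχc p hp])
  · obtain ⟨τ, χ, h6, hχ, hc⟩ :=
      pole_coeff567 a F hS hpole Q r lam mu ε hQ hlam hmu hε hfe hdeg N h hcond
    have hp : N.Prime := by
      rcases h with rfl | rfl | rfl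
      · norm_num
      · exact absurd rfl h6
      · norm_num
    have : NeZero N := ⟨hN0⟩
    exact not_primitive_L a F hS χ (prime_primitive hp χ hχ) hχ τ hc

end Pool.Agent.H11.SC6
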