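import Mathlib
import Pool.Agent.H11.SC6.Prim7
import Pool.Agent.H11.SC4.Final4
import Pool.Agent.H11.SC5.Final5

/-!
# FINAL7: the formula for every primitive element of degree `2` and integer conductor at most `7`
-/

set_option autoImplicit false

namespace Pool.Agent.H11.SC6

open Complex Pool.Agent.H11.Selberg

/-- the case without a pole -/
theorem entire_seven (a : ℕ → ℂ) (F G : ℂ → ℂ) (hS : IsSelberg a F)
    (hG : Differentiable ℂ G) (hGF : ∀ s, s ≠ 1 → G s = F s)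
    (Q : ℝ) (r : ℕ) (lam : Fin r → ℝ) (mu : Fin r → ℂ) (ε : ℂ)
    (hQ : 0 < Q) (hlam : ∀ j, 0 < lam j) (hmu : ∀ j, 0 ≤ (mu j).re) (hε : ‖ε‖ = 1)
    (hfe : ∀ s : ℂ, 0 < s.re → s.re < 1 →
      completed Q lam mu F s =
        ε * (starRingEnd ℂ) (completed Q lam mu F (1 - (starRingEnd ℂ) s)))
    (hdeg : 2 * ∑ j, lam j = 2) (N : ℕ) (hN : N ≤ 7)
    (hcond : (2 * Real.pi) ^ 2 * Q ^ 2 * ∏ j, (lam j) ^ (2 * lam j) = N) :
    ∃ C : ℝ, ∀ x : ℝ, 2 ≤ x → |S a x - Real.log (Real.log x)| ≤ C := by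
  have hsmall : (2 * Real.pi) ^ 2 * Q ^ 2 * ∏ j, (lam j) ^ (2 * lam j) < 4 →
      ∃ C : ℝ, ∀ x : ℝ, 2 ≤ x → |S a x - Real.log (Real.log x)| ≤ C := fun h4 =>
    Pool.Agent.H80.Sel.mainX a F G Q lam mu ε hS hG hGF hQ hlam hmu hε hfe (by linarith) 1 le_rfl
      (fun n hn => absurd (by omega) hn)
      (Or.inl (by unfold Pool.Agent.H14.Sel.cond; push_cast; linarith))
  rcases Nat.lt_or_ge N 4 with h4 | h4
  · refine hsmall ?_
    rw [hcond]
    exact_mod_cast h4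
  · have h : N = 4 ∨ N = 5 ∨ N = 6 ∨ N = 7 := by omega
    rcases h with rfl | h
    · exact Pool.Agent.H11.SC.conductor_four a F hS G hG hGF Q r lam mu ε hQ hlam hmu hε hfe hdeg
        (by rw [hcond]; norm_num)
    · refine Pool.Agent.H11.SC.conductor_567 a F hS G hG hGF Q r lam mu ε hQ hlam hmu hε hfe hdeg ?_
      rcases h with rfl | rfl | rfl
      · left; rw [hcond]; norm_num
      · right; left; rw [hcond]; norm_num
      · right; right; rw [hcond]; norm_num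

theorem primitive_seven (a : ℕ → ℂ) (F : ℂ → ℂ) (hP : IsPrimitive a F)
    (Q : ℝ) (r : ℕ) (lam : Fin r → ℝ) (mu : Fin r → ℂ) (ε : ℂ)
    (hQ : 0 < Q) (hlam : ∀ j, 0 < lam j) (hmu : ∀ j, 0 ≤ (mu j).re) (hε : ‖ε‖ = 1)
    (hfe : ∀ s : ℂ, 0 < s.re → s.re < 1 →
      completed Q lam mu F s =
        ε * (starRingEnd ℂ) (completed Q lam mu F (1 - (starRingEnd ℂ) s)))
    (hdeg : 2 * ∑ j, lam j = 2) (N : ℕ) (hN : N ≤ 7)
    (hcond : (2 * Real.pi) ^ 2 * Q ^ 2 * ∏ j, (lam j) ^ (2 * lam j) = N) :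
    ∃ C : ℝ, ∀ x : ℝ, 2 ≤ x → |S a x - Real.log (Real.log x)| ≤ C := by
  by_cases hpole : ∃ G : ℂ → ℂ, Differentiable ℂ G ∧ ∀ s, s ≠ 1 → G s = F s
  · obtain ⟨G, hG, hGF⟩ := hpole
    exact entire_seven a F G hP.1 hG hGF Q r lam mu ε hQ hlam hmu hε hfe hdeg N hN hcond
  · exact absurd hP (pole_not_primitive a F hP.1 hpole Q r lam mu ε hQ hlam hmu hε hfe hdeg N hN
      hcond)

end Pool.Agent.H11.SC6
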