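import Mathlib
import Pool.Agent.H11.SC6.PrimDef

/-!
# LSERS: the statements on `ζ` and Dirichlet `L`-functions (interface)
-/

set_option autoImplicit false

namespace Pool.Agent.H11.SC6

open Complex Pool.Agent.H11.Selberg

theorem isSelberg_zeta : IsSelberg (fun _ => 1) riemannZeta := by
  sorry

theorem isSelberg_L {N : ℕ} [NeZero N] (χ : DirichletCharacter ℂ N) (hχ : χ.IsPrimitive)
    (h1 : χ ≠ 1) (τ : ℝ) :
    IsSelberg (fun n : ℕ => χ (n : ZMod N) * (n : ℂ) ^ (-((τ : ℂ) * I)))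
      (fun s => χ.LFunction (s + τ * I)) := by
  sorry

theorem factor_zeta_L (a : ℕ → ℂ) (F : ℂ → ℂ) (hS : IsSelberg a F) {N : ℕ} [NeZero N]
    (χ : DirichletCharacter ℂ N) (τ : ℝ)
    (hc : ∀ p : ℕ, p.Prime → ∀ k : ℕ, a (p ^ k) = ∑ i ∈ Finset.range (k + 1),
      (χ (p : ZMod N) * (p : ℂ) ^ (-((τ : ℂ) * I))) ^ i) :
    ∀ s : ℂ, 1 < s.re → F s = riemannZeta s * χ.LFunction (s + τ * I) := by
  sorry

end Pool.Agent.H11.SC6
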