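import Mathlib
import Pool.Agent.H11.Selberg.Defs
import Pool.Agent.H11.SC6.PrimDef
import Pool.Agent.H11.SC6.Final7

set_option autoImplicit false

namespace H11.SC6.PrimSevenOld

open Pool.Agent.H11.Selberg

/-- Let `F` be an element of the Selberg class which is primitive, or has no pole at `s = 1`, and
which satisfies a functional equation of degree `2` whose conductor is an integer at most `7`.
Then `S_F(x) = log log x + O(1)`. -/
theorem result :
    ∀ (a : ℕ → ℂ) (F : ℂ → ℂ), IsSelberg a F →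
    (IsPrimitive a F ∨ ∃ G : ℂ → ℂ, Differentiable ℂ G ∧ ∀ s, s ≠ 1 → G s = F s) →
    ∀ (Q : ℝ) (r : ℕ) (lam : Fin r → ℝ) (mu : Fin r → ℂ) (ε : ℂ),
    0 < Q → (∀ j, 0 < lam j) → (∀ j, 0 ≤ (mu j).re) → ‖ε‖ = 1 →
    (∀ s : ℂ, 0 < s.re → s.re < 1 →
      completed Q lam mu F s =
        ε * (starRingEnd ℂ) (completed Q lam mu F (1 - (starRingEnd ℂ) s))) →
    2 * ∑ j, lam j = 2 →
    ∀ N : ℕ, N ≤ 7 → (2 * Real.pi) ^ 2 * Q ^ 2 * ∏ j, (lam j) ^ (2 * lam j) = N →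
    ∃ C : ℝ, ∀ x : ℝ, 2 ≤ x → |S a x - Real.log (Real.log x)| ≤ C := by
  intro a F hS hF Q r lam mu ε hQ hlam hmu hε hfe hdeg N hN hcond
  rcases hF with hP | ⟨G, hG, hGF⟩
  · exact Pool.Agent.H11.SC6.primitive_seven a F hP Q r lam mu ε hQ hlam hmu hε hfe hdeg N hN hcond
  · exact Pool.Agent.H11.SC6.entire_seven a F G hS hG hGF Q r lam mu ε hQ hlam hmu hε hfe hdeg N hN
      hcond

end H11.SC6.PrimSevenOld
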